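import Mathlib

set_option autoImplicit false
open MeasureTheory Filter Set Topology
open scoped ENNReal NNReal

namespace GStar954

noncomputable section

/-- uncentred maximal function over open intervals with respect to the measure `μ` -/
def MM (μ : Measure ℝ) (h : ℝ → ℝ≥0∞) (x : ℝ) : ℝ≥0∞ :=
  ⨆ (I : ℝ × ℝ) (_ : x ∈ Ioo I.1 I.2), (μ (Ioo I.1 I.2))⁻¹ * ∫⁻ y in Ioo I.1 I.2, h y ∂μ

/-- the `A_p` condition with constant `A` -/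
def Ap (p : ℝ) (A : ℝ≥0) (U : ℝ → ℝ≥0∞) : Prop :=
  ∀ a b : ℝ, a < b →
    (∫⁻ x in Ioo a b, U x) * (∫⁻ x in Ioo a b, (U x) ^ (-1 / (p - 1))) ^ (p - 1) ≤
      A * ENNReal.ofReal (b - a) ^ p

/-- (square of the) area integral with aperture `a` of a nonnegative density `Γ` on the
upper half plane -/
def Sf (Γ : ℝ → ℝ → ℝ≥0∞) (a x : ℝ) : ℝ≥0∞ :=
  ∫⁻ z, ∫⁻ y in Ioi (0:ℝ), if |x - z| < a * y then Γ z y else 0

/-- (square of the) `g^*_λ` functional of a nonnegative density `Γ` -/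
def gs (lam : ℝ) (Γ : ℝ → ℝ → ℝ≥0∞) (x : ℝ) : ℝ≥0∞ :=
  ∫⁻ z, ∫⁻ y in Ioi (0:ℝ), ENNReal.ofReal ((y / (|x - z| + y)) ^ lam) * Γ z y

/-- the Poisson kernel -/
def K (t y : ℝ) : ℝ := y / (Real.pi * (t ^ 2 + y ^ 2))

/-- its `t`-derivative -/
def K1 (t y : ℝ) : ℝ := -(2 * t * y) / (Real.pi * (t ^ 2 + y ^ 2) ^ 2)

/-- its `y`-derivative -/
def K2 (t y : ℝ) : ℝ := (t ^ 2 - y ^ 2) / (Real.pi * (t ^ 2 + y ^ 2) ^ 2)

/-- its second `t`-derivative (minus its second `y`-derivative) -/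
def K11 (t y : ℝ) : ℝ := (6 * t ^ 2 * y - 2 * y ^ 3) / (Real.pi * (t ^ 2 + y ^ 2) ^ 3)

/-- the integral `∫ k(z-x,y) f(x) dx` -/
def cv (k : ℝ → ℝ → ℝ) (f : ℝ → ℝ) (z y : ℝ) : ℝ := ∫ x, k (z - x) y * f x

/-- the squared gradient of the Poisson integral on the upper half plane -/
def Gam (f : ℝ → ℝ) (z y : ℝ) : ℝ≥0∞ :=
  if 0 < y then ENNReal.ofReal ((cv K1 f z y) ^ 2 + (cv K2 f z y) ^ 2) else 0

/-- kernels with the decay used below -/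
structure GoodK (k : ℝ → ℝ → ℝ) : Prop where
  meas : Measurable (Function.uncurry k)
  cont : ContinuousOn (Function.uncurry k) {p : ℝ × ℝ | 0 < p.2}
  bd : ∀ t y : ℝ, 0 < y → |k t y| ≤ (1 + y + 2 / y) / (t ^ 2 + y ^ 2)

/-- a positive weight whose Poisson averages satisfy `P_y w * P_y w⁻¹ ≤ Q` -/
structure GoodW (Q : ℝ≥0) (w : ℝ → ℝ) : Prop where
  meas : Measurable w
  pos : ∀ x, 0 < w x
  bound : ∀ z y : ℝ, 0 < y → (∫⁻ x, ENNReal.ofReal (K (z - x) y) * ENNReal.ofReal (w x)) *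
    (∫⁻ x, ENNReal.ofReal (K (z - x) y) * ENNReal.ofReal ((w x)⁻¹)) ≤ Q

/-- `G = V - 1/(2 V W^2)` -/
def Gv (V W : ℝ) : ℝ := V - 1 / (2 * (V * W ^ 2))

/-- first derivative of `G` along a curve -/
def Gd (V V1 W W1 : ℝ) : ℝ := V1 + (V1 / V + 2 * (W1 / W)) / (2 * (V * W ^ 2))

/-- second derivative of `G` along a curve -/
def Gdd (V V1 V2 W W1 W2 : ℝ) : ℝ :=
  V2 - ((V1 / V + 2 * (W1 / W)) ^ 2 - (V2 / V - (V1 / V) ^ 2) - 2 * (W2 / W - (W1 / W) ^ 2)) /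
    (2 * (V * W ^ 2))

/-- the Bellman function `u^2/G` -/
def Ps (u V W : ℝ) : ℝ := u ^ 2 / Gv V W

/-- its first derivative along a curve -/
def Psd (u u1 V V1 W W1 : ℝ) : ℝ :=
  2 * u * u1 / Gv V W - u ^ 2 * Gd V V1 W W1 / (Gv V W) ^ 2

/-- its second derivative along a curve -/
def Psdd (u u1 u2 V V1 V2 W W1 W2 : ℝ) : ℝ :=
  2 * (u1 ^ 2 + u * u2) / Gv V W - 4 * u * u1 * Gd V V1 W W1 / (Gv V W) ^ 2 +
    2 * u ^ 2 * (Gd V V1 W W1) ^ 2 / (Gv V W) ^ 3 -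
    u ^ 2 * Gdd V V1 V2 W W1 W2 / (Gv V W) ^ 2

/-- a nonnegative subharmonic `C^2` function on the upper half plane with its derivatives -/
structure SubH (Ψ Ψz Ψy Ψzz Ψyy : ℝ → ℝ → ℝ) : Prop where
  dz : ∀ z y : ℝ, 0 < y → HasDerivAt (fun t => Ψ t y) (Ψz z y) z
  dzz : ∀ z y : ℝ, 0 < y → HasDerivAt (fun t => Ψz t y) (Ψzz z y) z
  dy : ∀ z y : ℝ, 0 < y → HasDerivAt (fun t => Ψ z t) (Ψy z y) y
  dyy : ∀ z y : ℝ, 0 < y → HasDerivAt (fun t => Ψy z t) (Ψyy z y) y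
  c0 : ContinuousOn (fun p : ℝ × ℝ => Ψ p.1 p.2) {p : ℝ × ℝ | 0 < p.2}
  czz : ContinuousOn (fun p : ℝ × ℝ => Ψzz p.1 p.2) {p : ℝ × ℝ | 0 < p.2}
  cyy : ContinuousOn (fun p : ℝ × ℝ => Ψyy p.1 p.2) {p : ℝ × ℝ | 0 < p.2}
  nn : ∀ z y : ℝ, 0 < y → 0 ≤ Ψ z y
  sub : ∀ z y : ℝ, 0 < y → 0 ≤ Ψzz z y + Ψyy z y

/-- A weight: measurable, non-negative, locally integrable. -/
def IsWeight (U : ℝ → ℝ) : Prop :=
  Measurable U ∧ (∀ x, 0 ≤ U x) ∧ LocallyIntegrable U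

/-- The Muckenhoupt class `A_p`. -/
def MuckenhouptA (p : ℝ) (U : ℝ → ℝ) : Prop :=
  ∃ C : ℝ≥0, ∀ a b : ℝ, a < b →
    (∫⁻ x in Icc a b, ENNReal.ofReal (U x)) *
      (∫⁻ x in Icc a b, ENNReal.ofReal (U x) ^ (-1 / (p - 1))) ^ (p - 1) ≤
        C * ENNReal.ofReal (b - a) ^ p

/-- The class `B_r`: for every interval `I` of centre `c` and length `l`,
`∫ l^{r-1} U(x) / (l^r + |x-c|^r) dx ≤ (C/l) ∫_I U`. -/
def ClassB (r : ℝ) (U : ℝ → ℝ) : Prop :=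
  ∃ C : ℝ≥0, ∀ c l : ℝ, 0 < l →
    ∫⁻ x, ENNReal.ofReal (l ^ (r - 1) * U x / (l ^ r + |x - c| ^ r)) ≤
      ENNReal.ofReal (1 / l) * (C * ∫⁻ x in Icc (c - l / 2) (c + l / 2), ENNReal.ofReal (U x))

/-- the weighted inequality for nonnegative bounded compactly supported functions -/
def TestStar (lam p : ℝ) (U : ℝ → ℝ) : Prop :=
  ∃ C : ℝ≥0, ∀ f : ℝ → ℝ, Measurable f → (∀ x, 0 ≤ f x) → (∃ M : ℝ, ∀ x, f x ≤ M) →
    (∃ c l : ℝ, 0 < l ∧ ∀ x, x ∉ Icc (c - l / 2) (c + l / 2) → f x = 0) →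
    ∫⁻ x, (gs lam (Gam f) x) ^ (p / 2) * ENNReal.ofReal (U x) ≤
      C * ∫⁻ x, ENNReal.ofReal (|f x| ^ p * U x)

/-- A weight: a non-negative locally integrable function on the line. -/
def IsWt (U : ℝ → ℝ) : Prop := (∀ x, 0 ≤ U x) ∧ LocallyIntegrable U

/-- The Poisson integral `f(z,y) = (1/π) ∫ y f(z-x)/(x²+y²) dx`. -/
def poisson (f : ℝ → ℝ) (z y : ℝ) : ℝ :=
  (1 / Real.pi) * ∫ x, y * f (z - x) / (x ^ 2 + y ^ 2)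

/-- The squared length `|∇f(z,y)|²` of the gradient of the Poisson integral in `(z,y)`. -/
def gradSq (f : ℝ → ℝ) (z y : ℝ) : ℝ :=
  (deriv (fun s => poisson f s y) z) ^ 2 + (deriv (fun s => poisson f z s) y) ^ 2

/-- The function `g_λ^*(x)`, with values in `[0,∞]`. -/
def gStar (lam : ℝ) (f : ℝ → ℝ) (x : ℝ) : ℝ≥0∞ :=
  (∫⁻ z, ∫⁻ y in Ioi (0:ℝ), ENNReal.ofReal ((y / (|x - z| + y)) ^ lam * gradSq f z y)) ^
    (1 / 2 : ℝ)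

/-- The weighted inequality `(∗)`. -/
def Star (lam p : ℝ) (U : ℝ → ℝ) : Prop :=
  ∃ C : ℝ≥0, ∀ f : ℝ → ℝ, AEMeasurable f →
    ∫⁻ x, ENNReal.ofReal (|f x| ^ p * U x) < ∞ →
    ∫⁻ x, (gStar lam f x) ^ p * ENNReal.ofReal (U x) ≤
      C * ∫⁻ x, ENNReal.ofReal (|f x| ^ p * U x)

/-- The class `A_r`: `(|I|⁻¹ ∫_I U) (|I|⁻¹ ∫_I U^{-1/(r-1)})^{r-1} ≤ C` for all intervals `I`. -/
def ClassA (r : ℝ) (U : ℝ → ℝ) : Prop :=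
  ∃ C : ℝ≥0, ∀ a b : ℝ, a < b →
    ((ENNReal.ofReal (b - a))⁻¹ * ∫⁻ x in Icc a b, ENNReal.ofReal (U x)) *
      ((ENNReal.ofReal (b - a))⁻¹ *
        ∫⁻ x in Icc a b, ENNReal.ofReal (U x) ^ (-1 / (r - 1))) ^ (r - 1) ≤ C


end

end GStar954
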