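import Mathlib
import Pool.Agent.Helper954.GStar.Defs

set_option autoImplicit false
open MeasureTheory Filter Set Topology
open scoped ENNReal NNReal

namespace GStar954

noncomputable section

theorem cover_two (s : Finset (ℝ × ℝ)) :
    ∃ t : Finset (ℝ × ℝ), t ⊆ s ∧ (⋃ p ∈ s, Ioo p.1 p.2) ⊆ (⋃ p ∈ t, Ioo p.1 p.2) ∧
      ∀ x : ℝ, ∑ p ∈ t, (Ioo p.1 p.2).indicator (fun _ => (1:ℝ≥0∞)) x ≤ 2 := by
  classical
  obtain ⟨t, ht, hmin⟩ := Finset.exists_min_image
    (s.powerset.filter fun t => (⋃ p ∈ s, Ioo p.1 p.2) ⊆ (⋃ p ∈ t, Ioo p.1 p.2)) Finset.card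
    ⟨s, Finset.mem_filter.2 ⟨Finset.mem_powerset.2 (Finset.Subset.refl s), Set.Subset.refl _⟩⟩
  rw [Finset.mem_filter, Finset.mem_powerset] at ht
  refine ⟨t, ht.1, ht.2, fun x => ?_⟩
  have hcard : (t.filter fun p => x ∈ Ioo p.1 p.2).card ≤ 2 := by
    by_contra hcon
    push Not at hcon
    obtain ⟨u, hu⟩ : ∃ u, u = t.filter fun p => x ∈ Ioo p.1 p.2 := ⟨_, rfl⟩
    rw [← hu] at hcon
    have hne : u.Nonempty := Finset.card_pos.1 (by omega)
    obtain ⟨pl, hpl, hpl2⟩ := Finset.exists_min_image u (fun p => p.1) hne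
    obtain ⟨pr, hpr, hpr2⟩ := Finset.exists_max_image u (fun p => p.2) hne
    have h1 : 0 < ((u.erase pl).erase pr).card := by
      have h2 := Finset.pred_card_le_card_erase (s := u) (a := pl)
      have h3 := Finset.pred_card_le_card_erase (s := u.erase pl) (a := pr)
      omega
    obtain ⟨q, hq⟩ := Finset.card_pos.1 h1
    rw [Finset.mem_erase, Finset.mem_erase] at hq
    obtain ⟨hqr, hql, hqu⟩ := hq
    have hmemu : ∀ p, p ∈ u → p ∈ t ∧ x ∈ Ioo p.1 p.2 := by
      intro p hp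
      rw [hu, Finset.mem_filter] at hp
      exact hp
    have hle := hmin (t.erase q) (by
      rw [Finset.mem_filter, Finset.mem_powerset]
      refine ⟨(Finset.erase_subset _ _).trans ht.1, fun y hy => ?_⟩
      have hy2 := ht.2 hy
      simp only [Set.mem_iUnion] at hy2 ⊢
      obtain ⟨p, hp, hyp⟩ := hy2
      by_cases hpq : p = q
      · subst hpq
        rcases lt_or_ge y x with hyx | hyx
        · refine ⟨pl, Finset.mem_erase.2 ⟨Ne.symm hql, (hmemu pl hpl).1⟩, ?_, ?_⟩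
          · exact lt_of_le_of_lt (hpl2 p hqu) hyp.1
          · exact hyx.trans (hmemu pl hpl).2.2
        · refine ⟨pr, Finset.mem_erase.2 ⟨Ne.symm hqr, (hmemu pr hpr).1⟩, ?_, ?_⟩
          · exact lt_of_lt_of_le (hmemu pr hpr).2.1 hyx
          · exact lt_of_lt_of_le hyp.2 (hpr2 p hqu)
      · exact ⟨p, Finset.mem_erase.2 ⟨hpq, hp⟩, hyp⟩)
    have hlt := Finset.card_erase_lt_of_mem (hmemu q hqu).1
    omega
  have hsum : ∑ p ∈ t, (Ioo p.1 p.2).indicator (fun _ => (1:ℝ≥0∞)) x =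
      ((t.filter fun p => x ∈ Ioo p.1 p.2).card : ℝ≥0∞) := by
    rw [← Finset.sum_boole]
    refine Finset.sum_congr rfl fun p _ => ?_
    by_cases h : x ∈ Ioo p.1 p.2
    · rw [Set.indicator_of_mem h, if_pos h]
    · rw [Set.indicator_of_notMem h, if_neg h]
  rw [hsum]
  exact_mod_cast hcard

end

end GStar954
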