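import Mathlib
import Pool.Agent.Helper954.GStar.Defs
import Pool.Agent.Helper954.GStar.A1

set_option autoImplicit false
open MeasureTheory Filter Set Topology
open scoped ENNReal NNReal

namespace GStar954

noncomputable section

theorem cover_measure (μ ν : Measure ℝ) (F : Set (ℝ × ℝ))
    (hF : ∀ p ∈ F, μ (Ioo p.1 p.2) ≤ ν (Ioo p.1 p.2)) :
    μ (⋃ p ∈ F, Ioo p.1 p.2) ≤ 2 * ν (⋃ p ∈ F, Ioo p.1 p.2) := by
  classical
  set O : Set ℝ := ⋃ p ∈ F, Ioo p.1 p.2 with hO
  have hOo : IsOpen O := isOpen_biUnion (fun p _ => isOpen_Ioo)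
  obtain ⟨G, hGc, hGsub, hGU, hGm⟩ := hOo.exists_iUnion_isClosed
  set Kn : ℕ → Set ℝ := fun n => G n ∩ Metric.closedBall (0:ℝ) n with hKn
  have hKmono : Monotone Kn := by
    intro a b hab
    refine Set.inter_subset_inter (hGm hab) (Metric.closedBall_subset_closedBall ?_)
    exact_mod_cast hab
  have hKU : ⋃ n, Kn n = O := by
    apply Set.Subset.antisymm
    · exact Set.iUnion_subset (fun n => Set.inter_subset_left.trans (hGsub n))
    · intro x hx
      rw [← hGU] at hx
      obtain ⟨n, hn⟩ := Set.mem_iUnion.1 hx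
      obtain ⟨m, hm⟩ := exists_nat_ge ‖x‖
      refine Set.mem_iUnion.2 ⟨max n m, hGm (le_max_left n m) hn, ?_⟩
      rw [mem_closedBall_zero_iff]
      refine hm.trans ?_
      exact_mod_cast le_max_right n m
  have hKc : ∀ n, IsCompact (Kn n) := fun n =>
    (isCompact_closedBall (0:ℝ) n).inter_left (hGc n)
  have hKO : ∀ n, Kn n ⊆ O := fun n => Set.inter_subset_left.trans (hGsub n)
  have key : ∀ C : Set ℝ, IsCompact C → C ⊆ O → μ C ≤ 2 * ν O := by
    intro C hC hCO
    obtain ⟨b', hb', hfin, hcov⟩ := hC.elim_finite_subcover_image (b := F)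
      (c := fun p : ℝ × ℝ => Ioo p.1 p.2) (fun p _ => isOpen_Ioo) hCO
    obtain ⟨t, hts, htcov, ht2⟩ := cover_two hfin.toFinset
    have htF : ∀ p ∈ t, p ∈ F := fun p hp => hb' (hfin.mem_toFinset.1 (hts hp))
    have hCt : C ⊆ ⋃ p ∈ t, Ioo p.1 p.2 := by
      refine hcov.trans (Set.Subset.trans ?_ htcov)
      intro x hx
      simp only [Set.mem_iUnion] at hx ⊢
      obtain ⟨p, hp, hx⟩ := hx
      exact ⟨p, hfin.mem_toFinset.2 hp, hx⟩
    calc μ C ≤ μ (⋃ p ∈ t, Ioo p.1 p.2) := measure_mono hCt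
      _ ≤ ∑ p ∈ t, μ (Ioo p.1 p.2) := measure_biUnion_finset_le _ _
      _ ≤ ∑ p ∈ t, ν (Ioo p.1 p.2) := Finset.sum_le_sum (fun p hp => hF p (htF p hp))
      _ = ∑ p ∈ t, ∫⁻ x, (Ioo p.1 p.2).indicator (fun _ => (1:ℝ≥0∞)) x ∂ν := by
          refine Finset.sum_congr rfl (fun p _ => ?_)
          rw [lintegral_indicator measurableSet_Ioo]
          simp
      _ = ∫⁻ x, ∑ p ∈ t, (Ioo p.1 p.2).indicator (fun _ => (1:ℝ≥0∞)) x ∂ν := by
          rw [lintegral_finsetSum]
          intro p _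
          exact measurable_const.indicator measurableSet_Ioo
      _ ≤ ∫⁻ x, O.indicator (fun _ => (2:ℝ≥0∞)) x ∂ν := by
          refine lintegral_mono (fun x => ?_)
          by_cases hx : x ∈ O
          · rw [Set.indicator_of_mem hx]; exact ht2 x
          · rw [Set.indicator_of_notMem hx]
            refine le_of_eq (Finset.sum_eq_zero (fun p hp => ?_))
            refine Set.indicator_of_notMem (fun hxp => hx ?_) _
            exact Set.mem_biUnion (htF p hp) hxp
      _ = 2 * ν O := by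
          rw [lintegral_indicator hOo.measurableSet]
          simp
  rw [← hKU, hKmono.measure_iUnion, hKU]
  exact iSup_le (fun n => key _ (hKc n) (hKO n))

end

end GStar954
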