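import Mathlib
import Pool.Agent.Helper954.GStar.Defs
import Pool.Agent.Helper954.GStar.A2

set_option autoImplicit false
open MeasureTheory Filter Set Topology
open scoped ENNReal NNReal

namespace GStar954

noncomputable section

theorem lt_MM_eq (μ : Measure ℝ) (h : ℝ → ℝ≥0∞) (t : ℝ≥0∞) :
    {x | t < MM μ h x} = ⋃ p ∈ {p : ℝ × ℝ | t < (μ (Ioo p.1 p.2))⁻¹ *
      ∫⁻ y in Ioo p.1 p.2, h y ∂μ}, Ioo p.1 p.2 := by
  ext x
  simp only [MM, Set.mem_iUnion]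
  constructor
  · intro hx
    have hx' : t < ⨆ (I : ℝ × ℝ) (_ : x ∈ Ioo I.1 I.2),
        (μ (Ioo I.1 I.2))⁻¹ * ∫⁻ y in Ioo I.1 I.2, h y ∂μ := hx
    rw [lt_iSup_iff] at hx'
    obtain ⟨I, hI⟩ := hx'
    rw [lt_iSup_iff] at hI
    obtain ⟨h1, h2⟩ := hI
    exact ⟨I, h2, h1⟩
  · rintro ⟨I, h2, h1⟩
    show t < ⨆ (I : ℝ × ℝ) (_ : x ∈ Ioo I.1 I.2),
        (μ (Ioo I.1 I.2))⁻¹ * ∫⁻ y in Ioo I.1 I.2, h y ∂μ
    rw [lt_iSup_iff]
    refine ⟨I, ?_⟩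
    rw [lt_iSup_iff]
    exact ⟨h1, h2⟩

theorem measurable_MM (μ : Measure ℝ) (h : ℝ → ℝ≥0∞) : Measurable (MM μ h) := by
  refine measurable_of_Ioi fun t => ?_
  have h1 : MM μ h ⁻¹' Ioi t = {x | t < MM μ h x} := rfl
  rw [h1, lt_MM_eq]
  exact (isOpen_biUnion fun p _ => isOpen_Ioo).measurableSet

theorem weak_type (μ : Measure ℝ) (h : ℝ → ℝ≥0∞) (hh : Measurable h) (t : ℝ≥0∞) :
    t * μ {x | t < MM μ h x} ≤ 2 * ∫⁻ x, h x ∂μ := by
  rw [lt_MM_eq]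
  have h1 := cover_measure (t • μ) (μ.withDensity h) {p : ℝ × ℝ | t < (μ (Ioo p.1 p.2))⁻¹ *
      ∫⁻ y in Ioo p.1 p.2, h y ∂μ} ?_
  · rw [Measure.smul_apply, smul_eq_mul] at h1
    refine h1.trans ?_
    gcongr
    rw [withDensity_apply _ (isOpen_biUnion fun p _ => isOpen_Ioo).measurableSet]
    exact setLIntegral_le_lintegral _ _
  · intro p hp
    rw [Measure.smul_apply, smul_eq_mul, withDensity_apply _ measurableSet_Ioo]
    have hp' : t < (μ (Ioo p.1 p.2))⁻¹ * ∫⁻ y in Ioo p.1 p.2, h y ∂μ := hp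
    by_cases h0 : μ (Ioo p.1 p.2) = 0
    · rw [h0, mul_zero]
      exact zero_le
    · by_cases htop : μ (Ioo p.1 p.2) = ⊤
      · rw [htop, ENNReal.inv_top, zero_mul] at hp'
        exact absurd hp' (not_lt.2 zero_le)
      · calc t * μ (Ioo p.1 p.2)
            ≤ ((μ (Ioo p.1 p.2))⁻¹ * ∫⁻ y in Ioo p.1 p.2, h y ∂μ) * μ (Ioo p.1 p.2) := by
              gcongr
          _ = ∫⁻ y in Ioo p.1 p.2, h y ∂μ := by
              rw [mul_comm, ← mul_assoc, ENNReal.mul_inv_cancel h0 htop, one_mul]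

end

end GStar954
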