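import Mathlib
import Pool.Agent.Helper954.GStar.Defs

set_option autoImplicit false
open MeasureTheory Filter Set Topology
open scoped ENNReal NNReal

namespace GStar954

noncomputable section

theorem layer_cake_trunc {α : Type*} [MeasurableSpace α] (μ : Measure α)
    (F : α → ℝ≥0∞) (hF : Measurable F) (r : ℝ) (hr : 0 < r) (n : ℕ) :
    ∫⁻ x, (min (F x) n) ^ r ∂μ =
      ∫⁻ t in Ioi (0:ℝ), ENNReal.ofReal (r * t ^ (r - 1)) *
        μ {x | ENNReal.ofReal t < min (F x) n} := by
  have hfin : ∀ x, min (F x) (n : ℝ≥0∞) ≠ ⊤ := fun x =>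
    ne_top_of_le_ne_top (ENNReal.natCast_ne_top n) (min_le_right _ _)
  have hm : Measurable (fun x => (min (F x) (n : ℝ≥0∞)).toReal) :=
    (hF.min measurable_const).ennreal_toReal
  have h1 := lintegral_rpow_eq_lintegral_meas_lt_mul μ
    (f := fun x => (min (F x) (n : ℝ≥0∞)).toReal)
    (Filter.Eventually.of_forall fun x => ENNReal.toReal_nonneg) hm.aemeasurable hr
  have h2 : ∀ x, ENNReal.ofReal ((min (F x) (n : ℝ≥0∞)).toReal ^ r) = (min (F x) n) ^ r := by
    intro x
    rw [← ENNReal.ofReal_rpow_of_nonneg ENNReal.toReal_nonneg hr.le, ENNReal.ofReal_toReal (hfin x)]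
  simp only [h2] at h1
  rw [h1, ← lintegral_const_mul' _ _ ENNReal.ofReal_ne_top]
  refine setLIntegral_congr_fun measurableSet_Ioi ?_
  intro t ht
  have ht0 : 0 < t := ht
  have h3 : {a : α | t < (min (F a) (n : ℝ≥0∞)).toReal} =
      {x | ENNReal.ofReal t < min (F x) n} := by
    ext x
    simp only [Set.mem_ofPred_eq]
    rw [ENNReal.ofReal_lt_iff_lt_toReal ht0.le (hfin x)]
  simp only [h3]
  rw [ENNReal.ofReal_mul hr.le]
  ring

theorem layer_cake {α : Type*} [MeasurableSpace α] (μ : Measure α) [SFinite μ]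
    (F : α → ℝ≥0∞) (hF : Measurable F) (r : ℝ) (hr : 0 < r) :
    ∫⁻ x, (F x) ^ r ∂μ =
      ∫⁻ t in Ioi (0:ℝ), ENNReal.ofReal (r * t ^ (r - 1)) * μ {x | ENNReal.ofReal t < F x} := by
  have hL : Tendsto (fun n : ℕ => ∫⁻ x, (min (F x) n) ^ r ∂μ) atTop (𝓝 (∫⁻ x, (F x) ^ r ∂μ)) := by
    apply lintegral_tendsto_of_tendsto_of_monotone
    · intro n
      exact ((hF.min measurable_const).pow_const r).aemeasurable
    · refine Filter.Eventually.of_forall fun x => ?_
      intro n m hnm
      have h1 : (n : ℝ≥0∞) ≤ m := by exact_mod_cast hnm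
      exact ENNReal.rpow_le_rpow (min_le_min_left _ h1) hr.le
    · refine Filter.Eventually.of_forall fun x => ?_
      have h1 : Tendsto (fun n : ℕ => min (F x) (n : ℝ≥0∞)) atTop (𝓝 (min (F x) ⊤)) :=
        tendsto_const_nhds.min ENNReal.tendsto_nat_nhds_top
      rw [min_eq_left le_top] at h1
      exact (ENNReal.continuous_rpow_const.tendsto _).comp h1
  have hR : Tendsto (fun n : ℕ => ∫⁻ t in Ioi (0:ℝ), ENNReal.ofReal (r * t ^ (r - 1)) *
        μ {x | ENNReal.ofReal t < min (F x) n}) atTop
      (𝓝 (∫⁻ t in Ioi (0:ℝ), ENNReal.ofReal (r * t ^ (r - 1)) * μ {x | ENNReal.ofReal t < F x})) := by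
    have hmono : ∀ t : ℝ, Monotone (fun n : ℕ => {x | ENNReal.ofReal t < min (F x) (n : ℝ≥0∞)}) := by
      intro t n m hnm x hx
      have h1 : (n : ℝ≥0∞) ≤ m := by exact_mod_cast hnm
      exact lt_of_lt_of_le hx (min_le_min_left _ h1)
    apply lintegral_tendsto_of_tendsto_of_monotone
    · intro n
      apply Measurable.aemeasurable
      apply Measurable.mul
      · fun_prop
      · apply Antitone.measurable
        intro s t hst
        apply measure_mono
        intro x hx
        exact lt_of_le_of_lt (ENNReal.ofReal_le_ofReal hst) hx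
    · refine Filter.Eventually.of_forall fun t => ?_
      intro n m hnm
      exact mul_le_mul_right (measure_mono (hmono t hnm)) _
    · refine Filter.Eventually.of_forall fun t => ?_
      apply ENNReal.Tendsto.const_mul _ (Or.inr ENNReal.ofReal_ne_top)
      have h1 := tendsto_measure_iUnion_atTop (μ := μ) (hmono t)
      have h2 : (⋃ n : ℕ, {x | ENNReal.ofReal t < min (F x) (n : ℝ≥0∞)}) =
          {x | ENNReal.ofReal t < F x} := by
        ext x
        simp only [Set.mem_iUnion, Set.mem_ofPred_eq, lt_min_iff]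
        constructor
        · rintro ⟨n, h, -⟩
          exact h
        · intro h
          obtain ⟨n, hn⟩ := ENNReal.exists_nat_gt (r := ENNReal.ofReal t) ENNReal.ofReal_ne_top
          exact ⟨n, h, hn⟩
      rw [h2] at h1
      exact h1
  simp only [layer_cake_trunc μ F hF r hr] at hL
  exact tendsto_nhds_unique hL hR

end

end GStar954
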