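import Mathlib
import Pool.Agent.Helper954.GStar.Defs
import Pool.Agent.Helper954.GStar.A4

set_option autoImplicit false
open MeasureTheory Filter Set Topology
open scoped ENNReal NNReal

namespace GStar954

noncomputable section

theorem inner_aux (r : ℝ) (hr : 1 < r) (c : ℝ≥0∞) :
    ∫⁻ t in Ioi (0:ℝ), (if ENNReal.ofReal (t / 2) < c then
      ENNReal.ofReal (r * t ^ (r - 2)) * c else 0) =
      ENNReal.ofReal (r / (r - 1) * 2 ^ (r - 1)) * c ^ r := by
  have h1 : (2 * c) ^ (r - 1) = ∫⁻ t in Ioi (0:ℝ), ENNReal.ofReal ((r - 1) * t ^ (r - 1 - 1)) *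
      (if ENNReal.ofReal t < 2 * c then 1 else 0) := by
    have h2 := layer_cake (Measure.dirac ()) (fun _ => 2 * c) measurable_const (r - 1)
      (by linarith)
    rw [lintegral_dirac] at h2
    rw [h2]
    apply lintegral_congr
    intro t
    congr 1
    rw [Measure.dirac_apply' _ (by simp)]
    by_cases h : ENNReal.ofReal t < 2 * c
    · simp [h]
    · simp [h]
  have h3 : ∀ t : ℝ, t ∈ Ioi (0:ℝ) → (if ENNReal.ofReal (t / 2) < c then
      ENNReal.ofReal (r * t ^ (r - 2)) * c else 0) =
      (ENNReal.ofReal (r / (r - 1)) * c) * (ENNReal.ofReal ((r - 1) * t ^ (r - 1 - 1)) *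
      (if ENNReal.ofReal t < 2 * c then 1 else 0)) := by
    intro t ht
    have ht0 : (0:ℝ) < t := ht
    have h4 : ENNReal.ofReal (t / 2) < c ↔ ENNReal.ofReal t < 2 * c := by
      have h5 : ENNReal.ofReal t = 2 * ENNReal.ofReal (t / 2) := by
        rw [← ENNReal.ofReal_ofNat 2, ← ENNReal.ofReal_mul (by norm_num)]
        congr 1
        ring
      rw [h5]
      exact (ENNReal.mul_lt_mul_iff_right (by norm_num) (by norm_num)).symm
    have h6 : ENNReal.ofReal (r * t ^ (r - 2)) =
        ENNReal.ofReal (r / (r - 1)) * ENNReal.ofReal ((r - 1) * t ^ (r - 1 - 1)) := by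
      rw [← ENNReal.ofReal_mul (div_nonneg (by linarith) (by linarith))]
      congr 1
      have h7 : r - 1 ≠ 0 := by linarith
      have h8 : r - 1 - 1 = r - 2 := by ring
      rw [h8]
      field_simp
    by_cases h : ENNReal.ofReal (t / 2) < c
    · rw [if_pos h, if_pos (h4.1 h), h6]
      ring
    · rw [if_neg h, if_neg (fun h' => h (h4.2 h'))]
      simp
  rw [setLIntegral_congr_fun measurableSet_Ioi h3]
  have hms : Measurable (fun t : ℝ => ENNReal.ofReal ((r - 1) * t ^ (r - 1 - 1)) *
      (if ENNReal.ofReal t < 2 * c then (1 : ℝ≥0∞) else 0)) := by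
    apply Measurable.mul
    · fun_prop
    · exact Measurable.ite (measurableSet_lt (by fun_prop) measurable_const) measurable_const
        measurable_const
  rw [lintegral_const_mul _ hms, ← h1, ENNReal.mul_rpow_of_nonneg _ _ (by linarith)]
  have h9 : c ^ r = c * c ^ (r - 1) := by
    have := ENNReal.rpow_add_of_nonneg (x := c) 1 (r - 1) (by norm_num) (by linarith)
    rw [ENNReal.rpow_one] at this
    rw [← this]
    congr 1
    ring
  rw [h9, ENNReal.ofReal_mul (div_nonneg (by linarith) (by linarith))]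
  have h10 : ENNReal.ofReal (2 ^ (r - 1)) = (2 : ℝ≥0∞) ^ (r - 1) := by
    rw [← ENNReal.ofReal_rpow_of_pos (by norm_num)]
    norm_num
  rw [h10]
  ring

theorem strong_of_weak {α : Type*} [MeasurableSpace α] (μ : Measure α) [SFinite μ]
    (F h : α → ℝ≥0∞) (hF : Measurable F) (hh : Measurable h) (r : ℝ) (hr : 1 < r) (C : ℝ≥0∞)
    (H : ∀ t : ℝ, 0 < t → ENNReal.ofReal t * μ {x | ENNReal.ofReal t < F x} ≤
      C * ∫⁻ x in {x | ENNReal.ofReal (t / 2) < h x}, h x ∂μ) :
    ∫⁻ x, (F x) ^ r ∂μ ≤
      C * ENNReal.ofReal (r / (r - 1) * 2 ^ (r - 1)) * ∫⁻ x, (h x) ^ r ∂μ := by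
  have hlc := layer_cake μ F hF r (by linarith)
  rw [hlc]
  have h1 : ∀ t ∈ Ioi (0:ℝ), ENNReal.ofReal (r * t ^ (r - 1)) * μ {x | ENNReal.ofReal t < F x} ≤
      C * ∫⁻ x, (if ENNReal.ofReal (t / 2) < h x then
        ENNReal.ofReal (r * t ^ (r - 2)) * h x else 0) ∂μ := by
    intro t ht
    have ht0 : (0:ℝ) < t := ht
    have h2 : ENNReal.ofReal (r * t ^ (r - 1)) =
        ENNReal.ofReal (r * t ^ (r - 2)) * ENNReal.ofReal t := by
      rw [← ENNReal.ofReal_mul (mul_nonneg (by linarith) (Real.rpow_nonneg ht0.le _))]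
      congr 1
      rw [mul_assoc]
      congr 1
      have h3 := Real.rpow_add ht0 (r - 2) 1
      rw [Real.rpow_one] at h3
      rw [← h3]
      congr 1
      ring
    have hms : MeasurableSet {x | ENNReal.ofReal (t / 2) < h x} :=
      measurableSet_lt measurable_const hh
    have h4 : ∫⁻ x, (if ENNReal.ofReal (t / 2) < h x then
        ENNReal.ofReal (r * t ^ (r - 2)) * h x else 0) ∂μ =
        ENNReal.ofReal (r * t ^ (r - 2)) *
          ∫⁻ x in {x | ENNReal.ofReal (t / 2) < h x}, h x ∂μ := by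
      rw [← lintegral_indicator hms, ← lintegral_const_mul' _ _ ENNReal.ofReal_ne_top]
      apply lintegral_congr
      intro x
      by_cases hx : ENNReal.ofReal (t / 2) < h x
      · rw [if_pos hx, Set.indicator_of_mem (by exact hx)]
      · rw [if_neg hx, Set.indicator_of_notMem (by exact hx), mul_zero]
    rw [h4, h2, mul_assoc]
    calc _ ≤ ENNReal.ofReal (r * t ^ (r - 2)) *
          (C * ∫⁻ x in {x | ENNReal.ofReal (t / 2) < h x}, h x ∂μ) := by
            exact mul_le_mul' le_rfl (H t ht0)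
      _ = _ := by ring
  refine (setLIntegral_mono' measurableSet_Ioi h1).trans ?_
  have hmeas : Measurable (fun p : ℝ × α => if ENNReal.ofReal (p.1 / 2) < h p.2 then
        ENNReal.ofReal (r * p.1 ^ (r - 2)) * h p.2 else 0) := by
    apply Measurable.ite
    · exact measurableSet_lt (by fun_prop) (hh.comp measurable_snd)
    · apply Measurable.mul _ (hh.comp measurable_snd)
      fun_prop
    · exact measurable_const
  have hinner : Measurable (fun t : ℝ => ∫⁻ x, (if ENNReal.ofReal (t / 2) < h x then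
        ENNReal.ofReal (r * t ^ (r - 2)) * h x else 0) ∂μ) :=
    hmeas.lintegral_prod_right'
  rw [lintegral_const_mul C hinner, mul_assoc]
  gcongr
  rw [lintegral_lintegral_swap hmeas.aemeasurable]
  rw [lintegral_congr (fun x => inner_aux r hr (h x))]
  rw [lintegral_const_mul' _ _ ENNReal.ofReal_ne_top]

end

end GStar954
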