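import Mathlib
import Pool.Agent.Helper954.GStar.Defs
import Pool.Agent.Helper954.GStar.A3
import Pool.Agent.Helper954.GStar.A5

set_option autoImplicit false
open MeasureTheory Filter Set Topology
open scoped ENNReal NNReal

namespace GStar954

noncomputable section

theorem strong_type (r : ℝ) (hr : 1 < r) : ∃ C : ℝ≥0, ∀ (μ : Measure ℝ) [SFinite μ]
    (h : ℝ → ℝ≥0∞), Measurable h →
      ∫⁻ x, (MM μ h x) ^ r ∂μ ≤ C * ∫⁻ x, (h x) ^ r ∂μ := by
  refine ⟨(4 * ENNReal.ofReal (r / (r - 1) * 2 ^ (r - 1))).toNNReal, ?_⟩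
  intro μ _ h hh
  rw [ENNReal.coe_toNNReal (ENNReal.mul_ne_top (by norm_num) ENNReal.ofReal_ne_top)]
  refine strong_of_weak μ (MM μ h) h (measurable_MM μ h) hh r hr 4 ?_
  intro t ht
  set E : Set ℝ := {x | ENNReal.ofReal (t / 2) < h x} with hE
  have hEm : MeasurableSet E := measurableSet_lt measurable_const hh
  have hpt : ∀ y, h y ≤ E.indicator h y + ENNReal.ofReal (t / 2) := by
    intro y
    by_cases hy : y ∈ E
    · rw [indicator_of_mem hy]; exact le_self_add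
    · rw [indicator_of_notMem hy, zero_add]
      exact not_lt.1 hy
  have hle : ∀ x, MM μ h x ≤ MM μ (E.indicator h) x + ENNReal.ofReal (t / 2) := by
    intro x
    unfold MM
    refine iSup₂_le fun I hI => ?_
    have h1 : ∫⁻ y in Ioo I.1 I.2, h y ∂μ ≤ ∫⁻ y in Ioo I.1 I.2, E.indicator h y ∂μ +
        ENNReal.ofReal (t / 2) * μ (Ioo I.1 I.2) := by
      refine (lintegral_mono hpt).trans ?_
      rw [lintegral_add_right _ measurable_const, lintegral_const, Measure.restrict_apply_univ]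
    calc (μ (Ioo I.1 I.2))⁻¹ * ∫⁻ y in Ioo I.1 I.2, h y ∂μ
        ≤ (μ (Ioo I.1 I.2))⁻¹ * (∫⁻ y in Ioo I.1 I.2, E.indicator h y ∂μ +
          ENNReal.ofReal (t / 2) * μ (Ioo I.1 I.2)) := by gcongr
      _ = (μ (Ioo I.1 I.2))⁻¹ * ∫⁻ y in Ioo I.1 I.2, E.indicator h y ∂μ +
          ENNReal.ofReal (t / 2) * ((μ (Ioo I.1 I.2))⁻¹ * μ (Ioo I.1 I.2)) := by
          rw [mul_add]
          congr 1
          ring
      _ ≤ (⨆ (I : ℝ × ℝ) (_ : x ∈ Ioo I.1 I.2), (μ (Ioo I.1 I.2))⁻¹ * ∫⁻ y in Ioo I.1 I.2, E.indicator h y ∂μ) +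
          ENNReal.ofReal (t / 2) * 1 := by
          refine add_le_add ?_ (mul_le_mul_right (ENNReal.inv_mul_le_one _) _)
          exact le_iSup₂ (f := fun (I : ℝ × ℝ) (_ : x ∈ Ioo I.1 I.2) =>
            (μ (Ioo I.1 I.2))⁻¹ * ∫⁻ y in Ioo I.1 I.2, E.indicator h y ∂μ) I hI
      _ = _ := by rw [mul_one]
  have h2 : ENNReal.ofReal t = 2 * ENNReal.ofReal (t / 2) := by
    rw [← ENNReal.ofReal_ofNat, ← ENNReal.ofReal_mul (by norm_num)]
    congr 1
    ring
  have hsub : {x | ENNReal.ofReal t < MM μ h x} ⊆ {x | ENNReal.ofReal (t / 2) < MM μ (E.indicator h) x} := by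
    intro x hx
    by_contra hcon
    have h3 : MM μ (E.indicator h) x ≤ ENNReal.ofReal (t / 2) := not_lt.1 hcon
    have h4 : ENNReal.ofReal t < MM μ h x := hx
    refine absurd ((hle x).trans (add_le_add_left h3 _)) (not_le.2 ?_)
    rwa [← two_mul, ← h2]
  have hw := weak_type μ (E.indicator h) (hh.indicator hEm) (ENNReal.ofReal (t / 2))
  rw [lintegral_indicator hEm] at hw
  calc ENNReal.ofReal t * μ {x | ENNReal.ofReal t < MM μ h x}
      ≤ ENNReal.ofReal t * μ {x | ENNReal.ofReal (t / 2) < MM μ (E.indicator h) x} := by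
        gcongr
    _ = 2 * (ENNReal.ofReal (t / 2) * μ {x | ENNReal.ofReal (t / 2) < MM μ (E.indicator h) x}) := by
        rw [h2, mul_assoc]
    _ ≤ 2 * (2 * ∫⁻ x in E, h x ∂μ) := by gcongr
    _ = 4 * ∫⁻ x in E, h x ∂μ := by
        rw [← mul_assoc]; norm_num

end

end GStar954
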