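import Mathlib
import Pool.Agent.Helper954.GStar.Defs
import Pool.Agent.Helper954.GStar.A6

set_option autoImplicit false
open MeasureTheory Filter Set Topology
open scoped ENNReal NNReal

namespace GStar954

noncomputable section

theorem j7920_rp {x : ℝ≥0∞} (h0 : x ≠ 0) (h1 : x ≠ ∞) (y : ℝ) : x ^ y ≠ 0 ∧ x ^ y ≠ ∞ := by
  constructor
  · exact (ENNReal.rpow_pos (pos_iff_ne_zero.2 h0) h1).ne'
  · rw [Ne, ENNReal.rpow_eq_top_iff]
    rintro (⟨h, _⟩ | ⟨h, _⟩)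
    · exact h0 h
    · exact h1 h

theorem j7920_pos {a b : ℝ} (hab : a < b) {g : ℝ → ℝ≥0∞} (hg : Measurable g) (h0 : ∀ᵐ x, g x ≠ 0) :
    ∫⁻ x in Ioo a b, g x ≠ 0 := by
  intro h
  rw [lintegral_eq_zero_iff hg] at h
  have h1 : ∀ᵐ x ∂(volume.restrict (Ioo a b)), g x ≠ 0 := ae_restrict_of_ae h0
  have h2 : ∀ᵐ x ∂(volume.restrict (Ioo a b)), False := by
    filter_upwards [h, h1] with x hx hx'
    exact hx' hx
  rw [Filter.eventually_false_iff_eq_bot, ae_eq_bot, Measure.restrict_eq_zero, Real.volume_Ioo,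
    ENNReal.ofReal_eq_zero] at h2
  linarith

theorem j7920_wd {w h : ℝ → ℝ≥0∞} (hw : Measurable w) (hh : Measurable h) (a b : ℝ) :
    ∫⁻ y in Ioo a b, h y ∂(volume.withDensity w) = ∫⁻ y in Ioo a b, w y * h y := by
  rw [restrict_withDensity measurableSet_Ioo, lintegral_withDensity_eq_lintegral_mul _ hw hh]
  rfl

theorem j7920_wd' {w h : ℝ → ℝ≥0∞} (hw : Measurable w) (hh : Measurable h) :
    ∫⁻ y, h y ∂(volume.withDensity w) = ∫⁻ y, w y * h y := by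
  rw [lintegral_withDensity_eq_lintegral_mul _ hw hh]
  rfl

theorem muckenhoupt (p : ℝ) (hp : 1 < p) (A : ℝ≥0) : ∃ C : ℝ≥0, ∀ U : ℝ → ℝ≥0∞, Measurable U →
    (∀ᵐ x, U x ≠ 0 ∧ U x ≠ ∞) → Ap p A U → ∀ f : ℝ → ℝ≥0∞, Measurable f →
    ∫⁻ x, (MM volume f x) ^ p * U x ≤ C * ∫⁻ x, (f x) ^ p * U x := by
  have hp1 : 0 < p - 1 := by linarith
  set q : ℝ := p / (p - 1) with hq
  have hq1 : 1 < q := by rw [hq, lt_div_iff₀ hp1]; linarith
  have hpq : (p - 1) * q = p := by rw [hq]; field_simp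
  obtain ⟨Cp, hCp⟩ := strong_type p hp
  obtain ⟨Cq, hCq⟩ := strong_type q hq1
  refine ⟨A ^ q * Cq * Cp, ?_⟩
  intro U hU hU0 hAp f hf
  set σ : ℝ → ℝ≥0∞ := fun x => (U x) ^ (-1 / (p - 1)) with hσ
  have hσm : Measurable σ := hU.pow_const _
  have hσ0 : ∀ᵐ x, σ x ≠ 0 ∧ σ x ≠ ∞ := by
    filter_upwards [hU0] with x hx
    exact j7920_rp hx.1 hx.2 _
  set μU : Measure ℝ := volume.withDensity U with hμU
  set μσ : Measure ℝ := volume.withDensity σ with hμσ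
  set g : ℝ → ℝ≥0∞ := fun y => f y * (σ y)⁻¹ with hg
  have hgm : Measurable g := hf.mul hσm.inv
  set M : ℝ → ℝ≥0∞ := MM μσ g with hM
  have hMm : Measurable M := measurable_MM _ _
  set H : ℝ → ℝ≥0∞ := fun y => (M y) ^ (p - 1) * (U y)⁻¹ with hH
  have hHm : Measurable H := (hMm.pow_const _).mul hU.inv
  -- the pointwise claim
  have claim : ∀ x, (MM volume f x) ^ (p - 1) ≤ A * MM μU H x := by
    intro x
    have key : MM volume f x ≤ (A * MM μU H x) ^ ((p - 1)⁻¹) := by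
      refine iSup₂_le fun I hI => ?_
      obtain ⟨a, b⟩ := I
      have hab : a < b := lt_trans hI.1 hI.2
      rw [ENNReal.le_rpow_inv_iff hp1]
      show ((volume (Ioo a b))⁻¹ * ∫⁻ y in Ioo a b, f y) ^ (p - 1) ≤ A * MM μU H x
      have hl0 : volume (Ioo a b) ≠ 0 := by
        rw [Real.volume_Ioo, Ne, ENNReal.ofReal_eq_zero]; linarith
      have hl1 : volume (Ioo a b) ≠ ∞ := by
        rw [Real.volume_Ioo]; exact ENNReal.ofReal_ne_top
      have hAI := hAp a b hab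
      rw [← Real.volume_Ioo] at hAI
      have hu0 : ∫⁻ y in Ioo a b, U y ≠ 0 := j7920_pos hab hU (hU0.mono fun _ h => h.1)
      have hs0 : ∫⁻ y in Ioo a b, σ y ≠ 0 := j7920_pos hab hσm (hσ0.mono fun _ h => h.1)
      have hfin : (A : ℝ≥0∞) * (volume (Ioo a b)) ^ p ≠ ∞ :=
        ENNReal.mul_ne_top ENNReal.coe_ne_top (ENNReal.rpow_ne_top_of_nonneg (by linarith) hl1)
      have hs1 : ∫⁻ y in Ioo a b, σ y ≠ ∞ := by
        intro h
        have h' : ∫⁻ x in Ioo a b, (U x) ^ (-1 / (p - 1)) = ∞ := h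
        rw [h', ENNReal.top_rpow_of_pos hp1, ENNReal.mul_top hu0] at hAI
        exact hfin (top_le_iff.1 hAI)
      have hu1 : ∫⁻ y in Ioo a b, U y ≠ ∞ := by
        intro h
        rw [h, ENNReal.top_mul (j7920_rp hs0 hs1 _).1] at hAI
        exact hfin (top_le_iff.1 hAI)
      -- integral of `g`
      have hgI : ∫⁻ y in Ioo a b, g y ∂μσ = ∫⁻ y in Ioo a b, f y := by
        rw [hμσ, j7920_wd hσm hgm]
        refine lintegral_congr_ae ?_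
        filter_upwards [ae_restrict_of_ae hσ0] with y hy
        show σ y * (f y * (σ y)⁻¹) = f y
        rw [mul_comm (f y), ← mul_assoc, ENNReal.mul_inv_cancel hy.1 hy.2, one_mul]
      have hμσI : μσ (Ioo a b) = ∫⁻ y in Ioo a b, σ y := withDensity_apply _ measurableSet_Ioo
      have hμUI : μU (Ioo a b) = ∫⁻ y in Ioo a b, U y := withDensity_apply _ measurableSet_Ioo
      set s0 : ℝ≥0∞ := ∫⁻ y in Ioo a b, σ y with hs0d
      set u0 : ℝ≥0∞ := ∫⁻ y in Ioo a b, U y with hu0d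
      set l : ℝ≥0∞ := volume (Ioo a b) with hld
      set F : ℝ≥0∞ := ∫⁻ y in Ioo a b, f y with hFd
      have hAI' : u0 * s0 ^ (p - 1) ≤ A * l ^ p := hAI
      have hmM : ∀ y ∈ Ioo a b, s0⁻¹ * F ≤ M y := by
        intro y hy
        have h1 : (μσ (Ioo a b))⁻¹ * ∫⁻ z in Ioo a b, g z ∂μσ ≤ M y :=
          le_iSup₂_of_le (a, b) hy le_rfl
        rwa [hμσI, hgI] at h1
      have hFm : F = s0⁻¹ * F * s0 := by
        rw [mul_comm, ← mul_assoc, ENNReal.mul_inv_cancel hs0 hs1, one_mul]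
      -- the integral of `H`
      have hHI : ∫⁻ y in Ioo a b, H y ∂μU = ∫⁻ y in Ioo a b, (M y) ^ (p - 1) := by
        rw [hμU, j7920_wd hU hHm]
        refine lintegral_congr_ae ?_
        filter_upwards [ae_restrict_of_ae hU0] with y hy
        show U y * ((M y) ^ (p - 1) * (U y)⁻¹) = (M y) ^ (p - 1)
        rw [mul_comm ((M y) ^ (p - 1)), ← mul_assoc, ENNReal.mul_inv_cancel hy.1 hy.2, one_mul]
      have hlow : (s0⁻¹ * F) ^ (p - 1) * l ≤ ∫⁻ y in Ioo a b, H y ∂μU := by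
        rw [hHI, hld, ← setLIntegral_const]
        refine setLIntegral_mono' measurableSet_Ioo fun y hy => ?_
        exact ENNReal.rpow_le_rpow (hmM y hy) hp1.le
      have hMMx : u0⁻¹ * ∫⁻ y in Ioo a b, H y ∂μU ≤ MM μU H x := by
        have h1 : (μU (Ioo a b))⁻¹ * ∫⁻ z in Ioo a b, H z ∂μU ≤ MM μU H x :=
          le_iSup₂_of_le (a, b) hI le_rfl
        rwa [hμUI] at h1
      have hs0' : s0 ^ (p - 1) ≤ u0⁻¹ * (A * l ^ p) := by
        calc s0 ^ (p - 1) = u0⁻¹ * (u0 * s0 ^ (p - 1)) := by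
              rw [← mul_assoc, ENNReal.inv_mul_cancel hu0 hu1, one_mul]
          _ ≤ u0⁻¹ * (A * l ^ p) := mul_le_mul_right hAI' _
      have hlp : l ^ p * (l⁻¹) ^ (p - 1) = l := by
        rw [ENNReal.inv_rpow, ← ENNReal.rpow_neg, ← ENNReal.rpow_add _ _ hl0 hl1]
        have : p + -(p - 1) = 1 := by ring
        rw [this, ENNReal.rpow_one]
      calc (l⁻¹ * F) ^ (p - 1) = (l⁻¹) ^ (p - 1) * ((s0⁻¹ * F) ^ (p - 1) * s0 ^ (p - 1)) := by
            rw [← ENNReal.mul_rpow_of_nonneg _ _ hp1.le, ← hFm, ENNReal.mul_rpow_of_nonneg _ _ hp1.le]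
        _ ≤ (l⁻¹) ^ (p - 1) * ((s0⁻¹ * F) ^ (p - 1) * (u0⁻¹ * (A * l ^ p))) := by
            gcongr
        _ = A * (u0⁻¹ * ((s0⁻¹ * F) ^ (p - 1) * (l ^ p * (l⁻¹) ^ (p - 1)))) := by ring
        _ = A * (u0⁻¹ * ((s0⁻¹ * F) ^ (p - 1) * l)) := by rw [hlp]
        _ ≤ A * (u0⁻¹ * ∫⁻ y in Ioo a b, H y ∂μU) := by gcongr
        _ ≤ A * MM μU H x := by gcongr
    have h2 := ENNReal.rpow_le_rpow key hp1.le
    rw [← ENNReal.rpow_mul, inv_mul_cancel₀ hp1.ne', ENNReal.rpow_one] at h2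
    exact h2
  -- integration
  have hq0 : 0 < q := by linarith
  have e1 : ∫⁻ x, (MM volume f x) ^ p * U x ≤ ∫⁻ x, (A : ℝ≥0∞) ^ q * (U x * (MM μU H x) ^ q) := by
    refine lintegral_mono fun x => ?_
    have h1 : (MM volume f x) ^ p ≤ (A : ℝ≥0∞) ^ q * (MM μU H x) ^ q := by
      rw [← ENNReal.mul_rpow_of_nonneg _ _ hq0.le, ← hpq, ENNReal.rpow_mul]
      exact ENNReal.rpow_le_rpow (claim x) hq0.le
    calc (MM volume f x) ^ p * U x ≤ ((A : ℝ≥0∞) ^ q * (MM μU H x) ^ q) * U x := by gcongr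
      _ = (A : ℝ≥0∞) ^ q * (U x * (MM μU H x) ^ q) := by ring
  have hMUm : Measurable (fun x => (MM μU H x) ^ q) := (measurable_MM _ _).pow_const _
  have e2 : ∫⁻ x, (A : ℝ≥0∞) ^ q * (U x * (MM μU H x) ^ q) =
      (A : ℝ≥0∞) ^ q * ∫⁻ x, (MM μU H x) ^ q ∂μU := by
    have h1 : Measurable (fun x => U x * (MM μU H x) ^ q) := hU.mul hMUm
    rw [lintegral_const_mul _ h1, hμU, j7920_wd' hU hMUm]
  have e3 : ∫⁻ x, (MM μU H x) ^ q ∂μU ≤ Cq * ∫⁻ x, (H x) ^ q ∂μU := hCq μU H hHm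
  have e4 : ∫⁻ x, (H x) ^ q ∂μU = ∫⁻ x, (M x) ^ p ∂μσ := by
    rw [hμU, j7920_wd' hU (hHm.pow_const _), hμσ, j7920_wd' hσm (hMm.pow_const _)]
    refine lintegral_congr_ae ?_
    filter_upwards [hU0] with x hx
    show U x * ((M x) ^ (p - 1) * (U x)⁻¹) ^ q = (U x) ^ (-1 / (p - 1)) * (M x) ^ p
    rw [ENNReal.mul_rpow_of_nonneg _ _ hq0.le, ← ENNReal.rpow_mul, hpq, ENNReal.inv_rpow,
      ← ENNReal.rpow_neg]
    have h1 : U x * (U x) ^ (-q) = (U x) ^ (-1 / (p - 1)) := by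
      have h2 : (-1 / (p - 1) : ℝ) = 1 + (-q) := by
        rw [hq]; field_simp; ring
      rw [h2, ENNReal.rpow_add _ _ hx.1 hx.2, ENNReal.rpow_one]
    rw [← h1]
    ring
  have e5 : ∫⁻ x, (M x) ^ p ∂μσ ≤ Cp * ∫⁻ x, (g x) ^ p ∂μσ := hCp μσ g hgm
  have e6 : ∫⁻ x, (g x) ^ p ∂μσ = ∫⁻ x, (f x) ^ p * U x := by
    rw [hμσ, j7920_wd' hσm (hgm.pow_const _)]
    refine lintegral_congr_ae ?_
    filter_upwards [hU0, hσ0] with x hx hx'
    show σ x * (f x * (σ x)⁻¹) ^ p = (f x) ^ p * U x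
    rw [ENNReal.mul_rpow_of_nonneg _ _ (by linarith), ENNReal.inv_rpow, ← ENNReal.rpow_neg]
    have h1 : σ x * (σ x) ^ (-p) = U x := by
      have h2 : σ x * (σ x) ^ (-p) = (σ x) ^ (1 + -p) := by
        rw [ENNReal.rpow_add _ _ hx'.1 hx'.2, ENNReal.rpow_one]
      rw [h2]
      show ((U x) ^ (-1 / (p - 1))) ^ (1 + -p) = U x
      rw [← ENNReal.rpow_mul]
      have h3 : -1 / (p - 1) * (1 + -p) = 1 := by
        field_simp; ring
      rw [h3, ENNReal.rpow_one]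
    rw [← h1]
    ring
  calc ∫⁻ x, (MM volume f x) ^ p * U x ≤ ∫⁻ x, (A : ℝ≥0∞) ^ q * (U x * (MM μU H x) ^ q) := e1
    _ = (A : ℝ≥0∞) ^ q * ∫⁻ x, (MM μU H x) ^ q ∂μU := e2
    _ ≤ (A : ℝ≥0∞) ^ q * (Cq * ∫⁻ x, (H x) ^ q ∂μU) := by gcongr
    _ = (A : ℝ≥0∞) ^ q * (Cq * ∫⁻ x, (M x) ^ p ∂μσ) := by rw [e4]
    _ ≤ (A : ℝ≥0∞) ^ q * (Cq * (Cp * ∫⁻ x, (g x) ^ p ∂μσ)) := by gcongr
    _ = ((A ^ q * Cq * Cp : ℝ≥0) : ℝ≥0∞) * ∫⁻ x, (f x) ^ p * U x := by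
        rw [e6]
        push_cast
        rw [ENNReal.coe_rpow_of_nonneg _ hq0.le]
        ring

end

end GStar954
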