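import Mathlib
import Pool.Agent.Helper954.GStar.Defs
import Pool.Agent.Helper954.GStar.A7

set_option autoImplicit false
open MeasureTheory Filter Set Topology
open scoped ENNReal NNReal

namespace GStar954

noncomputable section

theorem a10_mm (z y : ℝ) (hy : 0 < y) (x : ℝ) :
    ENNReal.ofReal (y / (|x - z| + y)) ≤
      MM volume ((Ioo (z - y) (z + y)).indicator (fun _ => (1:ℝ≥0∞))) x := by
  unfold MM
  have hx : x ∈ Ioo (min z x - y) (max z x + y) :=
    ⟨by have := min_le_right z x; linarith, by have := le_max_right z x; linarith⟩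
  refine le_trans ?_ (le_iSup₂ (f := fun (I : ℝ × ℝ) (_ : x ∈ Ioo I.1 I.2) =>
    (volume (Ioo I.1 I.2))⁻¹ * ∫⁻ u in Ioo I.1 I.2,
      (Ioo (z - y) (z + y)).indicator (fun _ => (1:ℝ≥0∞)) u) (min z x - y, max z x + y) hx)
  simp only
  rw [lintegral_indicator measurableSet_Ioo, Measure.restrict_restrict measurableSet_Ioo]
  have h1 : Ioo (z - y) (z + y) ∩ Ioo (min z x - y) (max z x + y) = Ioo (z - y) (z + y) := by
    apply inter_eq_self_of_subset_left
    apply Ioo_subset_Ioo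
    · have := min_le_left z x
      linarith
    · have := le_max_left z x
      linarith
  rw [h1, setLIntegral_one, Real.volume_Ioo, Real.volume_Ioo]
  have h2 : max z x + y - (min z x - y) = |x - z| + 2 * y := by
    have := max_sub_min_eq_abs z x
    linarith
  have h3 : z + y - (z - y) = 2 * y := by ring
  have ha := abs_nonneg (x - z)
  rw [h2, h3, ← ENNReal.ofReal_inv_of_pos (by positivity), ← ENNReal.ofReal_mul (by positivity)]
  apply ENNReal.ofReal_le_ofReal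
  rw [inv_mul_eq_div, div_le_div_iff₀ (by positivity) (by positivity)]
  nlinarith [mul_nonneg ha hy.le]

theorem a10_K (t y : ℝ) (hy : 0 < y) : y * K t y ≤ (y / (|t| + y)) ^ 2 := by
  unfold K
  have ht := abs_nonneg t
  have h1 : (|t| + y)^2 ≤ 2 * (t^2 + y^2) := by
    nlinarith [sq_abs t, sq_nonneg (|t| - y)]
  have h2 : (2:ℝ) ≤ Real.pi := Real.two_le_pi
  have h3 : 0 < t^2 + y^2 := by positivity
  rw [div_pow, ← mul_div_assoc, div_le_div_iff₀ (by positivity) (by positivity)]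
  have h4 : (|t| + y)^2 ≤ Real.pi * (t^2 + y^2) := h1.trans (mul_le_mul_of_nonneg_right h2 h3.le)
  calc y * y * (|t| + y)^2 ≤ y * y * (Real.pi * (t^2 + y^2)) :=
        mul_le_mul_of_nonneg_left h4 (by positivity)
    _ = y^2 * (Real.pi * (t^2 + y^2)) := by ring

theorem a10_half (C : ℝ≥0) (U : ℝ → ℝ≥0∞)
    (hC : ∀ f : ℝ → ℝ≥0∞, Measurable f →
      ∫⁻ x, (MM volume f x) ^ (2:ℝ) * U x ≤ C * ∫⁻ x, (f x) ^ (2:ℝ) * U x)
    (z y : ℝ) (hy : 0 < y) :
    ENNReal.ofReal y * ∫⁻ x, ENNReal.ofReal (K (z - x) y) * U x ≤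
      C * ∫⁻ x in Ioo (z - y) (z + y), U x := by
  have h1 := hC ((Ioo (z - y) (z + y)).indicator (fun _ => (1:ℝ≥0∞)))
    (measurable_const.indicator measurableSet_Ioo)
  have h2 : (∫⁻ x, ((Ioo (z - y) (z + y)).indicator (fun _ => (1:ℝ≥0∞)) x) ^ (2:ℝ) * U x) =
      ∫⁻ x in Ioo (z - y) (z + y), U x := by
    rw [← lintegral_indicator measurableSet_Ioo]
    apply lintegral_congr
    intro x
    by_cases hx : x ∈ Ioo (z - y) (z + y)
    · rw [indicator_of_mem hx, indicator_of_mem hx, ENNReal.one_rpow, one_mul]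
    · rw [indicator_of_notMem hx, indicator_of_notMem hx, ENNReal.zero_rpow_of_pos (by norm_num), zero_mul]
  rw [h2] at h1
  refine le_trans ?_ h1
  rw [← lintegral_const_mul' _ _ ENNReal.ofReal_ne_top]
  apply lintegral_mono
  intro x
  simp only
  rw [← mul_assoc]
  gcongr
  refine le_trans ?_ (ENNReal.rpow_le_rpow (a10_mm z y hy x) (by norm_num : (0:ℝ) ≤ 2))
  rw [← ENNReal.ofReal_mul hy.le, ENNReal.ofReal_rpow_of_nonneg (by positivity) (by norm_num)]
  apply ENNReal.ofReal_le_ofReal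
  have h3 := a10_K (z - x) y hy
  rw [abs_sub_comm] at h3
  rw [Real.rpow_two]
  exact h3

theorem poisson_A2 (A : ℝ≥0) : ∃ Q : ℝ≥0, ∀ w : ℝ → ℝ≥0∞, Measurable w →
    (∀ᵐ x, w x ≠ 0 ∧ w x ≠ ∞) → Ap 2 A w → ∀ z y : ℝ, 0 < y →
    (∫⁻ x, ENNReal.ofReal (K (z - x) y) * w x) *
      (∫⁻ x, ENNReal.ofReal (K (z - x) y) * (w x)⁻¹) ≤ Q := by
  obtain ⟨C, hC⟩ := muckenhoupt 2 (by norm_num) A
  refine ⟨4 * C^2 * A, ?_⟩
  intro w hw hw0 hAp z y hy
  have hAp1 : ∀ a b : ℝ, a < b → (∫⁻ x in Ioo a b, w x) * (∫⁻ x in Ioo a b, (w x)⁻¹) ≤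
      A * ENNReal.ofReal (b - a) ^ (2:ℝ) := by
    intro a b hab
    have h := hAp a b hab
    have e1 : (-1 / ((2:ℝ) - 1)) = -1 := by norm_num
    have e2 : ((2:ℝ) - 1) = 1 := by norm_num
    rw [e1, e2, ENNReal.rpow_one] at h
    simp only [ENNReal.rpow_neg_one] at h
    exact h
  have hAp' : Ap 2 A (fun x => (w x)⁻¹) := by
    intro a b hab
    have e1 : (-1 / ((2:ℝ) - 1)) = -1 := by norm_num
    have e2 : ((2:ℝ) - 1) = 1 := by norm_num
    rw [e1, e2, ENNReal.rpow_one]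
    simp only [ENNReal.rpow_neg_one, inv_inv]
    rw [mul_comm]
    exact hAp1 a b hab
  have hw0' : ∀ᵐ x, (w x)⁻¹ ≠ 0 ∧ (w x)⁻¹ ≠ ∞ := by
    filter_upwards [hw0] with x hx
    exact ⟨ENNReal.inv_ne_zero.mpr hx.2, ENNReal.inv_ne_top.mpr hx.1⟩
  have h1 := a10_half C w (hC w hw hw0 hAp) z y hy
  have h2 := a10_half C (fun x => (w x)⁻¹) (hC _ hw.inv hw0' hAp') z y hy
  set L := ∫⁻ x, ENNReal.ofReal (K (z - x) y) * w x
  set L' := ∫⁻ x, ENNReal.ofReal (K (z - x) y) * (w x)⁻¹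
  have h3 := hAp1 (z - y) (z + y) (by linarith)
  have e3 : z + y - (z - y) = 2 * y := by ring
  rw [e3, ENNReal.ofReal_mul (by norm_num), ENNReal.rpow_two] at h3
  have h4 : ENNReal.ofReal y ^ 2 * (L * L') ≤ ENNReal.ofReal y ^ 2 * (4 * C^2 * A) := by
    calc ENNReal.ofReal y ^ 2 * (L * L') = (ENNReal.ofReal y * L) * (ENNReal.ofReal y * L') := by ring
      _ ≤ (C * ∫⁻ x in Ioo (z - y) (z + y), w x) * (C * ∫⁻ x in Ioo (z - y) (z + y), (w x)⁻¹) :=
          mul_le_mul' h1 h2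
      _ = C^2 * ((∫⁻ x in Ioo (z - y) (z + y), w x) * (∫⁻ x in Ioo (z - y) (z + y), (w x)⁻¹)) := by
          ring
      _ ≤ C^2 * (A * (ENNReal.ofReal 2 * ENNReal.ofReal y)^2) := by gcongr
      _ = ENNReal.ofReal y ^ 2 * (4 * C^2 * A) := by
          rw [ENNReal.ofReal_ofNat]
          ring
  have h5 : ENNReal.ofReal y ^ 2 ≠ 0 := by
    apply pow_ne_zero
    rw [ne_eq, ENNReal.ofReal_eq_zero, not_le]
    exact hy
  have h6 : ENNReal.ofReal y ^ 2 ≠ ∞ := ENNReal.pow_ne_top ENNReal.ofReal_ne_top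
  have h7 := (ENNReal.mul_le_mul_iff_right h5 h6).mp h4
  refine h7.trans (le_of_eq ?_)
  push_cast
  rfl

end

end GStar954
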