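import Mathlib
import Pool.Agent.Helper954.GStar.Defs
import Pool.Agent.Helper954.GStar.A6

set_option autoImplicit false
open MeasureTheory Filter Set Topology
open scoped ENNReal NNReal

namespace GStar954

noncomputable section

theorem halves_sum (n : ℕ) :
    ∑ k ∈ Finset.range n, (2⁻¹ : ℝ≥0∞) ^ (k + 1) + (2⁻¹ : ℝ≥0∞) ^ n = 1 := by
  induction n with
  | zero => simp
  | succ n ih =>
    rw [Finset.sum_range_succ, add_assoc]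
    have h : (2⁻¹ : ℝ≥0∞) ^ (n + 1) + (2⁻¹ : ℝ≥0∞) ^ (n + 1) = (2⁻¹ : ℝ≥0∞) ^ n := by
      rw [pow_succ, ← mul_add, ENNReal.inv_two_add_inv_two, mul_one]
    rw [h, ih]

theorem convex_fin (p : ℝ) (hp : 1 ≤ p) (a : ℕ → ℝ≥0∞) (n : ℕ) :
    (∑ k ∈ Finset.range n, (2⁻¹ : ℝ≥0∞) ^ (k + 1) * a k) ^ p ≤
      ∑ k ∈ Finset.range n, (2⁻¹ : ℝ≥0∞) ^ (k + 1) * a k ^ p := by
  have h := ENNReal.rpow_arith_mean_le_arith_mean_rpow (Finset.range (n + 1))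
    (fun k => if k < n then (2⁻¹ : ℝ≥0∞) ^ (k + 1) else (2⁻¹ : ℝ≥0∞) ^ n)
    (fun k => if k < n then a k else 0) (by
      rw [Finset.sum_range_succ, if_neg (lt_irrefl n)]
      rw [Finset.sum_congr rfl (fun k hk => if_pos (Finset.mem_range.1 hk))]
      exact halves_sum n) hp
  rw [Finset.sum_range_succ, Finset.sum_range_succ] at h
  simp only [lt_irrefl, if_false, mul_zero, add_zero] at h
  rw [ENNReal.zero_rpow_of_pos (by linarith), mul_zero, add_zero] at h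
  have e1 : ∑ x ∈ Finset.range n, (if x < n then (2⁻¹ : ℝ≥0∞) ^ (x + 1) else (2⁻¹ : ℝ≥0∞) ^ n) *
      (if x < n then a x else 0) = ∑ k ∈ Finset.range n, (2⁻¹ : ℝ≥0∞) ^ (k + 1) * a k := by
    apply Finset.sum_congr rfl
    intro k hk
    rw [if_pos (Finset.mem_range.1 hk), if_pos (Finset.mem_range.1 hk)]
  have e2 : ∑ x ∈ Finset.range n, (if x < n then (2⁻¹ : ℝ≥0∞) ^ (x + 1) else (2⁻¹ : ℝ≥0∞) ^ n) *
      (if x < n then a x else 0) ^ p =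
      ∑ k ∈ Finset.range n, (2⁻¹ : ℝ≥0∞) ^ (k + 1) * a k ^ p := by
    apply Finset.sum_congr rfl
    intro k hk
    rw [if_pos (Finset.mem_range.1 hk), if_pos (Finset.mem_range.1 hk)]
  rw [e1, e2] at h
  exact h

theorem convex_tsum (p : ℝ) (hp : 1 ≤ p) (a : ℕ → ℝ≥0∞) :
    (∑' k, (2⁻¹ : ℝ≥0∞) ^ (k + 1) * a k) ^ p ≤
      ∑' k, (2⁻¹ : ℝ≥0∞) ^ (k + 1) * a k ^ p := by
  have h1 := (ENNReal.continuous_rpow_const (y := p)).continuousAt.tendsto.comp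
    (ENNReal.tendsto_nat_tsum (fun k => (2⁻¹ : ℝ≥0∞) ^ (k + 1) * a k))
  have h2 := ENNReal.tendsto_nat_tsum (fun k => (2⁻¹ : ℝ≥0∞) ^ (k + 1) * a k ^ p)
  exact le_of_tendsto_of_tendsto' h1 h2 fun n => convex_fin p hp a n

theorem halves_tsum : ∑' k : ℕ, (2⁻¹ : ℝ≥0∞) ^ (k + 1) = 1 := by
  rw [ENNReal.tsum_geometric_add_one, ENNReal.one_sub_inv_two, inv_inv]
  exact ENNReal.inv_mul_cancel (by norm_num) (by norm_num)

theorem MM_tsum (c : ℝ≥0∞) (F : ℕ → ℝ → ℝ≥0∞) (hF : ∀ k, Measurable (F k)) (x : ℝ) :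
    MM volume (fun y => ∑' k, c ^ k * F k y) x ≤ ∑' k, c ^ k * MM volume (F k) x := by
  unfold MM
  refine iSup₂_le fun I hI => ?_
  have h1 : ∫⁻ y in Ioo I.1 I.2, ∑' k, c ^ k * F k y = ∑' k, c ^ k * ∫⁻ y in Ioo I.1 I.2, F k y := by
    rw [lintegral_tsum (fun k => ((hF k).const_mul _).aemeasurable)]
    congr 1
    funext k
    exact lintegral_const_mul _ (hF k)
  rw [h1, ← ENNReal.tsum_mul_left]
  apply ENNReal.tsum_le_tsum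
  intro k
  rw [← mul_assoc, mul_comm _ (c ^ k), mul_assoc]
  gcongr
  exact le_iSup₂ (f := fun (I : ℝ × ℝ) (_ : x ∈ Ioo I.1 I.2) =>
    (volume (Ioo I.1 I.2))⁻¹ * ∫⁻ y in Ioo I.1 I.2, F k y) I hI

theorem rdf (p : ℝ) (hp : 1 < p) (C : ℝ≥0) : ∃ L : ℝ≥0, ∀ U : ℝ → ℝ≥0∞, Measurable U →
    (∀ f : ℝ → ℝ≥0∞, Measurable f →
      ∫⁻ x, (MM volume f x) ^ p * U x ≤ C * ∫⁻ x, (f x) ^ p * U x) →
    ∀ f : ℝ → ℝ≥0∞, Measurable f → ∃ g : ℝ → ℝ≥0∞, Measurable g ∧ (∀ x, f x ≤ g x) ∧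
      (∀ x, MM volume g x ≤ L * g x) ∧ ∫⁻ x, (g x) ^ p * U x ≤ L * ∫⁻ x, (f x) ^ p * U x := by
  have hp0 : 0 < p := by linarith
  let C0 : ℝ≥0 := max C 1
  let κ0 : ℝ≥0 := C0 ^ (1 / p)
  have hC0 : 1 ≤ C0 := le_max_right _ _
  have hκ1 : 1 ≤ κ0 := NNReal.one_le_rpow hC0 (by positivity)
  have hκp : (κ0 : ℝ≥0∞) ^ p = C0 := by
    rw [← ENNReal.coe_rpow_of_nonneg _ hp0.le]
    congr 1
    show (C0 ^ (1 / p)) ^ p = C0
    rw [← NNReal.rpow_mul, one_div, inv_mul_cancel₀ hp0.ne', NNReal.rpow_one]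
  refine ⟨max ((2 : ℝ≥0) ^ p) (2 * κ0), ?_⟩
  intro U hU hMM f hf
  set c : ℝ≥0∞ := (2 * (κ0 : ℝ≥0∞))⁻¹ with hc
  have h2κ0 : (2 * (κ0 : ℝ≥0∞)) ≠ 0 := by
    have : (κ0 : ℝ≥0∞) ≠ 0 := by
      rw [ne_eq, ENNReal.coe_eq_zero]
      exact (lt_of_lt_of_le one_pos hκ1).ne'
    simp [this]
  have h2κt : (2 * (κ0 : ℝ≥0∞)) ≠ ∞ := ENNReal.mul_ne_top (by norm_num) ENNReal.coe_ne_top
  have hcc : 2 * (κ0 : ℝ≥0∞) * c = 1 := ENNReal.mul_inv_cancel h2κ0 h2κt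
  let F : ℕ → ℝ → ℝ≥0∞ := fun k => (MM volume)^[k] f
  have hF0 : F 0 = f := rfl
  have hFs : ∀ k, F (k + 1) = MM volume (F k) := fun k => Function.iterate_succ_apply' _ _ _
  have hFm : ∀ k, Measurable (F k) := by
    intro k
    induction k with
    | zero => exact hf
    | succ k ih => rw [hFs]; exact measurable_MM volume (F k)
  let g : ℝ → ℝ≥0∞ := fun x => ∑' k, c ^ k * F k x
  have hgm : Measurable g := Measurable.tsum fun k => (hFm k).const_mul _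
  have hJ : ∀ k, ∫⁻ x, (F k x) ^ p * U x ≤ (C0 : ℝ≥0∞) ^ k * ∫⁻ x, (f x) ^ p * U x := by
    intro k
    induction k with
    | zero => rw [pow_zero, one_mul, hF0]
    | succ k ih =>
      have h1 := hMM (F k) (hFm k)
      rw [← hFs] at h1
      have hCC : (C : ℝ≥0∞) ≤ C0 := ENNReal.coe_le_coe.2 (le_max_left _ _)
      calc ∫⁻ x, (F (k + 1) x) ^ p * U x ≤ C * ∫⁻ x, (F k x) ^ p * U x := h1
        _ ≤ C0 * ((C0 : ℝ≥0∞) ^ k * ∫⁻ x, (f x) ^ p * U x) := by gcongr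
        _ = (C0 : ℝ≥0∞) ^ (k + 1) * ∫⁻ x, (f x) ^ p * U x := by rw [pow_succ']; ring
  refine ⟨g, hgm, ?_, ?_, ?_⟩
  · intro x
    have h := ENNReal.le_tsum (f := fun k => c ^ k * F k x) 0
    simpa [hF0] using h
  · intro x
    have h1 := MM_tsum c F hFm x
    have h2 : ∑' k, c ^ k * MM volume (F k) x = ∑' k, (2 * (κ0 : ℝ≥0∞)) * (c ^ (k + 1) * F (k + 1) x) := by
      congr 1
      funext k
      rw [hFs, pow_succ']
      calc c ^ k * MM volume (F k) x = (2 * (κ0 : ℝ≥0∞) * c) * (c ^ k * MM volume (F k) x) := by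
            rw [hcc, one_mul]
        _ = _ := by ring
    rw [h2, ENNReal.tsum_mul_left] at h1
    have h3 : ∑' k, c ^ (k + 1) * F (k + 1) x ≤ g x :=
      ENNReal.tsum_comp_le_tsum_of_injective (add_left_injective 1) (fun k => c ^ k * F k x)
    have h4 : (2 * (κ0 : ℝ≥0∞)) ≤ ((max ((2 : ℝ≥0) ^ p) (2 * κ0) : ℝ≥0) : ℝ≥0∞) := by
      have : ((2 * κ0 : ℝ≥0) : ℝ≥0∞) ≤ ((max ((2 : ℝ≥0) ^ p) (2 * κ0) : ℝ≥0) : ℝ≥0∞) :=
        ENNReal.coe_le_coe.2 (le_max_right _ _)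
      simpa using this
    exact h1.trans (mul_le_mul' h4 h3)
  · have hgp : ∀ x, (g x) ^ p ≤ ∑' k, (2⁻¹ : ℝ≥0∞) ^ (k + 1) *
        ((2 : ℝ≥0∞) ^ p * ((C0 : ℝ≥0∞)⁻¹ ^ k * (F k x) ^ p)) := by
      intro x
      have h1 : g x = ∑' k, (2⁻¹ : ℝ≥0∞) ^ (k + 1) * (2 * ((κ0 : ℝ≥0∞)⁻¹ ^ k * F k x)) := by
        show ∑' k, c ^ k * F k x = _
        congr 1
        funext k
        rw [hc, ENNReal.mul_inv (Or.inl (by norm_num)) (Or.inl (by norm_num)), mul_pow, pow_succ]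
        have h2 : (2⁻¹ : ℝ≥0∞) * 2 = 1 := ENNReal.inv_mul_cancel (by norm_num) (by norm_num)
        calc (2⁻¹ : ℝ≥0∞) ^ k * (κ0 : ℝ≥0∞)⁻¹ ^ k * F k x
            = (2⁻¹ : ℝ≥0∞) ^ k * (2⁻¹ * 2) * ((κ0 : ℝ≥0∞)⁻¹ ^ k * F k x) := by
              rw [h2]; ring
          _ = _ := by ring
      rw [h1]
      refine (convex_tsum p hp.le _).trans (le_of_eq ?_)
      congr 1
      funext k
      congr 1
      rw [ENNReal.mul_rpow_of_nonneg _ _ hp0.le, ENNReal.mul_rpow_of_nonneg _ _ hp0.le]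
      congr 2
      rw [← ENNReal.rpow_natCast, ← ENNReal.rpow_mul, mul_comm, ENNReal.rpow_mul,
        ENNReal.inv_rpow, hκp, ENNReal.rpow_natCast]
    have hmeas : ∀ k, Measurable fun x => (2⁻¹ : ℝ≥0∞) ^ (k + 1) *
        ((2 : ℝ≥0∞) ^ p * ((C0 : ℝ≥0∞)⁻¹ ^ k * (F k x) ^ p)) * U x := by
      intro k
      exact (((((hFm k).pow_const p).const_mul _).const_mul _).const_mul _).mul hU
    calc ∫⁻ x, (g x) ^ p * U x ≤ ∫⁻ x, ∑' k, (2⁻¹ : ℝ≥0∞) ^ (k + 1) *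
          ((2 : ℝ≥0∞) ^ p * ((C0 : ℝ≥0∞)⁻¹ ^ k * (F k x) ^ p)) * U x := by
          apply lintegral_mono
          intro x
          show (g x) ^ p * U x ≤ ∑' k, (2⁻¹ : ℝ≥0∞) ^ (k + 1) *
            ((2 : ℝ≥0∞) ^ p * ((C0 : ℝ≥0∞)⁻¹ ^ k * (F k x) ^ p)) * U x
          rw [ENNReal.tsum_mul_right]
          gcongr
          exact hgp x
      _ = ∑' k, ∫⁻ x, (2⁻¹ : ℝ≥0∞) ^ (k + 1) *
          ((2 : ℝ≥0∞) ^ p * ((C0 : ℝ≥0∞)⁻¹ ^ k * (F k x) ^ p)) * U x :=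
          lintegral_tsum fun k => (hmeas k).aemeasurable
      _ ≤ ∑' k : ℕ, (2⁻¹ : ℝ≥0∞) ^ (k + 1) * ((2 : ℝ≥0∞) ^ p * ∫⁻ x, (f x) ^ p * U x) := by
          apply ENNReal.tsum_le_tsum
          intro k
          have e1 : ∀ x, (2⁻¹ : ℝ≥0∞) ^ (k + 1) *
              ((2 : ℝ≥0∞) ^ p * ((C0 : ℝ≥0∞)⁻¹ ^ k * (F k x) ^ p)) * U x =
              ((2⁻¹ : ℝ≥0∞) ^ (k + 1) * ((2 : ℝ≥0∞) ^ p * (C0 : ℝ≥0∞)⁻¹ ^ k)) *
                ((F k x) ^ p * U x) := by intro x; ring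
          simp_rw [e1]
          have hmk : Measurable fun x => (F k x) ^ p * U x := ((hFm k).pow_const p).mul hU
          rw [lintegral_const_mul _ hmk]
          have hC00 : (C0 : ℝ≥0∞) ≠ 0 := by
            rw [ne_eq, ENNReal.coe_eq_zero]
            exact (lt_of_lt_of_le one_pos hC0).ne'
          have e2 : (C0 : ℝ≥0∞)⁻¹ ^ k * (C0 : ℝ≥0∞) ^ k = 1 := by
            rw [← mul_pow, ENNReal.inv_mul_cancel hC00 ENNReal.coe_ne_top, one_pow]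
          calc ((2⁻¹ : ℝ≥0∞) ^ (k + 1) * ((2 : ℝ≥0∞) ^ p * (C0 : ℝ≥0∞)⁻¹ ^ k)) *
                ∫⁻ x, (F k x) ^ p * U x
              ≤ ((2⁻¹ : ℝ≥0∞) ^ (k + 1) * ((2 : ℝ≥0∞) ^ p * (C0 : ℝ≥0∞)⁻¹ ^ k)) *
                ((C0 : ℝ≥0∞) ^ k * ∫⁻ x, (f x) ^ p * U x) := by
                gcongr
                exact hJ k
            _ = (2⁻¹ : ℝ≥0∞) ^ (k + 1) * ((2 : ℝ≥0∞) ^ p *
                (((C0 : ℝ≥0∞)⁻¹ ^ k * (C0 : ℝ≥0∞) ^ k) * ∫⁻ x, (f x) ^ p * U x)) := by ring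
            _ = _ := by rw [e2, one_mul]
      _ = (2 : ℝ≥0∞) ^ p * ∫⁻ x, (f x) ^ p * U x := by
          rw [ENNReal.tsum_mul_right, halves_tsum, one_mul]
      _ ≤ ((max ((2 : ℝ≥0) ^ p) (2 * κ0) : ℝ≥0) : ℝ≥0∞) * ∫⁻ x, (f x) ^ p * U x := by
          gcongr
          have : (((2 : ℝ≥0) ^ p : ℝ≥0) : ℝ≥0∞) ≤ ((max ((2 : ℝ≥0) ^ p) (2 * κ0) : ℝ≥0) : ℝ≥0∞) :=
            ENNReal.coe_le_coe.2 (le_max_left _ _)
          rw [ENNReal.coe_rpow_of_nonneg _ hp0.le] at this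
          simpa using this

end

end GStar954
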