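import Mathlib
import Pool.Agent.Helper954.GStar.Defs

set_option autoImplicit false
open MeasureTheory Filter Set Topology
open scoped ENNReal NNReal

namespace GStar954

noncomputable section

theorem A2_of_rdf (p : ℝ) (hp1 : 1 < p) (hp2 : p < 2) (A L : ℝ≥0) :
    ∃ A' : ℝ≥0, ∀ U g : ℝ → ℝ≥0∞, Measurable U → Measurable g →
      (∀ᵐ x, U x ≠ 0 ∧ U x ≠ ∞) → Ap p A U → (∀ x, MM volume g x ≤ L * g x) →
      (∀ᵐ x, g x ≠ 0 ∧ g x ≠ ∞) → Ap 2 A' (fun x => U x * (g x) ^ (p - 2)) := by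
  refine ⟨L ^ (2 - p) * A, ?_⟩
  intro U g hU hg hU0 hAp hM hg0 a b hab
  set r : ℝ := 2 - p with hr
  have hrpos : 0 < r := by rw [hr]; linarith
  set ℓ : ℝ≥0∞ := ENNReal.ofReal (b - a) with hℓ
  have hℓ0 : ℓ ≠ 0 := by rw [hℓ]; simp [hab]
  have hℓt : ℓ ≠ ∞ := ENNReal.ofReal_ne_top
  have hvol : volume (Ioo a b) = ℓ := Real.volume_Ioo
  set G : ℝ≥0∞ := ∫⁻ y in Ioo a b, g y with hG
  set m : ℝ≥0∞ := ℓ⁻¹ * G with hm
  have hGm : G = ℓ * m := by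
    rw [hm, ← mul_assoc, ENNReal.mul_inv_cancel hℓ0 hℓt, one_mul]
  have hmle : ∀ x ∈ Ioo a b, m ≤ L * g x := by
    intro x hx
    refine le_trans ?_ (hM x)
    have h1 : (volume (Ioo a b))⁻¹ * ∫⁻ y in Ioo a b, g y ≤ MM volume g x := by
      unfold MM
      exact le_iSup₂_of_le (a, b) hx le_rfl
    rwa [hvol] at h1
  -- a good point
  have hIpos : volume (Ioo a b) ≠ 0 := by rw [hvol]; exact hℓ0
  have hg0' : ∀ᵐ x ∂(volume.restrict (Ioo a b)), g x ≠ 0 ∧ g x ≠ ∞ := ae_restrict_of_ae hg0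
  have hU0' : ∀ᵐ x ∂(volume.restrict (Ioo a b)), U x ≠ 0 ∧ U x ≠ ∞ := ae_restrict_of_ae hU0
  have hmem : ∀ᵐ x ∂(volume.restrict (Ioo a b)), x ∈ Ioo a b := ae_restrict_mem measurableSet_Ioo
  have hne : (volume.restrict (Ioo a b)) ≠ 0 := by
    intro h0
    apply hIpos
    have : (volume.restrict (Ioo a b)) univ = 0 := by rw [h0]; rfl
    simpa using this
  have hNB : (ae (volume.restrict (Ioo a b))).NeBot := ae_neBot.2 hne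
  obtain ⟨x0, hx0, hx0I⟩ := (hg0'.and hmem).exists
  have hmt : m ≠ ∞ := by
    have h1 := hmle x0 hx0I
    exact ne_top_of_le_ne_top (ENNReal.mul_ne_top ENNReal.coe_ne_top hx0.2) h1
  have hG0 : G ≠ 0 := by
    intro h0
    rw [hG, lintegral_eq_zero_iff hg] at h0
    obtain ⟨x1, hx1, hx1'⟩ := (hg0'.and h0).exists
    exact hx1.1 hx1'
  have hm0 : m ≠ 0 := by
    intro h0
    rw [h0, mul_zero] at hGm
    exact hG0 hGm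
  have hL0 : (L : ℝ≥0∞) ≠ 0 := by
    intro h0
    have h1 := hmle x0 hx0I
    rw [h0, zero_mul] at h1
    exact hm0 (le_antisymm h1 bot_le)
  have hLt : (L : ℝ≥0∞) ≠ ∞ := ENNReal.coe_ne_top
  -- notation
  set S : ℝ≥0∞ := ∫⁻ x in Ioo a b, U x with hS
  set V : ℝ≥0∞ := ∫⁻ x in Ioo a b, (U x) ^ (-1 / (p - 1)) with hV
  have hApI : S * V ^ (p - 1) ≤ A * ℓ ^ p := hAp a b hab
  have hmr0 : m ^ r ≠ 0 := by
    rw [Ne, ENNReal.rpow_eq_zero_iff]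
    push Not
    exact ⟨fun h => absurd h hm0, fun h => absurd h hmt⟩
  have hmrt : m ^ r ≠ ∞ := ENNReal.rpow_ne_top_of_nonneg hrpos.le hmt
  have hLr0 : (L : ℝ≥0∞) ^ r ≠ 0 := by
    rw [Ne, ENNReal.rpow_eq_zero_iff]
    push Not
    exact ⟨fun h => absurd h hL0, fun h => absurd h hLt⟩
  have hLrt : (L : ℝ≥0∞) ^ r ≠ ∞ := ENNReal.rpow_ne_top_of_nonneg hrpos.le hLt
  have hpr : p - 2 = -r := by rw [hr]; ring
  have hgp : ∀ x, (g x) ^ (p - 2) = ((g x) ^ r)⁻¹ := by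
    intro x; rw [hpr, ENNReal.rpow_neg]
  -- first factor
  have h1 : ∫⁻ x in Ioo a b, U x * (g x) ^ (p - 2) ≤ S * ((L : ℝ≥0∞) ^ r * (m ^ r)⁻¹) := by
    have hc : (L : ℝ≥0∞) ^ r * (m ^ r)⁻¹ ≠ ∞ :=
      ENNReal.mul_ne_top hLrt (ENNReal.inv_ne_top.2 hmr0)
    rw [hS, ← lintegral_mul_const' _ _ hc]
    refine lintegral_mono_ae ?_
    filter_upwards [hmem] with x hx
    rw [hgp]
    have h2 : m ^ r ≤ (L : ℝ≥0∞) ^ r * (g x) ^ r := by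
      rw [← ENNReal.mul_rpow_of_nonneg _ _ hrpos.le]
      exact ENNReal.rpow_le_rpow (hmle x hx) hrpos.le
    have h3 : ((g x) ^ r)⁻¹ ≤ (L : ℝ≥0∞) ^ r * (m ^ r)⁻¹ := by
      have h4 : m ^ r * ((L : ℝ≥0∞) ^ r)⁻¹ ≤ (g x) ^ r := by
        calc m ^ r * ((L : ℝ≥0∞) ^ r)⁻¹ ≤ ((L : ℝ≥0∞) ^ r * (g x) ^ r) * ((L : ℝ≥0∞) ^ r)⁻¹ := by
              gcongr
          _ = ((L : ℝ≥0∞) ^ r * ((L : ℝ≥0∞) ^ r)⁻¹) * (g x) ^ r := by ring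
          _ = (g x) ^ r := by rw [ENNReal.mul_inv_cancel hLr0 hLrt, one_mul]
      have h5 := ENNReal.inv_le_inv.2 h4
      refine h5.trans (le_of_eq ?_)
      rw [ENNReal.mul_inv (Or.inl hmr0) (Or.inl hmrt), inv_inv, mul_comm]
    gcongr
  -- second factor
  have h2 : ∫⁻ x in Ioo a b, (U x * (g x) ^ (p - 2)) ^ (-1 / ((2:ℝ) - 1)) ≤
      V ^ (p - 1) * G ^ r := by
    have h3 : ∫⁻ x in Ioo a b, (U x * (g x) ^ (p - 2)) ^ (-1 / ((2:ℝ) - 1)) =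
        ∫⁻ x in Ioo a b, ((U x) ^ (-1 / (p - 1))) ^ (p - 1) * (g x) ^ r := by
      refine lintegral_congr_ae ?_
      filter_upwards [hU0', hg0'] with x hx hgx
      have e1 : (-1 / ((2:ℝ) - 1)) = -1 := by norm_num
      have e2 : (-1 / (p - 1)) * (p - 1) = -1 := by
        have : p - 1 ≠ 0 := by linarith
        field_simp
      rw [e1, ENNReal.rpow_neg_one, ENNReal.mul_inv (Or.inl hx.1) (Or.inl hx.2), hgp, inv_inv,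
        ← ENNReal.rpow_mul, e2, ENNReal.rpow_neg_one]
    rw [h3, hV, hG]
    exact ENNReal.lintegral_mul_norm_pow_le (hU.pow_const _).aemeasurable hg.aemeasurable
      (by linarith) hrpos.le (by rw [hr]; ring)
  -- conclusion
  have e3 : ((2:ℝ) - 1) = 1 := by norm_num
  have h2' : (∫⁻ x in Ioo a b, (U x * (g x) ^ (p - 2)) ^ (-1 / ((2:ℝ) - 1))) ^ ((2:ℝ) - 1) ≤
      V ^ (p - 1) * G ^ r := by
    have e4 : ∀ W : ℝ≥0∞, W ^ ((2:ℝ) - 1) = W := fun W => by rw [e3, ENNReal.rpow_one]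
    rw [e4]
    exact h2
  have hGr : G ^ r = ℓ ^ r * m ^ r := by
    rw [hGm, ENNReal.mul_rpow_of_nonneg _ _ hrpos.le]
  have hA' : ((L ^ (2 - p) * A : ℝ≥0) : ℝ≥0∞) = (L : ℝ≥0∞) ^ r * A := by
    rw [ENNReal.coe_mul, ENNReal.coe_rpow_of_nonneg _ hrpos.le]
  have hℓ2 : ℓ ^ r * ℓ ^ p = ℓ ^ (2:ℝ) := by
    rw [← ENNReal.rpow_add _ _ hℓ0 hℓt]
    congr 1
    rw [hr]; ring
  calc (∫⁻ x in Ioo a b, U x * (g x) ^ (p - 2)) *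
        (∫⁻ x in Ioo a b, (U x * (g x) ^ (p - 2)) ^ (-1 / ((2:ℝ) - 1))) ^ ((2:ℝ) - 1)
      ≤ (S * ((L : ℝ≥0∞) ^ r * (m ^ r)⁻¹)) * (V ^ (p - 1) * G ^ r) := by gcongr
    _ = (S * V ^ (p - 1)) * (L : ℝ≥0∞) ^ r * ℓ ^ r * ((m ^ r)⁻¹ * m ^ r) := by
        rw [hGr]; ring
    _ = (S * V ^ (p - 1)) * (L : ℝ≥0∞) ^ r * ℓ ^ r := by
        rw [ENNReal.inv_mul_cancel hmr0 hmrt, mul_one]
    _ ≤ (A * ℓ ^ p) * (L : ℝ≥0∞) ^ r * ℓ ^ r := by gcongr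
    _ = ((L : ℝ≥0∞) ^ r * A) * (ℓ ^ r * ℓ ^ p) := by ring
    _ = ((L ^ (2 - p) * A : ℝ≥0) : ℝ≥0∞) * ℓ ^ (2:ℝ) := by rw [hℓ2, hA']

end

end GStar954
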