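import Mathlib
import Pool.Agent.Helper954.GStar.Defs
import Pool.Agent.Helper954.GStar.A4

set_option autoImplicit false
open MeasureTheory Filter Set Topology
open scoped ENNReal NNReal

namespace GStar954

noncomputable section

theorem aux_inner (g : ℝ≥0∞) (r : ℝ) (hr0 : 0 < r) (hr1 : r < 1) :
    ∫⁻ t in Ioi (0:ℝ), ENNReal.ofReal (r * t ^ (r - 2)) *
      (if g ≤ ENNReal.ofReal t then g else 0) ≤ ENNReal.ofReal (r / (1 - r)) * g ^ r := by
  rcases eq_or_ne g ∞ with h | h
  · subst h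
    simp
  rcases eq_or_ne g 0 with h0 | h0
  · subst h0
    simp
  obtain ⟨a, ha⟩ : ∃ a, a = g.toReal := ⟨_, rfl⟩
  have hga : g = ENNReal.ofReal a := by rw [ha, ENNReal.ofReal_toReal h]
  have ha0 : 0 < a := by rw [ha]; exact ENNReal.toReal_pos h0 h
  have h1 : ∀ t ∈ Ioi (0:ℝ), ENNReal.ofReal (r * t ^ (r - 2)) *
      (if g ≤ ENNReal.ofReal t then g else 0) =
      (Ici a).indicator (fun t => ENNReal.ofReal (r * t ^ (r - 2)) * g) t := by
    intro t ht
    by_cases hta : a ≤ t
    · have h2 : g ≤ ENNReal.ofReal t := by rw [hga]; exact ENNReal.ofReal_le_ofReal hta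
      rw [if_pos h2, Set.indicator_of_mem (show t ∈ Ici a from hta)]
    · have h2 : ¬ g ≤ ENNReal.ofReal t := by
        rw [hga, ENNReal.ofReal_le_ofReal_iff (le_of_lt ht)]
        exact hta
      rw [if_neg h2, Set.indicator_of_notMem (show t ∉ Ici a from hta), mul_zero]
  rw [setLIntegral_congr_fun measurableSet_Ioi h1]
  have h3 : ∫⁻ t in Ioi (0:ℝ), (Ici a).indicator (fun t => ENNReal.ofReal (r * t ^ (r - 2)) * g) t
      ≤ ∫⁻ t in Ioi a, ENNReal.ofReal (r * t ^ (r - 2)) * g := by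
    calc _ ≤ ∫⁻ t, (Ici a).indicator (fun t => ENNReal.ofReal (r * t ^ (r - 2)) * g) t :=
          setLIntegral_le_lintegral _ _
      _ = ∫⁻ t in Ici a, ENNReal.ofReal (r * t ^ (r - 2)) * g := by
          rw [lintegral_indicator measurableSet_Ici]
      _ = _ := by rw [setLIntegral_congr Ioi_ae_eq_Ici.symm]
  refine h3.trans (le_of_eq ?_)
  rw [lintegral_mul_const' _ _ h, ← ofReal_integral_eq_lintegral_ofReal]
  · rw [integral_const_mul, integral_Ioi_rpow_of_lt (by linarith) ha0, hga,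
      ENNReal.ofReal_rpow_of_pos ha0, ← ENNReal.ofReal_mul, ← ENNReal.ofReal_mul]
    · congr 1
      have e1 : a ^ r = a ^ (r - 2 + 1) * a := by
        rw [← Real.rpow_add_one ha0.ne']
        congr 1
        ring
      have e2 : r - 2 + 1 = -(1 - r) := by ring
      rw [e1, e2]
      have e3 : (1 - r) ≠ 0 := by linarith
      field_simp
    · have : 0 < 1 - r := by linarith
      positivity
    · have h4 : (0:ℝ) < a ^ (r - 2 + 1) := Real.rpow_pos_of_pos ha0 _
      have h5 : r - 2 + 1 < 0 := by linarith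
      refine mul_nonneg hr0.le (div_nonneg_of_nonpos (by linarith) h5.le)
  · exact (integrableOn_Ioi_rpow_of_lt (by linarith) ha0).const_mul r
  · refine (ae_restrict_mem measurableSet_Ioi).mono (fun t ht => ?_)
    have : 0 < t := ha0.trans ht
    have := Real.rpow_pos_of_pos this (r - 2)
    positivity

theorem good_lambda {α : Type*} [MeasurableSpace α] (ν : Measure α) [SFinite ν]
    (F G : α → ℝ≥0∞) (hF : Measurable F) (hG : Measurable G) (r : ℝ) (hr0 : 0 < r) (hr1 : r < 1)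
    (C : ℝ≥0∞)
    (H : ∀ t : ℝ, 0 < t → ENNReal.ofReal t * ν {x | ENNReal.ofReal t < F x} ≤
      C * (ENNReal.ofReal t * ν {x | ENNReal.ofReal t < G x} +
        ∫⁻ x in {x | G x ≤ ENNReal.ofReal t}, G x ∂ν)) :
    ∫⁻ x, (F x) ^ r ∂ν ≤ C * ENNReal.ofReal (1 / (1 - r)) * ∫⁻ x, (G x) ^ r ∂ν := by
  classical
  have hset : ∀ t : ℝ, MeasurableSet {x | G x ≤ ENNReal.ofReal t} := fun t =>
    measurableSet_le hG measurable_const
  have hstep : ∀ t ∈ Ioi (0:ℝ), ENNReal.ofReal (r * t ^ (r - 1)) * ν {x | ENNReal.ofReal t < F x} ≤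
      C * (ENNReal.ofReal (r * t ^ (r - 1)) * ν {x | ENNReal.ofReal t < G x} +
        ∫⁻ x, ENNReal.ofReal (r * t ^ (r - 2)) * (if G x ≤ ENNReal.ofReal t then G x else 0) ∂ν) := by
    intro t ht
    have ht' : 0 < t := ht
    have e1 : ENNReal.ofReal (r * t ^ (r - 1)) =
        ENNReal.ofReal (r * t ^ (r - 2)) * ENNReal.ofReal t := by
      rw [← ENNReal.ofReal_mul' ht'.le]
      congr 1
      rw [mul_assoc, ← Real.rpow_add_one ht'.ne']
      congr 2
      ring
    have e2 : ∫⁻ x, ENNReal.ofReal (r * t ^ (r - 2)) *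
        (if G x ≤ ENNReal.ofReal t then G x else 0) ∂ν =
        ENNReal.ofReal (r * t ^ (r - 2)) * ∫⁻ x in {x | G x ≤ ENNReal.ofReal t}, G x ∂ν := by
      rw [lintegral_const_mul' _ _ ENNReal.ofReal_ne_top, ← lintegral_indicator (hset t)]
      congr 1
      refine lintegral_congr (fun x => ?_)
      by_cases hx : G x ≤ ENNReal.ofReal t
      · rw [if_pos hx, Set.indicator_of_mem (show x ∈ {x | G x ≤ ENNReal.ofReal t} from hx)]
      · rw [if_neg hx, Set.indicator_of_notMem (show x ∉ {x | G x ≤ ENNReal.ofReal t} from hx)]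
    rw [e2, e1]
    calc ENNReal.ofReal (r * t ^ (r - 2)) * ENNReal.ofReal t * ν {x | ENNReal.ofReal t < F x}
        = ENNReal.ofReal (r * t ^ (r - 2)) *
          (ENNReal.ofReal t * ν {x | ENNReal.ofReal t < F x}) := by rw [mul_assoc]
      _ ≤ ENNReal.ofReal (r * t ^ (r - 2)) * (C * (ENNReal.ofReal t * ν {x | ENNReal.ofReal t < G x} +
        ∫⁻ x in {x | G x ≤ ENNReal.ofReal t}, G x ∂ν)) := by
          exact mul_le_mul_right (H t ht') _
      _ = _ := by ring
  rw [layer_cake ν F hF r hr0]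
  refine (setLIntegral_mono' measurableSet_Ioi hstep).trans ?_
  have hm1 : Measurable (fun t : ℝ => ENNReal.ofReal (r * t ^ (r - 1)) *
      ν {x | ENNReal.ofReal t < G x}) := by
    refine Measurable.mul ?_ ?_
    · exact (((measurable_id.pow_const (r - 1))).const_mul r).ennreal_ofReal
    · refine Antitone.measurable ?_
      intro s t hst
      refine measure_mono (fun x hx => ?_)
      exact lt_of_le_of_lt (ENNReal.ofReal_le_ofReal hst) hx
  have hm0 : Measurable (Function.uncurry (fun (t : ℝ) (x : α) => ENNReal.ofReal (r * t ^ (r - 2)) *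
      (if G x ≤ ENNReal.ofReal t then G x else 0))) := by
    refine Measurable.mul ?_ ?_
    · exact ((((measurable_fst).pow_const (r - 2))).const_mul r).ennreal_ofReal
    · refine Measurable.ite ?_ (hG.comp measurable_snd) measurable_const
      exact measurableSet_le (hG.comp measurable_snd) measurable_fst.ennreal_ofReal
  have hm2 : Measurable (fun t : ℝ => ∫⁻ x, ENNReal.ofReal (r * t ^ (r - 2)) *
      (if G x ≤ ENNReal.ofReal t then G x else 0) ∂ν) := hm0.lintegral_prod_right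
  have hm3 : Measurable (fun t : ℝ => ENNReal.ofReal (r * t ^ (r - 1)) *
      ν {x | ENNReal.ofReal t < G x} + ∫⁻ x, ENNReal.ofReal (r * t ^ (r - 2)) *
      (if G x ≤ ENNReal.ofReal t then G x else 0) ∂ν) := hm1.add hm2
  rw [lintegral_const_mul _ hm3, lintegral_add_left hm1,
    ← layer_cake ν G hG r hr0]
  have hswap : ∫⁻ t in Ioi (0:ℝ), ∫⁻ x, ENNReal.ofReal (r * t ^ (r - 2)) *
      (if G x ≤ ENNReal.ofReal t then G x else 0) ∂ν ≤
      ENNReal.ofReal (r / (1 - r)) * ∫⁻ x, (G x) ^ r ∂ν := by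
    rw [lintegral_lintegral_swap]
    · rw [← lintegral_const_mul' _ _ ENNReal.ofReal_ne_top]
      exact lintegral_mono (fun x => aux_inner (G x) r hr0 hr1)
    · exact hm0.aemeasurable
  calc (C : ℝ≥0∞) * (∫⁻ x, (G x) ^ r ∂ν + ∫⁻ t in Ioi (0:ℝ), ∫⁻ x,
        ENNReal.ofReal (r * t ^ (r - 2)) * (if G x ≤ ENNReal.ofReal t then G x else 0) ∂ν)
      ≤ C * (∫⁻ x, (G x) ^ r ∂ν + ENNReal.ofReal (r / (1 - r)) * ∫⁻ x, (G x) ^ r ∂ν) := by
        gcongr
    _ = C * ((ENNReal.ofReal 1 + ENNReal.ofReal (r / (1 - r))) * ∫⁻ x, (G x) ^ r ∂ν) := by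
        rw [ENNReal.ofReal_one, add_mul, one_mul]
    _ = C * ENNReal.ofReal (1 / (1 - r)) * ∫⁻ x, (G x) ^ r ∂ν := by
        rw [← ENNReal.ofReal_add (by norm_num) (div_nonneg hr0.le (by linarith)), mul_assoc]
        congr 3
        have : (1 - r) ≠ 0 := by linarith
        field_simp
        ring

end

end GStar954
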