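import Mathlib
import Pool.Agent.Helper954.GStar.Defs

set_option autoImplicit false
open MeasureTheory Filter Set Topology
open scoped ENNReal NNReal

namespace GStar954

noncomputable section

theorem meas3 {α : Type*} [MeasurableSpace α] (F : (α × ℝ) × ℝ → ℝ≥0∞) (hF : Measurable F) :
    Measurable (fun q : α × ℝ => ∫⁻ y in Ioi (0:ℝ), F (q, y)) :=
  hF.lintegral_prod_right'

theorem meas2 {α : Type*} [MeasurableSpace α] (F : α → ℝ → ℝ → ℝ≥0∞)
    (hF : Measurable (fun p : (α × ℝ) × ℝ => F p.1.1 p.1.2 p.2)) :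
    Measurable (fun x => ∫⁻ z, ∫⁻ y in Ioi (0:ℝ), F x z y) := by
  have h1 := meas3 (fun p : (α × ℝ) × ℝ => F p.1.1 p.1.2 p.2) hF
  exact h1.lintegral_prod_right'

theorem meas_ind (Γ : ℝ → ℝ → ℝ≥0∞) (hΓ : Measurable (Function.uncurry Γ)) (a : ℝ) :
    Measurable (fun p : (ℝ × ℝ) × ℝ =>
      if |p.1.1 - p.1.2| < a * p.2 then Γ p.1.2 p.2 else 0) := by
  refine Measurable.ite ?_ ?_ measurable_const
  · apply measurableSet_lt
    · exact (continuous_abs.comp ((continuous_fst.comp continuous_fst).sub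
        (continuous_snd.comp continuous_fst))).measurable
    · exact (continuous_const.mul continuous_snd).measurable
  · have h1 : Measurable (fun p : (ℝ × ℝ) × ℝ => ((p.1.2, p.2) : ℝ × ℝ)) :=
      (measurable_snd.comp measurable_fst).prodMk measurable_snd
    exact hΓ.comp h1

theorem measurable_Sf (Γ : ℝ → ℝ → ℝ≥0∞) (hΓ : Measurable (Function.uncurry Γ)) (a : ℝ) :
    Measurable (Sf Γ a) := by
  exact meas2 (fun x z y => if |x - z| < a * y then Γ z y else 0) (meas_ind Γ hΓ a)

theorem measurable_gs (lam : ℝ) (Γ : ℝ → ℝ → ℝ≥0∞) (hΓ : Measurable (Function.uncurry Γ)) :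
    Measurable (gs lam Γ) := by
  refine meas2 (fun x z y => ENNReal.ofReal ((y / (|x - z| + y)) ^ lam) * Γ z y) ?_
  refine Measurable.mul ?_ ?_
  · apply Measurable.ennreal_ofReal
    apply Measurable.pow_const
    refine Measurable.div measurable_snd ?_
    refine Measurable.add ?_ measurable_snd
    exact (continuous_abs.comp ((continuous_fst.comp continuous_fst).sub
        (continuous_snd.comp continuous_fst))).measurable
  · have h1 : Measurable (fun p : (ℝ × ℝ) × ℝ => ((p.1.2, p.2) : ℝ × ℝ)) :=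
      (measurable_snd.comp measurable_fst).prodMk measurable_snd
    exact hΓ.comp h1

theorem Sf_tonelli (Γ : ℝ → ℝ → ℝ≥0∞) (hΓ : Measurable (Function.uncurry Γ)) (ν : Measure ℝ)
    [SFinite ν] (a : ℝ) (E : Set ℝ) (hE : MeasurableSet E) :
    ∫⁻ x in E, Sf Γ a x ∂ν =
      ∫⁻ z, ∫⁻ y in Ioi (0:ℝ), Γ z y * ν (E ∩ Ioo (z - a * y) (z + a * y)) := by
  have hm := meas_ind Γ hΓ a
  have hm2 := meas3 (fun p : (ℝ × ℝ) × ℝ =>
      if |p.1.1 - p.1.2| < a * p.2 then Γ p.1.2 p.2 else 0) hm
  unfold Sf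
  rw [lintegral_lintegral_swap hm2.aemeasurable]
  refine lintegral_congr fun z => ?_
  have hm3 : Measurable (Function.uncurry
      (fun x y : ℝ => if |x - z| < a * y then Γ z y else 0)) := by
    have h1 : Measurable (fun p : ℝ × ℝ => (((p.1, z), p.2) : (ℝ × ℝ) × ℝ)) :=
      (measurable_fst.prodMk measurable_const).prodMk measurable_snd
    exact hm.comp h1
  rw [lintegral_lintegral_swap hm3.aemeasurable]
  refine lintegral_congr fun y => ?_
  have h1 : ∀ x : ℝ, (if |x - z| < a * y then Γ z y else 0) =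
      (Ioo (z - a * y) (z + a * y)).indicator (fun _ => Γ z y) x := by
    intro x
    rw [Set.indicator_apply]
    congr 1
    rw [mem_Ioo, abs_lt]
    apply propext
    constructor <;> rintro ⟨h2, h3⟩ <;> constructor <;> linarith
  simp only [h1]
  rw [lintegral_indicator_const measurableSet_Ioo, Measure.restrict_apply measurableSet_Ioo,
    Set.inter_comm]

end

end GStar954
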