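import Mathlib
import Pool.Agent.Helper954.GStar.Defs
import Pool.Agent.Helper954.GStar.A2
import Pool.Agent.Helper954.GStar.B3

set_option autoImplicit false
open MeasureTheory Filter Set Topology
open scoped ENNReal NNReal

namespace GStar954

noncomputable section

theorem aperture_level (Γ : ℝ → ℝ → ℝ≥0∞) (hΓ : Measurable (Function.uncurry Γ)) (ν : Measure ℝ)
    [SFinite ν] (a : ℝ) (ha : 1 ≤ a) (D : ℝ≥0)
    (hD : ∀ z y : ℝ, 0 < y → ν (Ioo (z - a * y) (z + a * y)) ≤ D * ν (Ioo (z - y) (z + y)))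
    (hfin : ∀ z y : ℝ, ν (Ioo (z - y) (z + y)) ≠ ∞) (t : ℝ) (ht : 0 < t) :
    ENNReal.ofReal t * ν {x | ENNReal.ofReal t < Sf Γ a x} ≤
      (4 * D : ℝ≥0∞) * (ENNReal.ofReal t * ν {x | ENNReal.ofReal t < Sf Γ 1 x} +
        ∫⁻ x in {x | Sf Γ 1 x ≤ ENNReal.ofReal t}, Sf Γ 1 x ∂ν) := by
  classical
  set O : Set ℝ := {x | ENNReal.ofReal t < Sf Γ 1 x} with hO
  have hOm : MeasurableSet O := measurableSet_lt measurable_const (measurable_Sf Γ hΓ 1)
  have hOc : {x | Sf Γ 1 x ≤ ENNReal.ofReal t} = Oᶜ := by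
    ext x; simp [hO]
  set F : Set (ℝ × ℝ) := {p | ∃ z y : ℝ, 0 < y ∧ p = (z - a * y, z + a * y) ∧
    ν (Ioo (z - y) (z + y)) < 2 * ν (O ∩ Ioo (z - y) (z + y))} with hF
  set Oa : Set ℝ := ⋃ p ∈ F, Ioo p.1 p.2 with hOa
  have hOam : MeasurableSet Oa := (isOpen_biUnion fun p _ => isOpen_Ioo).measurableSet
  have hsub : ∀ z y : ℝ, 0 < y → Ioo (z - y) (z + y) ⊆ Ioo (z - a * y) (z + a * y) := by
    intro z y hy
    have : y ≤ a * y := le_mul_of_one_le_left hy.le ha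
    exact Ioo_subset_Ioo (by linarith) (by linarith)
  have h1 : ν Oa ≤ 4 * D * ν O := by
    have := cover_measure ν ((2 * (D : ℝ≥0∞)) • ν.restrict O) F ?_
    · calc ν Oa ≤ 2 * ((2 * (D : ℝ≥0∞)) • ν.restrict O) Oa := this
        _ = 2 * (2 * D * ν (Oa ∩ O)) := by
            rw [Measure.smul_apply, smul_eq_mul, Measure.restrict_apply hOam]
        _ ≤ 2 * (2 * D * ν O) := by gcongr; exact inter_subset_right
        _ = 4 * D * ν O := by ring
    · rintro p ⟨z, y, hy, rfl, hlt⟩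
      rw [Measure.smul_apply, smul_eq_mul, Measure.restrict_apply measurableSet_Ioo]
      calc ν (Ioo (z - a * y) (z + a * y)) ≤ D * ν (Ioo (z - y) (z + y)) := hD z y hy
        _ ≤ D * (2 * ν (O ∩ Ioo (z - y) (z + y))) := mul_le_mul_right hlt.le _
        _ ≤ D * (2 * ν (Ioo (z - a * y) (z + a * y) ∩ O)) := by
            refine mul_le_mul_right (mul_le_mul_right (measure_mono ?_) _) _
            rintro x ⟨hx1, hx2⟩
            exact ⟨hsub z y hy hx2, hx1⟩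
        _ = 2 * D * ν (Ioo (z - a * y) (z + a * y) ∩ O) := by ring
  have h2 : ∀ z y : ℝ, 0 < y → ν (Oaᶜ ∩ Ioo (z - a * y) (z + a * y)) ≤
      2 * D * ν (Oᶜ ∩ Ioo (z - y) (z + y)) := by
    intro z y hy
    by_cases hne : (Oaᶜ ∩ Ioo (z - a * y) (z + a * y)).Nonempty
    · obtain ⟨x, hx1, hx2⟩ := hne
      have hnF : (z - a * y, z + a * y) ∉ F := fun h => hx1 (mem_biUnion h hx2)
      have hle : 2 * ν (O ∩ Ioo (z - y) (z + y)) ≤ ν (Ioo (z - y) (z + y)) := by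
        by_contra hc
        exact hnF ⟨z, y, hy, rfl, not_le.1 hc⟩
      have hsplit : ν (O ∩ Ioo (z - y) (z + y)) + ν (Oᶜ ∩ Ioo (z - y) (z + y)) =
          ν (Ioo (z - y) (z + y)) := by
        have := measure_inter_add_sdiff (μ := ν) (Ioo (z - y) (z + y)) hOm
        rw [sdiff_eq, inter_comm, inter_comm (Ioo (z - y) (z + y)) Oᶜ] at this
        exact this
      have hfO : ν (O ∩ Ioo (z - y) (z + y)) ≠ ∞ :=
        ne_top_of_le_ne_top (hfin z y) (measure_mono inter_subset_right)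
      have huv : ν (O ∩ Ioo (z - y) (z + y)) ≤ ν (Oᶜ ∩ Ioo (z - y) (z + y)) := by
        rw [← hsplit, two_mul] at hle
        exact (ENNReal.add_le_add_iff_left hfO).1 hle
      calc ν (Oaᶜ ∩ Ioo (z - a * y) (z + a * y)) ≤ ν (Ioo (z - a * y) (z + a * y)) :=
            measure_mono inter_subset_right
        _ ≤ D * ν (Ioo (z - y) (z + y)) := hD z y hy
        _ ≤ D * (ν (Oᶜ ∩ Ioo (z - y) (z + y)) + ν (Oᶜ ∩ Ioo (z - y) (z + y))) := by
            rw [← hsplit]; gcongr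
        _ = 2 * D * ν (Oᶜ ∩ Ioo (z - y) (z + y)) := by ring
    · rw [not_nonempty_iff_eq_empty.1 hne, measure_empty]; exact bot_le
  have hDtop : (2 * (D : ℝ≥0∞)) ≠ ∞ := ENNReal.mul_ne_top (by norm_num) ENNReal.coe_ne_top
  have h3 : ∫⁻ x in Oaᶜ, Sf Γ a x ∂ν ≤ 2 * D * ∫⁻ x in Oᶜ, Sf Γ 1 x ∂ν := by
    rw [Sf_tonelli Γ hΓ ν a _ hOam.compl, Sf_tonelli Γ hΓ ν 1 _ hOm.compl]
    rw [← lintegral_const_mul' _ _ hDtop]
    refine lintegral_mono fun z => ?_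
    rw [← lintegral_const_mul' _ _ hDtop]
    refine setLIntegral_mono' measurableSet_Ioi fun y hy => ?_
    have := h2 z y hy
    rw [one_mul]
    calc Γ z y * ν (Oaᶜ ∩ Ioo (z - a * y) (z + a * y)) ≤
          Γ z y * (2 * D * ν (Oᶜ ∩ Ioo (z - y) (z + y))) := mul_le_mul_right this _
      _ = _ := by ring
  have hLm : MeasurableSet {x | ENNReal.ofReal t ≤ Sf Γ a x} :=
    measurableSet_le measurable_const (measurable_Sf Γ hΓ a)
  have h4 : ENNReal.ofReal t * ν ({x | ENNReal.ofReal t < Sf Γ a x} ∩ Oaᶜ) ≤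
      ∫⁻ x in Oaᶜ, Sf Γ a x ∂ν := by
    have := mul_meas_ge_le_lintegral (μ := ν.restrict Oaᶜ) (measurable_Sf Γ hΓ a)
      (ENNReal.ofReal t)
    refine le_trans (mul_le_mul_right ?_ _) this
    rw [Measure.restrict_apply hLm]
    refine measure_mono (inter_subset_inter_left _ ?_)
    intro x hx
    exact le_of_lt (show ENNReal.ofReal t < Sf Γ a x from hx)
  have h5 : ν {x | ENNReal.ofReal t < Sf Γ a x} ≤
      ν Oa + ν ({x | ENNReal.ofReal t < Sf Γ a x} ∩ Oaᶜ) := by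
    refine le_trans (measure_mono ?_) (measure_union_le _ _)
    intro x hx
    by_cases hxa : x ∈ Oa
    · exact Or.inl hxa
    · exact Or.inr ⟨hx, hxa⟩
  rw [hOc]
  calc ENNReal.ofReal t * ν {x | ENNReal.ofReal t < Sf Γ a x} ≤
        ENNReal.ofReal t * (ν Oa + ν ({x | ENNReal.ofReal t < Sf Γ a x} ∩ Oaᶜ)) :=
          mul_le_mul_right h5 _
    _ = ENNReal.ofReal t * ν Oa +
        ENNReal.ofReal t * ν ({x | ENNReal.ofReal t < Sf Γ a x} ∩ Oaᶜ) := mul_add _ _ _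
    _ ≤ ENNReal.ofReal t * (4 * D * ν O) + 2 * D * ∫⁻ x in Oᶜ, Sf Γ 1 x ∂ν :=
        add_le_add (mul_le_mul_right h1 _) (h4.trans h3)
    _ ≤ ENNReal.ofReal t * (4 * D * ν O) + 4 * D * ∫⁻ x in Oᶜ, Sf Γ 1 x ∂ν := by
        gcongr; norm_num
    _ = 4 * D * (ENNReal.ofReal t * ν O + ∫⁻ x in Oᶜ, Sf Γ 1 x ∂ν) := by ring

end

end GStar954
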