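import Mathlib
import Pool.Agent.Helper954.GStar.Defs

set_option autoImplicit false
open MeasureTheory Filter Set Topology
open scoped ENNReal NNReal

namespace GStar954

noncomputable section

theorem gs_pw (lam : ℝ) (hlam : 0 < lam) (G : ℝ≥0∞) (t y : ℝ) (ht : 0 ≤ t) (hy : 0 < y) :
    ENNReal.ofReal ((y / (t + y)) ^ lam) * G ≤ (if t < 1 * y then G else 0) +
      ∑' k : ℕ, ENNReal.ofReal ((2:ℝ) ^ (-(lam * k))) * (if t < 2 ^ (k + 1) * y then G else 0) := by
  have hq0 : 0 ≤ y / (t + y) := by positivity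
  by_cases h : t < 1 * y
  · rw [if_pos h]
    refine le_trans ?_ le_self_add
    have h1 : (y / (t + y)) ^ lam ≤ 1 := by
      apply Real.rpow_le_one hq0 ?_ hlam.le
      rw [div_le_one (by positivity)]
      linarith
    calc ENNReal.ofReal ((y / (t + y)) ^ lam) * G ≤ ENNReal.ofReal 1 * G := by gcongr
      _ = G := by simp
  · rw [if_neg h, zero_add]
    push Not at h
    have h1 : 1 ≤ t / y := by
      rw [le_div_iff₀ hy]
      exact h
    obtain ⟨k, hk1, hk2⟩ := exists_nat_pow_near h1 (one_lt_two : (1:ℝ) < 2)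
    refine le_trans ?_ (ENNReal.le_tsum k)
    rw [if_pos ((div_lt_iff₀ hy).1 hk2)]
    gcongr
    have h2 : y / (t + y) ≤ ((2:ℝ) ^ k)⁻¹ := by
      rw [div_le_iff₀ (by positivity), inv_mul_eq_div, le_div_iff₀ (by positivity)]
      rw [le_div_iff₀ hy] at hk1
      nlinarith
    calc (y / (t + y)) ^ lam ≤ (((2:ℝ) ^ k)⁻¹) ^ lam := Real.rpow_le_rpow hq0 h2 hlam.le
      _ = (2:ℝ) ^ (-(lam * k)) := by
        rw [← Real.rpow_natCast, ← Real.rpow_neg (by norm_num), ← Real.rpow_mul (by norm_num)]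
        congr 1
        ring

theorem gs_le (lam : ℝ) (hlam : 0 < lam) (Γ : ℝ → ℝ → ℝ≥0∞)
    (hΓ : Measurable (Function.uncurry Γ)) (x : ℝ) :
    gs lam Γ x ≤ Sf Γ 1 x +
      ∑' k : ℕ, ENNReal.ofReal ((2:ℝ) ^ (-(lam * k))) * Sf Γ (2 ^ (k + 1)) x := by
  have hB : ∀ a : ℝ, Measurable (Function.uncurry fun z y => if |x - z| < a * y then Γ z y else 0) := by
    intro a
    have h1 : (Function.uncurry fun z y => if |x - z| < a * y then Γ z y else 0) =
        fun p : ℝ × ℝ => if |x - p.1| < a * p.2 then Function.uncurry Γ p else 0 := by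
      funext p
      rfl
    rw [h1]
    exact Measurable.ite (measurableSet_lt (by fun_prop) (by fun_prop)) hΓ measurable_const
  have hBz : ∀ (a z : ℝ), Measurable fun y => if |x - z| < a * y then Γ z y else 0 :=
    fun a z => (hB a).of_uncurry_left (x := z)
  have hI : ∀ a : ℝ, Measurable fun z => ∫⁻ y in Ioi (0:ℝ), if |x - z| < a * y then Γ z y else 0 :=
    fun a => (hB a).lintegral_prod_right'
  calc gs lam Γ x ≤ ∫⁻ z, ∫⁻ y in Ioi (0:ℝ), ((if |x - z| < 1 * y then Γ z y else 0) +
        ∑' k : ℕ, ENNReal.ofReal ((2:ℝ) ^ (-(lam * k))) *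
          (if |x - z| < 2 ^ (k + 1) * y then Γ z y else 0)) := by
        apply lintegral_mono
        intro z
        apply setLIntegral_mono' measurableSet_Ioi
        intro y hy
        exact gs_pw lam hlam (Γ z y) |x - z| y (abs_nonneg _) hy
    _ = ∫⁻ z, ((∫⁻ y in Ioi (0:ℝ), if |x - z| < 1 * y then Γ z y else 0) +
        ∑' k : ℕ, ENNReal.ofReal ((2:ℝ) ^ (-(lam * k))) *
          ∫⁻ y in Ioi (0:ℝ), if |x - z| < 2 ^ (k + 1) * y then Γ z y else 0) := by
        apply lintegral_congr
        intro z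
        rw [lintegral_add_left (hBz 1 z), lintegral_tsum]
        · congr 2
          funext k
          rw [lintegral_const_mul _ (hBz _ z)]
        · intro k
          exact ((hBz _ z).const_mul _).aemeasurable
    _ = Sf Γ 1 x + ∑' k : ℕ, ENNReal.ofReal ((2:ℝ) ^ (-(lam * k))) * Sf Γ (2 ^ (k + 1)) x := by
        rw [lintegral_add_left (hI 1), lintegral_tsum]
        · unfold Sf
          congr 2
          funext k
          rw [lintegral_const_mul _ (hI _)]
        · intro k
          exact ((hI _).const_mul _).aemeasurable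

end

end GStar954
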