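import Mathlib
import Pool.Agent.Helper954.GStar.Defs
import Pool.Agent.Helper954.GStar.B1
import Pool.Agent.Helper954.GStar.B4
import Pool.Agent.Helper954.GStar.B6

set_option autoImplicit false
open MeasureTheory Filter Set Topology
open scoped ENNReal NNReal

namespace GStar954

noncomputable section

theorem rpow_tsum_le (r : ℝ) (hr0 : 0 < r) (hr1 : r < 1) (a : ℕ → ℝ≥0∞) :
    (∑' k, a k) ^ r ≤ ∑' k, (a k) ^ r := by
  have h1 : (∑' k, a k) ≤ (∑' k, (a k) ^ r) ^ (r⁻¹) := by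
    rw [ENNReal.tsum_eq_iSup_sum]
    refine iSup_le fun s => ?_
    rw [ENNReal.le_rpow_inv_iff hr0]
    calc (∑ k ∈ s, a k) ^ r ≤ ∑ k ∈ s, (a k) ^ r := by
          refine Finset.le_sum_of_subadditive (fun x : ℝ≥0∞ => x ^ r) (ENNReal.zero_rpow_of_pos hr0).le ?_ s a
          intro x y
          exact ENNReal.rpow_add_le_add_rpow x y hr0.le hr1.le
      _ ≤ ∑' k, (a k) ^ r := ENNReal.sum_le_tsum s
  rwa [ENNReal.le_rpow_inv_iff hr0] at h1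

theorem ap_int (r q : ℝ) (hr0 : 0 < r) (hr1 : r < 1) (C : ℝ≥0) (ν : Measure ℝ) [SFinite ν]
    (hfin : ∀ z y : ℝ, ν (Ioo (z - y) (z + y)) ≠ ∞)
    (hD : ∀ z y a : ℝ, 0 < y → 1 ≤ a →
      ν (Ioo (z - a * y) (z + a * y)) ≤ C * ENNReal.ofReal (a ^ q) * ν (Ioo (z - y) (z + y)))
    (Γ : ℝ → ℝ → ℝ≥0∞) (hΓ : Measurable (Function.uncurry Γ)) (a : ℝ) (ha : 1 ≤ a) :
    ∫⁻ x, (Sf Γ a x) ^ r ∂ν ≤ (4 * (C * ENNReal.ofReal (a ^ q))) * ENNReal.ofReal (1 / (1 - r)) *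
      ∫⁻ x, (Sf Γ 1 x) ^ r ∂ν := by
  have e : ((C * Real.toNNReal (a ^ q) : ℝ≥0) : ℝ≥0∞) = C * ENNReal.ofReal (a ^ q) := by
    rw [ENNReal.coe_mul]; rfl
  have h := good_lambda ν (Sf Γ a) (Sf Γ 1) (measurable_Sf Γ hΓ a) (measurable_Sf Γ hΓ 1) r hr0 hr1
    (4 * ((C * Real.toNNReal (a ^ q) : ℝ≥0) : ℝ≥0∞)) (fun t ht =>
      aperture_level Γ hΓ ν a ha (C * Real.toNNReal (a ^ q)) (by
        intro z y hy
        rw [e]
        exact hD z y a hy ha) hfin t ht)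
  rwa [e] at h

theorem gs_lint (lam r q : ℝ) (hlam : 0 < lam) (hr0 : 0 < r) (hr1 : r < 1) (hq0 : 0 < q)
    (hq : q < lam * r) (C : ℝ≥0) (ν : Measure ℝ) [SFinite ν]
    (hfin : ∀ z y : ℝ, ν (Ioo (z - y) (z + y)) ≠ ∞)
    (hD : ∀ z y a : ℝ, 0 < y → 1 ≤ a →
      ν (Ioo (z - a * y) (z + a * y)) ≤ C * ENNReal.ofReal (a ^ q) * ν (Ioo (z - y) (z + y))) :
    ∃ C' : ℝ≥0, ∀ Γ : ℝ → ℝ → ℝ≥0∞, Measurable (Function.uncurry Γ) →
      ∫⁻ x, (gs lam Γ x) ^ r ∂ν ≤ C' * ∫⁻ x, (Sf Γ 1 x) ^ r ∂ν := by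
  set c : ℕ → ℝ≥0∞ := fun k => ENNReal.ofReal ((2:ℝ) ^ (-(lam * k))) with hc
  set d : ℕ → ℝ≥0∞ := fun k => (4 * (C * ENNReal.ofReal (((2:ℝ) ^ (k + 1)) ^ q))) *
    ENNReal.ofReal (1 / (1 - r)) with hd
  have hS : ∑' k, (c k) ^ r * d k ≠ ∞ := by
    have e1 : ∀ k, (c k) ^ r * d k = (4 * C * ENNReal.ofReal (1 / (1 - r))) *
        ENNReal.ofReal ((2:ℝ) ^ q * ((2:ℝ) ^ (q - lam * r)) ^ k) := by
      intro k
      have e2 : (c k) ^ r = ENNReal.ofReal ((2:ℝ) ^ (-(lam * k) * r)) := by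
        rw [hc]
        simp only []
        rw [ENNReal.ofReal_rpow_of_nonneg (by positivity) hr0.le, ← Real.rpow_mul (by norm_num)]
      have e3 : (2:ℝ) ^ q * ((2:ℝ) ^ (q - lam * r)) ^ k =
          (2:ℝ) ^ (-(lam * k) * r) * ((2:ℝ) ^ (k + 1)) ^ q := by
        rw [← Real.rpow_natCast ((2:ℝ) ^ (q - lam * r)), ← Real.rpow_mul (by norm_num),
          ← Real.rpow_natCast (2:ℝ) (k + 1), ← Real.rpow_mul (by norm_num),
          ← Real.rpow_add (by norm_num), ← Real.rpow_add (by norm_num)]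
        congr 1
        push_cast
        ring
      rw [e2, e3, ENNReal.ofReal_mul (by positivity), hd]
      ring
    simp only [e1]
    rw [ENNReal.tsum_mul_left]
    refine ENNReal.mul_ne_top (by finiteness) ?_
    refine Summable.tsum_ofReal_ne_top ?_
    refine Summable.mul_left _ (summable_geometric_of_lt_one (by positivity) ?_)
    exact Real.rpow_lt_one_of_one_lt_of_neg (by norm_num) (by linarith)
  refine ⟨(1 + ∑' k, (c k) ^ r * d k).toNNReal, fun Γ hΓ => ?_⟩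
  rw [ENNReal.coe_toNNReal (by finiteness)]
  have hpt : ∀ x, (gs lam Γ x) ^ r ≤ (Sf Γ 1 x) ^ r + ∑' k, (c k) ^ r * (Sf Γ (2 ^ (k + 1)) x) ^ r := by
    intro x
    calc (gs lam Γ x) ^ r ≤ (Sf Γ 1 x + ∑' k, c k * Sf Γ (2 ^ (k + 1)) x) ^ r :=
          ENNReal.rpow_le_rpow (gs_le lam hlam Γ hΓ x) hr0.le
      _ ≤ (Sf Γ 1 x) ^ r + (∑' k, c k * Sf Γ (2 ^ (k + 1)) x) ^ r :=
          ENNReal.rpow_add_le_add_rpow _ _ hr0.le hr1.le
      _ ≤ (Sf Γ 1 x) ^ r + ∑' k, (c k * Sf Γ (2 ^ (k + 1)) x) ^ r := by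
          gcongr
          exact rpow_tsum_le r hr0 hr1 _
      _ = (Sf Γ 1 x) ^ r + ∑' k, (c k) ^ r * (Sf Γ (2 ^ (k + 1)) x) ^ r := by
          congr 1
          refine tsum_congr fun k => ?_
          rw [ENNReal.mul_rpow_of_nonneg _ _ hr0.le]
  calc ∫⁻ x, (gs lam Γ x) ^ r ∂ν
      ≤ ∫⁻ x, ((Sf Γ 1 x) ^ r + ∑' k, (c k) ^ r * (Sf Γ (2 ^ (k + 1)) x) ^ r) ∂ν := lintegral_mono hpt
    _ = ∫⁻ x, (Sf Γ 1 x) ^ r ∂ν + ∑' k, (c k) ^ r * ∫⁻ x, (Sf Γ (2 ^ (k + 1)) x) ^ r ∂ν := by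
        rw [lintegral_add_left ((measurable_Sf Γ hΓ 1).pow_const r),
          lintegral_tsum (fun k => (((measurable_Sf Γ hΓ _).pow_const r).const_mul _).aemeasurable)]
        congr 1
        refine tsum_congr fun k => ?_
        rw [lintegral_const_mul _ ((measurable_Sf Γ hΓ _).pow_const r)]
    _ ≤ ∫⁻ x, (Sf Γ 1 x) ^ r ∂ν + ∑' k, (c k) ^ r * (d k * ∫⁻ x, (Sf Γ 1 x) ^ r ∂ν) := by
        gcongr with k
        exact ap_int r q hr0 hr1 C ν hfin hD Γ hΓ (2 ^ (k + 1)) (one_le_pow₀ (by norm_num))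
    _ = (1 + ∑' k, (c k) ^ r * d k) * ∫⁻ x, (Sf Γ 1 x) ^ r ∂ν := by
        rw [add_mul, one_mul, ← ENNReal.tsum_mul_right]
        congr 1
        refine tsum_congr fun k => ?_
        rw [← mul_assoc]

end

end GStar954
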