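import Mathlib
import Pool.Agent.Helper954.GStar.Defs

set_option autoImplicit false
open MeasureTheory Filter Set Topology
open scoped ENNReal NNReal

namespace GStar954

noncomputable section

theorem ball_of_classB (q : ℝ) (hq : 1 < q) (U : ℝ → ℝ) (hU : IsWeight U) (hB : ClassB q U) :
    ∃ C : ℝ≥0, ∀ z y a : ℝ, 0 < y → 1 ≤ a →
      (∫⁻ x in Ioo (z - a * y) (z + a * y), ENNReal.ofReal (U x)) ≤
        C * ENNReal.ofReal (a ^ q) * ∫⁻ x in Ioo (z - y) (z + y), ENNReal.ofReal (U x) := by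
  obtain ⟨C0, hC0⟩ := hB
  refine ⟨2 * C0, fun z y a hy ha => ?_⟩
  have h2y : (0:ℝ) < 2 * y := by linarith
  have hay : 0 < a * y := by positivity
  have hB1 := hC0 z (2 * y) h2y
  have e1 : z - 2 * y / 2 = z - y := by ring
  have e2 : z + 2 * y / 2 = z + y := by ring
  rw [e1, e2] at hB1
  rw [← setLIntegral_congr (Ioo_ae_eq_Icc (μ := volume) (a := z - y) (b := z + y))] at hB1
  have hp1 : 0 < (2 * y) ^ (q - 1) := Real.rpow_pos_of_pos h2y _
  have hp2 : 0 < (2 * y) ^ q := Real.rpow_pos_of_pos h2y _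
  have hp3 : 0 < (a * y) ^ q := Real.rpow_pos_of_pos hay _
  set κ : ℝ := (2 * y) ^ (q - 1) / ((2 * y) ^ q + (a * y) ^ q) with hκ
  have hκ0 : 0 < κ := by positivity
  have hle : ENNReal.ofReal κ * ∫⁻ x in Ioo (z - a * y) (z + a * y), ENNReal.ofReal (U x) ≤
      ∫⁻ x, ENNReal.ofReal ((2 * y) ^ (q - 1) * U x / ((2 * y) ^ q + |x - z| ^ q)) := by
    rw [← lintegral_const_mul' _ _ ENNReal.ofReal_ne_top]
    refine le_trans (setLIntegral_mono' measurableSet_Ioo ?_)
      (setLIntegral_le_lintegral (Ioo (z - a * y) (z + a * y)) _)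
    intro x hx
    rw [← ENNReal.ofReal_mul hκ0.le]
    apply ENNReal.ofReal_le_ofReal
    have hx1 : |x - z| ≤ a * y := by
      rw [abs_le]
      constructor <;> linarith [hx.1, hx.2]
    have hx2 : |x - z| ^ q ≤ (a * y) ^ q :=
      Real.rpow_le_rpow (abs_nonneg _) hx1 (by linarith)
    have hx3 : 0 ≤ |x - z| ^ q := Real.rpow_nonneg (abs_nonneg _) _
    have hU0 := hU.2.1 x
    rw [hκ, div_mul_eq_mul_div]
    apply div_le_div_of_nonneg_left
    · positivity
    · positivity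
    · linarith
  have h3 := hle.trans hB1
  have hfac : κ⁻¹ * (1 / (2 * y)) ≤ 2 * a ^ q := by
    have e3 : κ⁻¹ * (1 / (2 * y)) = ((2 * y) ^ q + (a * y) ^ q) / (2 * y) ^ q := by
      rw [hκ, inv_div, Real.rpow_sub_one h2y.ne']
      field_simp
    rw [e3, Real.mul_rpow (by norm_num) hy.le, Real.mul_rpow (by linarith) hy.le, ← add_mul]
    have hyq : 0 < y ^ q := Real.rpow_pos_of_pos hy _
    rw [mul_div_mul_right _ _ hyq.ne']
    have h2q : (1:ℝ) ≤ 2 ^ q := Real.one_le_rpow (by norm_num) (by linarith)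
    have haq : (1:ℝ) ≤ a ^ q := Real.one_le_rpow ha (by linarith)
    rw [div_le_iff₀ (by linarith)]
    nlinarith
  calc (∫⁻ x in Ioo (z - a * y) (z + a * y), ENNReal.ofReal (U x))
      = ENNReal.ofReal κ⁻¹ * (ENNReal.ofReal κ *
          ∫⁻ x in Ioo (z - a * y) (z + a * y), ENNReal.ofReal (U x)) := by
        rw [← mul_assoc, ← ENNReal.ofReal_mul (by positivity), inv_mul_cancel₀ hκ0.ne',
          ENNReal.ofReal_one, one_mul]
    _ ≤ ENNReal.ofReal κ⁻¹ * (ENNReal.ofReal (1 / (2 * y)) *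
          (C0 * ∫⁻ x in Ioo (z - y) (z + y), ENNReal.ofReal (U x))) := by gcongr
    _ = ENNReal.ofReal (κ⁻¹ * (1 / (2 * y))) *
          (C0 * ∫⁻ x in Ioo (z - y) (z + y), ENNReal.ofReal (U x)) := by
        rw [ENNReal.ofReal_mul (by positivity), mul_assoc]
    _ ≤ ENNReal.ofReal (2 * a ^ q) *
          (C0 * ∫⁻ x in Ioo (z - y) (z + y), ENNReal.ofReal (U x)) := by gcongr
    _ = _ := by
        rw [ENNReal.ofReal_mul (by norm_num), ENNReal.ofReal_ofNat, ENNReal.coe_mul]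
        push_cast
        ring

end

end GStar954
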