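import Mathlib
import Pool.Agent.Helper954.GStar.Defs

set_option autoImplicit false
open MeasureTheory Filter Set Topology
open scoped ENNReal NNReal

namespace GStar954

noncomputable section

theorem s_pos (t : ℝ) {y : ℝ} (hy : 0 < y) : 0 < t ^ 2 + y ^ 2 := by positivity

theorem bd_aux (t y : ℝ) (hy : 0 < y) (A : ℝ) (hA : A ≤ 1 + y + 2 / y) :
    A / (t ^ 2 + y ^ 2) ≤ (1 + y + 2 / y) / (t ^ 2 + y ^ 2) :=
  div_le_div_of_nonneg_right hA (s_pos t hy).le

theorem goodK_K : GoodK K := by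
  refine ⟨?_, ?_, ?_⟩
  · show Measurable (fun p : ℝ × ℝ => p.2 / (Real.pi * (p.1 ^ 2 + p.2 ^ 2)))
    fun_prop
  · show ContinuousOn (fun p : ℝ × ℝ => p.2 / (Real.pi * (p.1 ^ 2 + p.2 ^ 2))) _
    refine ContinuousOn.div (by fun_prop) (by fun_prop) (fun p hp => ?_)
    have := s_pos p.1 (y := p.2) hp
    have := Real.pi_pos
    positivity
  · intro t y hy
    have hs := s_pos t hy
    have hpi := Real.pi_gt_three
    unfold K
    rw [abs_div, abs_of_pos hy, abs_of_pos (by positivity)]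
    refine le_trans ?_ (bd_aux t y hy y (by have : 0 < 2 / y := by positivity
                                            linarith))
    apply div_le_div_of_nonneg_left hy.le hs
    nlinarith

theorem goodK_K1 : GoodK K1 := by
  refine ⟨?_, ?_, ?_⟩
  · show Measurable (fun p : ℝ × ℝ => -(2 * p.1 * p.2) / (Real.pi * (p.1 ^ 2 + p.2 ^ 2) ^ 2))
    fun_prop
  · show ContinuousOn (fun p : ℝ × ℝ => -(2 * p.1 * p.2) / (Real.pi * (p.1 ^ 2 + p.2 ^ 2) ^ 2)) _
    refine ContinuousOn.div (by fun_prop) (by fun_prop) (fun p hp => ?_)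
    have := s_pos p.1 (y := p.2) hp
    have := Real.pi_pos
    positivity
  · intro t y hy
    have hs := s_pos t hy
    have hpi := Real.pi_gt_three
    unfold K1
    rw [abs_div, abs_of_pos (show 0 < Real.pi * (t ^ 2 + y ^ 2) ^ 2 by positivity)]
    refine le_trans ?_ (bd_aux t y hy 1 (by have : 0 < 2 / y := by positivity
                                            linarith))
    have h1 : |-(2 * t * y)| ≤ t ^ 2 + y ^ 2 := by
      rw [abs_le]
      constructor
      · nlinarith [sq_nonneg (t - y)]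
      · nlinarith [sq_nonneg (t + y)]
    rw [div_le_div_iff₀ (by positivity) hs, one_mul]
    calc |-(2 * t * y)| * (t ^ 2 + y ^ 2) ≤ (t ^ 2 + y ^ 2) * (t ^ 2 + y ^ 2) :=
          mul_le_mul_of_nonneg_right h1 hs.le
      _ = 1 * (t ^ 2 + y ^ 2) ^ 2 := by ring
      _ ≤ Real.pi * (t ^ 2 + y ^ 2) ^ 2 := by
          apply mul_le_mul_of_nonneg_right _ (by positivity)
          linarith

theorem goodK_K2 : GoodK K2 := by
  refine ⟨?_, ?_, ?_⟩
  · show Measurable (fun p : ℝ × ℝ => (p.1 ^ 2 - p.2 ^ 2) / (Real.pi * (p.1 ^ 2 + p.2 ^ 2) ^ 2))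
    fun_prop
  · show ContinuousOn (fun p : ℝ × ℝ => (p.1 ^ 2 - p.2 ^ 2) / (Real.pi * (p.1 ^ 2 + p.2 ^ 2) ^ 2)) _
    refine ContinuousOn.div (by fun_prop) (by fun_prop) (fun p hp => ?_)
    have := s_pos p.1 (y := p.2) hp
    have := Real.pi_pos
    positivity
  · intro t y hy
    have hs := s_pos t hy
    have hpi := Real.pi_gt_three
    unfold K2
    rw [abs_div, abs_of_pos (show 0 < Real.pi * (t ^ 2 + y ^ 2) ^ 2 by positivity)]
    refine le_trans ?_ (bd_aux t y hy 1 (by have : 0 < 2 / y := by positivity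
                                            linarith))
    have h1 : |t ^ 2 - y ^ 2| ≤ t ^ 2 + y ^ 2 := by
      rw [abs_le]
      constructor
      · nlinarith [sq_nonneg t]
      · nlinarith [sq_nonneg y]
    rw [div_le_div_iff₀ (by positivity) hs, one_mul]
    calc |t ^ 2 - y ^ 2| * (t ^ 2 + y ^ 2) ≤ (t ^ 2 + y ^ 2) * (t ^ 2 + y ^ 2) :=
          mul_le_mul_of_nonneg_right h1 hs.le
      _ = 1 * (t ^ 2 + y ^ 2) ^ 2 := by ring
      _ ≤ Real.pi * (t ^ 2 + y ^ 2) ^ 2 := by
          apply mul_le_mul_of_nonneg_right _ (by positivity)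
          linarith

theorem goodK_K11 : GoodK K11 := by
  refine ⟨?_, ?_, ?_⟩
  · show Measurable (fun p : ℝ × ℝ => (6 * p.1 ^ 2 * p.2 - 2 * p.2 ^ 3) /
      (Real.pi * (p.1 ^ 2 + p.2 ^ 2) ^ 3))
    fun_prop
  · show ContinuousOn (fun p : ℝ × ℝ => (6 * p.1 ^ 2 * p.2 - 2 * p.2 ^ 3) /
      (Real.pi * (p.1 ^ 2 + p.2 ^ 2) ^ 3)) _
    refine ContinuousOn.div (by fun_prop) (by fun_prop) (fun p hp => ?_)
    have := s_pos p.1 (y := p.2) hp
    have := Real.pi_pos
    positivity
  · intro t y hy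
    have hs := s_pos t hy
    have hpi := Real.pi_gt_three
    unfold K11
    rw [abs_div, abs_of_pos (show 0 < Real.pi * (t ^ 2 + y ^ 2) ^ 3 by positivity)]
    refine le_trans ?_ (bd_aux t y hy (2 / y) (by linarith))
    have h1 : |6 * t ^ 2 * y - 2 * y ^ 3| ≤ 6 * y * (t ^ 2 + y ^ 2) := by
      have h2 : 0 ≤ t ^ 2 * y := by positivity
      have h3 : 0 < y ^ 3 := by positivity
      rw [abs_le]
      constructor <;> nlinarith
    have h4 : y ^ 2 ≤ t ^ 2 + y ^ 2 := by nlinarith [sq_nonneg t]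
    calc |6 * t ^ 2 * y - 2 * y ^ 3| / (Real.pi * (t ^ 2 + y ^ 2) ^ 3)
        ≤ 6 * y * (t ^ 2 + y ^ 2) / (Real.pi * (t ^ 2 + y ^ 2) ^ 3) :=
          div_le_div_of_nonneg_right h1 (by positivity)
      _ = 6 * y / (Real.pi * (t ^ 2 + y ^ 2) ^ 2) := by
          field_simp
      _ ≤ 2 / y / (t ^ 2 + y ^ 2) := by
          rw [div_div, div_le_div_iff₀ (by positivity) (by positivity)]
          have h5 : 6 * y * (y * (t ^ 2 + y ^ 2)) = 6 * (y ^ 2 * (t ^ 2 + y ^ 2)) := by ring
          have h6 : y ^ 2 * (t ^ 2 + y ^ 2) ≤ (t ^ 2 + y ^ 2) * (t ^ 2 + y ^ 2) :=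
            mul_le_mul_of_nonneg_right h4 hs.le
          have h7 : 6 * ((t ^ 2 + y ^ 2) * (t ^ 2 + y ^ 2)) ≤ 2 * (Real.pi * (t ^ 2 + y ^ 2) ^ 2) := by
            have : 0 ≤ (t ^ 2 + y ^ 2) ^ 2 := by positivity
            nlinarith
          linarith

theorem K_dt (t y : ℝ) (hy : 0 < y) : HasDerivAt (fun s => K s y) (K1 t y) t := by
  have hs := s_pos t hy
  have hpi := Real.pi_pos
  have h1 : HasDerivAt (fun s : ℝ => Real.pi * (s ^ 2 + y ^ 2)) (Real.pi * (2 * t)) t := by
    have := ((hasDerivAt_pow 2 t).add_const (y ^ 2)).const_mul Real.pi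
    simpa using this
  have h2 := (hasDerivAt_const t y).div h1 (by positivity)
  unfold K K1
  refine h2.congr_deriv ?_
  field_simp
  ring

theorem K_dy (t y : ℝ) (hy : 0 < y) : HasDerivAt (fun s => K t s) (K2 t y) y := by
  have hs := s_pos t hy
  have hpi := Real.pi_pos
  have h1 : HasDerivAt (fun s : ℝ => Real.pi * (t ^ 2 + s ^ 2)) (Real.pi * (2 * y)) y := by
    have := ((hasDerivAt_pow 2 y).const_add (t ^ 2)).const_mul Real.pi
    simpa using this
  have h2 := (hasDerivAt_id y).div h1 (by positivity)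
  unfold K K2
  refine h2.congr_deriv ?_
  simp only [id]
  field_simp
  ring

theorem K1_dt (t y : ℝ) (hy : 0 < y) : HasDerivAt (fun s => K1 s y) (K11 t y) t := by
  have hs := s_pos t hy
  have hpi := Real.pi_pos
  have h1 : HasDerivAt (fun s : ℝ => Real.pi * (s ^ 2 + y ^ 2) ^ 2)
      (Real.pi * (2 * (t ^ 2 + y ^ 2) * (2 * t))) t := by
    have := (((hasDerivAt_pow 2 t).add_const (y ^ 2)).pow 2).const_mul Real.pi
    simpa using this
  have h3 : HasDerivAt (fun s : ℝ => -(2 * s * y)) (-(2 * y)) t := by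
    have h4 : HasDerivAt (fun s : ℝ => (-(2 * y)) * s) (-(2 * y) * 1) t :=
      (hasDerivAt_id t).const_mul (-(2 * y))
    rw [mul_one] at h4
    refine h4.congr_of_eventuallyEq (Filter.Eventually.of_forall fun s => ?_)
    show -(2 * s * y) = -(2 * y) * s
    ring
  have h2 := h3.div h1 (by positivity)
  unfold K1 K11
  refine h2.congr_deriv ?_
  field_simp
  ring

theorem K2_dy (t y : ℝ) (hy : 0 < y) : HasDerivAt (fun s => K2 t s) (-K11 t y) y := by
  have hs := s_pos t hy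
  have hpi := Real.pi_pos
  have h1 : HasDerivAt (fun s : ℝ => Real.pi * (t ^ 2 + s ^ 2) ^ 2)
      (Real.pi * (2 * (t ^ 2 + y ^ 2) * (2 * y))) y := by
    have := (((hasDerivAt_pow 2 y).const_add (t ^ 2)).pow 2).const_mul Real.pi
    simpa using this
  have h3 : HasDerivAt (fun s : ℝ => t ^ 2 - s ^ 2) (-(2 * y)) y := by
    have := (hasDerivAt_pow 2 y).const_sub (t ^ 2)
    simpa using this
  have h2 := h3.div h1 (by positivity)
  unfold K2 K11
  refine h2.congr_deriv ?_
  field_simp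
  ring

end

end GStar954
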