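import Mathlib
import Pool.Agent.Helper954.GStar.Defs

set_option autoImplicit false
open MeasureTheory Filter Set Topology
open scoped ENNReal NNReal

namespace GStar954

noncomputable section

/-- local uniform comparison of `1/((z-x)^2+y^2)` with `1/(1+x^2)` -/
theorem local_bound (z y : ℝ) (hy : 0 < y) : ∃ C : ℝ, 0 < C ∧ ∀ z' y' x : ℝ, |z' - z| ≤ 1 →
    |y' - y| ≤ y / 2 → (1 + y' + 2 / y') / ((z' - x) ^ 2 + y' ^ 2) ≤ C / (1 + x ^ 2) := by
  set M : ℝ := 1 + 2 * (|z| + 1) ^ 2 with hM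
  have hMpos : 0 < M := by positivity
  refine ⟨(1 + 3 * y / 2 + 4 / y) * (2 + M * (4 / y ^ 2)), by positivity, ?_⟩
  intro z' y' x hz' hy'
  rw [abs_le] at hy'
  have hy1 : y / 2 ≤ y' := by linarith [hy'.1]
  have hy2 : y' ≤ 3 * y / 2 := by linarith [hy'.2]
  have hy0 : 0 < y' := by linarith
  have h1 : 1 + y' + 2 / y' ≤ 1 + 3 * y / 2 + 4 / y := by
    have : 2 / y' ≤ 4 / y := by
      rw [div_le_div_iff₀ hy0 hy]; linarith
    linarith
  have hzb : z' ^ 2 ≤ (|z| + 1) ^ 2 := by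
    rw [← sq_abs z']
    apply pow_le_pow_left₀ (abs_nonneg _)
    have := abs_sub_abs_le_abs_sub z' z
    linarith
  have hyy : 1 ≤ 4 / y ^ 2 * y' ^ 2 := by
    rw [div_mul_eq_mul_div, le_div_iff₀ (by positivity)]
    nlinarith
  have h2 : 1 + x ^ 2 ≤ (2 + M * (4 / y ^ 2)) * ((z' - x) ^ 2 + y' ^ 2) := by
    have h3 : x ^ 2 ≤ 2 * (z' - x) ^ 2 + 2 * z' ^ 2 := by nlinarith [sq_nonneg (x - 2 * z')]
    have h4 : M ≤ M * (4 / y ^ 2 * y' ^ 2) := le_mul_of_one_le_right hMpos.le hyy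
    have h5 : 0 ≤ M * (4 / y ^ 2) * (z' - x) ^ 2 := by positivity
    have h6 : 0 ≤ 2 * y' ^ 2 := by positivity
    have h7 : (2 + M * (4 / y ^ 2)) * ((z' - x) ^ 2 + y' ^ 2) =
      2 * (z' - x) ^ 2 + M * (4 / y ^ 2 * y' ^ 2) + M * (4 / y ^ 2) * (z' - x) ^ 2 + 2 * y' ^ 2 := by
      ring
    rw [h7]
    linarith
  rw [div_le_div_iff₀ (by positivity) (by positivity)]
  calc (1 + y' + 2 / y') * (1 + x ^ 2)
      ≤ (1 + 3 * y / 2 + 4 / y) * ((2 + M * (4 / y ^ 2)) * ((z' - x) ^ 2 + y' ^ 2)) := by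
        apply mul_le_mul h1 h2 (by positivity) (by positivity)
    _ = _ := by ring

theorem dom_bound (z y : ℝ) (hy : 0 < y) : ∃ C : ℝ, 0 < C ∧ ∀ k : ℝ → ℝ → ℝ, GoodK k →
    ∀ (f : ℝ → ℝ) (z' y' x : ℝ), |z' - z| ≤ 1 → |y' - y| ≤ y / 2 →
      ‖k (z' - x) y' * f x‖ ≤ C * ‖f x / (1 + x ^ 2)‖ := by
  obtain ⟨C, hC, h⟩ := local_bound z y hy
  refine ⟨C, hC, ?_⟩
  intro k hk f z' y' x hz' hy'
  have hy0 : 0 < y' := by
    rw [abs_le] at hy'
    linarith [hy'.1]
  have h1 := hk.bd (z' - x) y' hy0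
  have h2 := h z' y' x hz' hy'
  rw [norm_mul, norm_div, Real.norm_eq_abs, Real.norm_eq_abs, Real.norm_eq_abs,
    abs_of_pos (by positivity : (0:ℝ) < 1 + x ^ 2)]
  calc |k (z' - x) y'| * |f x| ≤ (C / (1 + x ^ 2)) * |f x| :=
        mul_le_mul_of_nonneg_right (h1.trans h2) (abs_nonneg _)
    _ = C * (|f x| / (1 + x ^ 2)) := by ring

theorem cv_meas (k : ℝ → ℝ → ℝ) (hk : GoodK k) (f : ℝ → ℝ) (hf : Measurable f) (z y : ℝ) :
    AEStronglyMeasurable (fun x => k (z - x) y * f x) volume := by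
  have h1 : Measurable (fun x : ℝ => k (z - x) y) :=
    hk.meas.comp (Measurable.prodMk (measurable_const.sub measurable_id) measurable_const)
  exact (h1.mul hf).aestronglyMeasurable

theorem cv_integrable (k : ℝ → ℝ → ℝ) (hk : GoodK k) (f : ℝ → ℝ) (hf : Measurable f)
    (hfi : Integrable (fun x => f x / (1 + x ^ 2))) (z y : ℝ) (hy : 0 < y) :
    Integrable (fun x => k (z - x) y * f x) := by
  obtain ⟨C, hC, h⟩ := dom_bound z y hy
  refine Integrable.mono' (hfi.norm.const_mul C) (cv_meas k hk f hf z y) ?_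
  exact Eventually.of_forall (fun x => h k hk f z y x (by simp) (by simp; positivity))

theorem cv_continuous (k : ℝ → ℝ → ℝ) (hk : GoodK k) (f : ℝ → ℝ) (hf : Measurable f)
    (hfi : Integrable (fun x => f x / (1 + x ^ 2))) :
    ContinuousOn (fun p : ℝ × ℝ => cv k f p.1 p.2) {p : ℝ × ℝ | 0 < p.2} := by
  intro p hp
  have hp' : 0 < p.2 := hp
  apply ContinuousAt.continuousWithinAt
  obtain ⟨C, hC, h⟩ := dom_bound p.1 p.2 hp'
  have hev : ∀ᶠ q : ℝ × ℝ in 𝓝 p, |q.1 - p.1| ≤ 1 ∧ |q.2 - p.2| ≤ p.2 / 2 := by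
    have h1 : ∀ᶠ q : ℝ × ℝ in 𝓝 p, dist q p < min 1 (p.2 / 2) :=
      Metric.ball_mem_nhds p (lt_min one_pos (by positivity))
    filter_upwards [h1] with q hq
    have h2 : |q.1 - p.1| ≤ dist q p := by
      rw [← Real.dist_eq]; exact le_max_left _ _
    have h3 : |q.2 - p.2| ≤ dist q p := by
      rw [← Real.dist_eq]; exact le_max_right _ _
    have h4 := lt_min_iff.1 hq
    exact ⟨by linarith [h4.1], by linarith [h4.2]⟩
  unfold cv
  refine continuousAt_of_dominated (bound := fun x => C * ‖f x / (1 + x ^ 2)‖) ?_ ?_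
    (hfi.norm.const_mul C) ?_
  · exact Eventually.of_forall (fun q => cv_meas k hk f hf q.1 q.2)
  · filter_upwards [hev] with q hq
    exact Eventually.of_forall (fun x => h k hk f q.1 q.2 x hq.1 hq.2)
  · refine Eventually.of_forall (fun x => ?_)
    have hopen : IsOpen {p : ℝ × ℝ | 0 < p.2} := isOpen_lt continuous_const continuous_snd
    have h5 : ContinuousAt (Function.uncurry k) (p.1 - x, p.2) :=
      hk.cont.continuousAt (hopen.mem_nhds (by exact hp'))
    have h6 : ContinuousAt (fun q : ℝ × ℝ => ((q.1 - x, q.2) : ℝ × ℝ)) p := by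
      fun_prop
    have h7 : ContinuousAt (fun q : ℝ × ℝ => Function.uncurry k (q.1 - x, q.2)) p :=
      ContinuousAt.comp (f := fun q : ℝ × ℝ => ((q.1 - x, q.2) : ℝ × ℝ)) h5 h6
    exact h7.mul continuousAt_const

theorem cv_deriv_z (k k1 : ℝ → ℝ → ℝ) (hk : GoodK k) (hk1 : GoodK k1)
    (hd : ∀ t y : ℝ, 0 < y → HasDerivAt (fun s => k s y) (k1 t y) t) (f : ℝ → ℝ)
    (hf : Measurable f) (hfi : Integrable (fun x => f x / (1 + x ^ 2))) (z y : ℝ) (hy : 0 < y) :
    HasDerivAt (fun s => cv k f s y) (cv k1 f z y) z := by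
  obtain ⟨C, hC, h⟩ := dom_bound z y hy
  unfold cv
  refine (hasDerivAt_integral_of_dominated_loc_of_deriv_le (s := Metric.ball z 1)
    (F := fun s x => k (s - x) y * f x) (F' := fun s x => k1 (s - x) y * f x)
    (bound := fun x => C * ‖f x / (1 + x ^ 2)‖) (Metric.ball_mem_nhds z one_pos) ?_ ?_ ?_ ?_
    (hfi.norm.const_mul C) ?_).2
  · exact Eventually.of_forall (fun s => cv_meas k hk f hf s y)
  · exact cv_integrable k hk f hf hfi z y hy
  · exact cv_meas k1 hk1 f hf z y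
  · refine Eventually.of_forall (fun x s hs => h k1 hk1 f s y x ?_ (by simp; positivity))
    rw [Metric.mem_ball, Real.dist_eq] at hs
    exact hs.le
  · refine Eventually.of_forall (fun x s hs => ?_)
    have h1 : HasDerivAt (fun s : ℝ => s - x) 1 s := (hasDerivAt_id s).sub_const x
    have h2 := (hd (s - x) y hy).comp s h1
    have h3 := h2.mul_const (f x)
    simpa [Function.comp_def] using h3

theorem cv_deriv_y (k k2 : ℝ → ℝ → ℝ) (hk : GoodK k) (hk2 : GoodK k2)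
    (hd : ∀ t y : ℝ, 0 < y → HasDerivAt (fun s => k t s) (k2 t y) y) (f : ℝ → ℝ)
    (hf : Measurable f) (hfi : Integrable (fun x => f x / (1 + x ^ 2))) (z y : ℝ) (hy : 0 < y) :
    HasDerivAt (fun s => cv k f z s) (cv k2 f z y) y := by
  obtain ⟨C, hC, h⟩ := dom_bound z y hy
  unfold cv
  refine (hasDerivAt_integral_of_dominated_loc_of_deriv_le (s := Metric.ball y (y / 2))
    (F := fun s x => k (z - x) s * f x) (F' := fun s x => k2 (z - x) s * f x)
    (bound := fun x => C * ‖f x / (1 + x ^ 2)‖) (Metric.ball_mem_nhds y (by positivity)) ?_ ?_ ?_ ?_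
    (hfi.norm.const_mul C) ?_).2
  · exact Eventually.of_forall (fun s => cv_meas k hk f hf z s)
  · exact cv_integrable k hk f hf hfi z y hy
  · exact cv_meas k2 hk2 f hf z y
  · refine Eventually.of_forall (fun x s hs => h k2 hk2 f z s x (by simp) ?_)
    rw [Metric.mem_ball, Real.dist_eq] at hs
    exact hs.le
  · refine Eventually.of_forall (fun x s hs => ?_)
    have hs0 : 0 < s := by
      rw [Metric.mem_ball, Real.dist_eq, abs_lt] at hs
      linarith [hs.1]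
    exact (hd (z - x) s hs0).mul_const (f x)

end

end GStar954
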