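import Mathlib
import Pool.Agent.Helper954.GStar.Defs

set_option autoImplicit false
open MeasureTheory Filter Set Topology
open scoped ENNReal NNReal

namespace GStar954

noncomputable section

theorem Gv_bounds (V W : ℝ) (hV : 0 < V) (hW : 0 < W) (h1 : 1 ≤ V * W) :
    V / 2 ≤ Gv V W ∧ Gv V W ≤ V := by
  unfold Gv
  have hD : 0 < 2 * (V * W ^ 2) := by positivity
  have hpos : 0 ≤ 1 / (2 * (V * W ^ 2)) := by positivity
  have hle : 1 / (2 * (V * W ^ 2)) ≤ V / 2 := by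
    rw [div_le_div_iff₀ hD (by norm_num)]
    have h2 : 1 ≤ (V * W) ^ 2 := by nlinarith
    nlinarith
  constructor <;> linarith

theorem Gv_hasDeriv (V W : ℝ → ℝ) (V1 W1 s : ℝ)
    (hV : HasDerivAt V V1 s) (hW : HasDerivAt W W1 s) (V0 : 0 < V s) (W0 : 0 < W s) :
    HasDerivAt (fun t => Gv (V t) (W t)) (Gd (V s) V1 (W s) W1) s := by
  unfold Gv Gd
  have hV0 : V s ≠ 0 := V0.ne'
  have hW0 : W s ≠ 0 := W0.ne'
  have h1 : HasDerivAt (fun t => 2 * (V t * W t ^ 2))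
      (2 * (V1 * W s ^ 2 + V s * (((2 : ℕ) : ℝ) * W s ^ (2 - 1) * W1))) s :=
    (hV.mul (hW.pow 2)).const_mul 2
  have h2 : HasDerivAt (fun t => V t - 1 / (2 * (V t * W t ^ 2)))
      (V1 - (0 * (2 * (V s * W s ^ 2)) -
        1 * (2 * (V1 * W s ^ 2 + V s * (((2 : ℕ) : ℝ) * W s ^ (2 - 1) * W1)))) /
          (2 * (V s * W s ^ 2)) ^ 2) s :=
    hV.sub ((hasDerivAt_const s (1 : ℝ)).div h1 (by positivity))
  refine h2.congr_deriv ?_
  field_simp
  ring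

theorem Gd_hasDeriv (V V' W W' : ℝ → ℝ) (V2 W2 s : ℝ)
    (hV : HasDerivAt V (V' s) s) (hV' : HasDerivAt V' V2 s)
    (hW : HasDerivAt W (W' s) s) (hW' : HasDerivAt W' W2 s) (V0 : 0 < V s) (W0 : 0 < W s) :
    HasDerivAt (fun t => Gd (V t) (V' t) (W t) (W' t))
      (Gdd (V s) (V' s) V2 (W s) (W' s) W2) s := by
  unfold Gd Gdd
  have hV0 : V s ≠ 0 := V0.ne'
  have hW0 : W s ≠ 0 := W0.ne'
  have h1 : HasDerivAt (fun t => 2 * (V t * W t ^ 2))
      (2 * (V' s * W s ^ 2 + V s * (((2 : ℕ) : ℝ) * W s ^ (2 - 1) * W' s))) s :=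
    (hV.mul (hW.pow 2)).const_mul 2
  have hA : HasDerivAt (fun t => V' t / V t) ((V2 * V s - V' s * V' s) / V s ^ 2) s :=
    hV'.div hV hV0
  have hB : HasDerivAt (fun t => W' t / W t) ((W2 * W s - W' s * W' s) / W s ^ 2) s :=
    hW'.div hW hW0
  have h2 : HasDerivAt (fun t => V' t / V t + 2 * (W' t / W t))
      ((V2 * V s - V' s * V' s) / V s ^ 2 + 2 * ((W2 * W s - W' s * W' s) / W s ^ 2)) s :=
    hA.add (hB.const_mul 2)
  have h3 := hV'.add (h2.div h1 (by positivity))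
  refine h3.congr_deriv ?_
  field_simp
  ring

theorem quot_hasDeriv (u G : ℝ → ℝ) (u1 G1 s : ℝ) (hu : HasDerivAt u u1 s)
    (hG : HasDerivAt G G1 s) (G0 : G s ≠ 0) :
    HasDerivAt (fun t => u t ^ 2 / G t)
      (2 * u s * u1 / G s - u s ^ 2 * G1 / (G s) ^ 2) s := by
  have h := (hu.pow 2).div hG G0
  refine h.congr_deriv ?_
  simp only [Pi.pow_apply]
  field_simp
  norm_num
  try ring

theorem quot2_hasDeriv (u u' G G' : ℝ → ℝ) (u2 G2 s : ℝ) (hu : HasDerivAt u (u' s) s)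
    (hu' : HasDerivAt u' u2 s)
    (hG : HasDerivAt G (G' s) s) (hG' : HasDerivAt G' G2 s) (G0 : G s ≠ 0) :
    HasDerivAt (fun t => 2 * u t * u' t / G t - u t ^ 2 * G' t / (G t) ^ 2)
      (2 * (u' s ^ 2 + u s * u2) / G s - 4 * u s * u' s * G' s / (G s) ^ 2 +
    2 * u s ^ 2 * (G' s) ^ 2 / (G s) ^ 3 -
    u s ^ 2 * G2 / (G s) ^ 2) s := by
  have h := (((hu.const_mul 2).mul hu').div hG G0).sub
    (((hu.pow 2).mul hG').div (hG.pow 2) (by simpa using G0))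
  refine h.congr_deriv ?_
  simp only [Pi.pow_apply, Pi.mul_apply]
  field_simp
  norm_num
  try ring

theorem Ps_deriv (u V W : ℝ → ℝ) (u1 V1 W1 s : ℝ) (hu : HasDerivAt u u1 s)
    (hV : HasDerivAt V V1 s) (hW : HasDerivAt W W1 s) (V0 : 0 < V s) (W0 : 0 < W s)
    (h1 : 1 ≤ V s * W s) :
    HasDerivAt (fun t => Ps (u t) (V t) (W t)) (Psd (u s) u1 (V s) V1 (W s) W1) s := by
  have hb := Gv_bounds (V s) (W s) V0 W0 h1
  have hG := Gv_hasDeriv V W V1 W1 s hV hW V0 W0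
  have hG0 : Gv (V s) (W s) ≠ 0 := by
    have : 0 < Gv (V s) (W s) := by linarith [hb.1]
    exact this.ne'
  exact quot_hasDeriv u (fun t => Gv (V t) (W t)) u1 _ s hu hG hG0

theorem Psd_deriv (u u' V V' W W' : ℝ → ℝ) (u2 V2 W2 s : ℝ) (hu : HasDerivAt u (u' s) s)
    (hu' : HasDerivAt u' u2 s) (hV : HasDerivAt V (V' s) s) (hV' : HasDerivAt V' V2 s)
    (hW : HasDerivAt W (W' s) s) (hW' : HasDerivAt W' W2 s) (V0 : 0 < V s) (W0 : 0 < W s)
    (h1 : 1 ≤ V s * W s) :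
    HasDerivAt (fun t => Psd (u t) (u' t) (V t) (V' t) (W t) (W' t))
      (Psdd (u s) (u' s) u2 (V s) (V' s) V2 (W s) (W' s) W2) s := by
  have hb := Gv_bounds (V s) (W s) V0 W0 h1
  have hG := Gv_hasDeriv V W (V' s) (W' s) s hV hW V0 W0
  have hGd := Gd_hasDeriv V V' W W' V2 W2 s hV hV' hW hW' V0 W0
  have hG0 : Gv (V s) (W s) ≠ 0 := by
    have : 0 < Gv (V s) (W s) := by linarith [hb.1]
    exact this.ne'
  exact quot2_hasDeriv u u' (fun t => Gv (V t) (W t))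
    (fun t => Gd (V t) (V' t) (W t) (W' t)) u2 _ s hu hu' hG hGd hG0

end

end GStar954
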