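import Mathlib
import Pool.Agent.Helper954.GStar.Defs

set_option autoImplicit false
open MeasureTheory Filter Set Topology
open scoped ENNReal NNReal

namespace GStar954

noncomputable section

theorem Psdd_dir (Q V F G A B a h : ℝ) (hV : 0 < V) (hF : 0 < F) (hFV : F ≤ V)
    (hFQ : V ≤ Q ^ 2 * F) (hG : G = V - F / 2) (hQ1 : 1 ≤ Q) :
    a ^ 2 / V ≤ 8 * Q ^ 2 * ((2 / G) * (a - h * (V * A + F / 2 * (A + 2 * B))) ^ 2
      + h ^ 2 * (F / 2 * ((A + 2 * B) ^ 2 + A ^ 2 + 2 * B ^ 2))) := by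
  obtain ⟨G', hG'⟩ : ∃ G', G' = V * A + F / 2 * (A + 2 * B) := ⟨_, rfl⟩
  obtain ⟨Nn, hNn⟩ : ∃ Nn, Nn = F / 2 * ((A + 2 * B) ^ 2 + A ^ 2 + 2 * B ^ 2) := ⟨_, rfl⟩
  rw [← hG', ← hNn]
  obtain ⟨δ, hδ⟩ : ∃ δ, δ = a - h * G' := ⟨_, rfl⟩
  rw [← hδ]
  have hGpos : 0 < G := by rw [hG]; linarith
  have hGV : G ≤ V := by rw [hG]; linarith
  have hQ2 : 1 ≤ Q ^ 2 := by nlinarith
  have hN0 : 0 ≤ Nn := by rw [hNn]; positivity
  obtain ⟨E, hE⟩ : ∃ E, E = A ^ 2 + (A + 2 * B) ^ 2 := ⟨_, rfl⟩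
  have hE0 : 0 ≤ E := by rw [hE]; positivity
  have h1 : V * E ≤ 2 * Q ^ 2 * Nn := by
    have e1 : V * E ≤ Q ^ 2 * F * E := mul_le_mul_of_nonneg_right hFQ hE0
    have e2 : F * E ≤ 2 * Nn := by
      rw [hE, hNn]
      nlinarith [mul_nonneg hF.le (sq_nonneg B)]
    have e3 : Q ^ 2 * (F * E) ≤ Q ^ 2 * (2 * Nn) := mul_le_mul_of_nonneg_left e2 (by positivity)
    linarith
  have h2 : G' ^ 2 ≤ 2 * V ^ 2 * E := by
    have e1 : G' ^ 2 ≤ 2 * (V * A) ^ 2 + 2 * (F / 2 * (A + 2 * B)) ^ 2 := by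
      rw [hG']
      nlinarith [sq_nonneg (V * A - F / 2 * (A + 2 * B))]
    have e2 : F ^ 2 ≤ V ^ 2 := by nlinarith
    have e3 : 2 * (F / 2 * (A + 2 * B)) ^ 2 = F ^ 2 * (A + 2 * B) ^ 2 / 2 := by ring
    have e4 : F ^ 2 * (A + 2 * B) ^ 2 ≤ V ^ 2 * (A + 2 * B) ^ 2 :=
      mul_le_mul_of_nonneg_right e2 (sq_nonneg _)
    have e5 : 0 ≤ V ^ 2 * (A + 2 * B) ^ 2 := by positivity
    rw [hE]
    nlinarith
  have h3 : G' ^ 2 ≤ 4 * Q ^ 2 * V * Nn := by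
    have e1 : 2 * V * (V * E) ≤ 2 * V * (2 * Q ^ 2 * Nn) :=
      mul_le_mul_of_nonneg_left h1 (by positivity)
    nlinarith
  have h4 : a ^ 2 ≤ 2 * δ ^ 2 + 2 * h ^ 2 * G' ^ 2 := by
    have e1 : a = δ + h * G' := by rw [hδ]; ring
    rw [e1]
    nlinarith [sq_nonneg (δ - h * G')]
  have h5 : a ^ 2 ≤ 2 * δ ^ 2 + 8 * Q ^ 2 * h ^ 2 * V * Nn := by
    have e1 : 2 * h ^ 2 * G' ^ 2 ≤ 2 * h ^ 2 * (4 * Q ^ 2 * V * Nn) :=
      mul_le_mul_of_nonneg_left h3 (by positivity)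
    nlinarith
  have h6 : a ^ 2 / V ≤ 2 * δ ^ 2 / V + 8 * Q ^ 2 * h ^ 2 * Nn := by
    rw [div_le_iff₀ hV]
    have e1 : (2 * δ ^ 2 / V + 8 * Q ^ 2 * h ^ 2 * Nn) * V
        = 2 * δ ^ 2 + 8 * Q ^ 2 * h ^ 2 * V * Nn := by
      field_simp
    rw [e1]
    exact h5
  have h7 : 2 * δ ^ 2 / V ≤ 2 * δ ^ 2 / G :=
    div_le_div_of_nonneg_left (by positivity) hGpos hGV
  have h8 : 2 * δ ^ 2 / G ≤ 8 * Q ^ 2 * (2 * δ ^ 2 / G) := by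
    have e1 : 0 ≤ 2 * δ ^ 2 / G := by positivity
    nlinarith
  have h9 : 8 * Q ^ 2 * ((2 / G) * δ ^ 2 + h ^ 2 * Nn)
      = 8 * Q ^ 2 * (2 * δ ^ 2 / G) + 8 * Q ^ 2 * h ^ 2 * Nn := by ring
  rw [h9]
  linarith

theorem Psdd_id (u a a2 V b b2 W c c2 : ℝ) (hV : V ≠ 0) (hW : W ≠ 0) (hG : Gv V W ≠ 0) :
    Psdd u a a2 V b b2 W c c2 =
      ((2 / Gv V W) * (a - (u / Gv V W) * (V * (b / V)
        + (1 / (V * W ^ 2)) / 2 * ((b / V) + 2 * (c / W)))) ^ 2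
      + (u / Gv V W) ^ 2 * ((1 / (V * W ^ 2)) / 2 *
        (((b / V) + 2 * (c / W)) ^ 2 + (b / V) ^ 2 + 2 * (c / W) ^ 2)))
      + (2 * u * a2 / Gv V W - (u ^ 2 / Gv V W ^ 2)
        * (b2 + (1 / (V * W ^ 2)) / 2 * (b2 / V + 2 * (c2 / W)))) := by
  unfold Psdd Gd Gdd
  generalize Gv V W = G at hG ⊢
  have e1 : V * (b / V) = b := by field_simp
  rw [e1]
  have e2 : ∀ x : ℝ, x / (2 * (V * W ^ 2)) = 1 / (V * W ^ 2) / 2 * x := by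
    intro x; field_simp
  simp only [e2]
  generalize 1 / (V * W ^ 2) = F
  generalize b / V = A
  generalize c / W = B
  generalize b2 / V = A2
  generalize c2 / W = B2
  field_simp
  ring

theorem Psdd_lower (Q u a a' a2 V b b' b2 W c c' c2 : ℝ) (hV : 0 < V) (hW : 0 < W)
    (h1 : 1 ≤ V * W) (hQ : V * W ≤ Q) :
    (a ^ 2 + a' ^ 2) / V ≤ 8 * Q ^ 2 *
      (Psdd u a a2 V b b2 W c c2 + Psdd u a' (-a2) V b' (-b2) W c' (-c2)) := by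
  have hQpos : 1 ≤ Q := h1.trans hQ
  obtain ⟨F, hF⟩ : ∃ F, F = 1 / (V * W ^ 2) := ⟨_, rfl⟩
  have hFpos : 0 < F := by rw [hF]; positivity
  have hFV : F ≤ V := by
    rw [hF, div_le_iff₀ (by positivity)]
    have : V * (V * W ^ 2) = (V * W) ^ 2 := by ring
    rw [this]
    nlinarith
  have hFQ : V ≤ Q ^ 2 * F := by
    rw [hF]
    have e1 : Q ^ 2 * (1 / (V * W ^ 2)) = Q ^ 2 / (V * W ^ 2) := by ring
    rw [e1, le_div_iff₀ (by positivity)]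
    have : V * (V * W ^ 2) = (V * W) ^ 2 := by ring
    rw [this]
    exact pow_le_pow_left₀ (by positivity) hQ 2
  have hG : Gv V W = V - F / 2 := by
    unfold Gv
    rw [hF]
    have : 1 / (2 * (V * W ^ 2)) = 1 / (V * W ^ 2) / 2 := by field_simp
    rw [this]
  have hGpos : 0 < Gv V W := by rw [hG]; linarith
  have d1 := Psdd_dir Q V F (Gv V W) (b / V) (c / W) a (u / Gv V W) hV hFpos hFV hFQ hG hQpos
  have d2 := Psdd_dir Q V F (Gv V W) (b' / V) (c' / W) a' (u / Gv V W) hV hFpos hFV hFQ hG hQpos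
  rw [Psdd_id u a a2 V b b2 W c c2 hV.ne' hW.ne' hGpos.ne',
    Psdd_id u a' (-a2) V b' (-b2) W c' (-c2) hV.ne' hW.ne' hGpos.ne', ← hF]
  have e0 : (a ^ 2 + a' ^ 2) / V = a ^ 2 / V + a' ^ 2 / V := add_div _ _ _
  rw [e0]
  refine (add_le_add d1 d2).trans (le_of_eq ?_)
  ring

end

end GStar954
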