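import Mathlib
import Pool.Agent.Helper954.GStar.Defs

set_option autoImplicit false
open MeasureTheory Filter Set Topology
open scoped ENNReal NNReal

namespace GStar954

noncomputable section

theorem parts_z (N : ℝ) (hN : 0 < N) (g g1 g2 : ℝ → ℝ) (h1 : ∀ z, HasDerivAt g (g1 z) z)
    (h2 : ∀ z, HasDerivAt g1 (g2 z) z) (hc : Continuous g2) :
    ∫ z in (-N)..N, (1 - (z / N) ^ 2) ^ 3 * g2 z =
      ∫ z in (-N)..N, 6 / N ^ 2 * ((1 - (z / N) ^ 2) * (5 * (z / N) ^ 2 - 1)) * g z := by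
  have hN0 : N ≠ 0 := hN.ne'
  have hgc : Continuous g := continuous_iff_continuousAt.mpr fun z => (h1 z).continuousAt
  have hd : ∀ z, HasDerivAt (fun z => (1 - (z / N) ^ 2) ^ 3 * g1 z -
      (-(6 * z / N ^ 2) * (1 - (z / N) ^ 2) ^ 2) * g z)
      ((1 - (z / N) ^ 2) ^ 3 * g2 z -
        6 / N ^ 2 * ((1 - (z / N) ^ 2) * (5 * (z / N) ^ 2 - 1)) * g z) z := by
    intro z
    have e0 : HasDerivAt (fun z : ℝ => 1 - (z / N) ^ 2) (-(2 * (z / N) * (1 / N))) z := by
      have := (((hasDerivAt_id z).div_const N).pow 2).const_sub 1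
      refine this.congr_deriv ?_
      simp
    have e1 : HasDerivAt (fun z : ℝ => (1 - (z / N) ^ 2) ^ 3)
        (3 * (1 - (z / N) ^ 2) ^ 2 * (-(2 * (z / N) * (1 / N)))) z := by
      refine (e0.pow 3).congr_deriv ?_
      simp
    have e2 : HasDerivAt (fun z : ℝ => (1 - (z / N) ^ 2) ^ 2)
        (2 * (1 - (z / N) ^ 2) * (-(2 * (z / N) * (1 / N)))) z := by
      refine (e0.pow 2).congr_deriv ?_
      simp
    have e3 : HasDerivAt (fun z : ℝ => -(6 * z / N ^ 2)) (-(6 / N ^ 2)) z := by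
      have := (((hasDerivAt_id z).const_mul 6).div_const (N ^ 2)).neg
      refine this.congr_deriv ?_
      simp
    have e4 := (e1.mul (h2 z)).sub ((e3.mul e2).mul (h1 z))
    refine e4.congr_deriv ?_
    simp only [Pi.mul_apply]
    field_simp
    ring
  have hc1 : Continuous fun z : ℝ => (1 - (z / N) ^ 2) ^ 3 * g2 z :=
    (by fun_prop : Continuous fun z : ℝ => (1 - (z / N) ^ 2) ^ 3).mul hc
  have hc2 : Continuous fun z : ℝ =>
      6 / N ^ 2 * ((1 - (z / N) ^ 2) * (5 * (z / N) ^ 2 - 1)) * g z :=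
    (by fun_prop : Continuous fun z : ℝ =>
      6 / N ^ 2 * ((1 - (z / N) ^ 2) * (5 * (z / N) ^ 2 - 1))).mul hgc
  have h3 := intervalIntegral.integral_eq_sub_of_hasDerivAt (a := -N) (b := N)
    (fun z _ => hd z) ((hc1.sub hc2).intervalIntegrable _ _)
  rw [intervalIntegral.integral_sub (hc1.intervalIntegrable _ _) (hc2.intervalIntegrable _ _)] at h3
  have e1 : N / N = 1 := div_self hN0
  have e2 : -N / N = -1 := by rw [neg_div, e1]
  simp only [e1, e2] at h3
  norm_num at h3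
  linarith

theorem parts_y (ε R : ℝ) (hε : 0 < ε) (hR : 0 < R) (g g1 g2 : ℝ → ℝ)
    (h1 : ∀ y, 0 < y → HasDerivAt g (g1 y) y) (h2 : ∀ y, 0 < y → HasDerivAt g1 (g2 y) y)
    (hc : ContinuousOn g2 (Ioi 0)) :
    ∫ y in ε..(ε + 2 * R), min (y - ε) (ε + 2 * R - y) * g2 y =
      g ε + g (ε + 2 * R) - 2 * g (ε + R) := by
  have hs1 : uIcc ε (ε + R) ⊆ Ioi (0 : ℝ) := by
    rw [uIcc_of_le (by linarith)]
    intro y hy
    exact lt_of_lt_of_le hε hy.1
  have hs2 : uIcc (ε + R) (ε + 2 * R) ⊆ Ioi (0 : ℝ) := by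
    rw [uIcc_of_le (by linarith)]
    intro y hy
    have h0 : ε + R ≤ y := hy.1
    change 0 < y
    linarith
  have hi : ∀ (f : ℝ → ℝ), Continuous f → ∀ a b : ℝ, uIcc a b ⊆ Ioi (0 : ℝ) →
      IntervalIntegrable (fun y => f y * g2 y) volume a b := by
    intro f hf a b hab
    exact (hf.continuousOn.mul (hc.mono hab)).intervalIntegrable
  have hmin : Continuous fun y : ℝ => min (y - ε) (ε + 2 * R - y) := by fun_prop
  rw [← intervalIntegral.integral_add_adjacent_intervals (hi _ hmin _ _ hs1) (hi _ hmin _ _ hs2)]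
  have e1 : ∫ y in ε..(ε + R), min (y - ε) (ε + 2 * R - y) * g2 y =
      ∫ y in ε..(ε + R), (y - ε) * g2 y := by
    refine intervalIntegral.integral_congr (fun y hy => ?_)
    rw [uIcc_of_le (by linarith)] at hy
    have : min (y - ε) (ε + 2 * R - y) = y - ε := min_eq_left (by linarith [hy.1, hy.2])
    simp only [this]
  have e2 : ∫ y in (ε + R)..(ε + 2 * R), min (y - ε) (ε + 2 * R - y) * g2 y =
      ∫ y in (ε + R)..(ε + 2 * R), (ε + 2 * R - y) * g2 y := by
    refine intervalIntegral.integral_congr (fun y hy => ?_)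
    rw [uIcc_of_le (by linarith)] at hy
    have : min (y - ε) (ε + 2 * R - y) = ε + 2 * R - y := min_eq_right (by linarith [hy.1, hy.2])
    simp only [this]
  have e3 : ∫ y in ε..(ε + R), (y - ε) * g2 y =
      ((ε + R - ε) * g1 (ε + R) - g (ε + R)) - ((ε - ε) * g1 ε - g ε) := by
    refine intervalIntegral.integral_eq_sub_of_hasDerivAt
      (f := fun y => (y - ε) * g1 y - g y) (fun y hy => ?_)
      (hi _ (by fun_prop) _ _ hs1)
    have hy0 : 0 < y := hs1 hy
    have h3 : HasDerivAt (fun y : ℝ => y - ε) 1 y := (hasDerivAt_id y).sub_const ε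
    refine ((h3.mul (h2 y hy0)).sub (h1 y hy0)).congr_deriv ?_
    ring
  have e4 : ∫ y in (ε + R)..(ε + 2 * R), (ε + 2 * R - y) * g2 y =
      ((ε + 2 * R - (ε + 2 * R)) * g1 (ε + 2 * R) + g (ε + 2 * R)) -
        ((ε + 2 * R - (ε + R)) * g1 (ε + R) + g (ε + R)) := by
    refine intervalIntegral.integral_eq_sub_of_hasDerivAt
      (f := fun y => (ε + 2 * R - y) * g1 y + g y) (fun y hy => ?_)
      (hi _ (by fun_prop) _ _ hs2)
    have hy0 : 0 < y := hs2 hy
    have h3 : HasDerivAt (fun y : ℝ => ε + 2 * R - y) (-1) y :=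
      (hasDerivAt_id y).const_sub (ε + 2 * R)
    refine ((h3.mul (h2 y hy0)).add (h1 y hy0)).congr_deriv ?_
    ring
  rw [e1, e2, e3, e4]
  ring

end

end GStar954
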