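import Mathlib
import Pool.Agent.Helper954.GStar.Defs
import Pool.Agent.Helper954.GStar.C5a

set_option autoImplicit false
open MeasureTheory Filter Set Topology
open scoped ENNReal NNReal

namespace GStar954

noncomputable section

theorem box_int {A B : Set ℝ} (hA : IsCompact A) (hB : IsCompact B) (F : ℝ → ℝ → ℝ)
    (hF : ContinuousOn (fun p : ℝ × ℝ => F p.1 p.2) (A ×ˢ B)) :
    IntegrableOn (fun z => ∫ y in B, F z y) A ∧
    (∫ z in A, ∫ y in B, F z y = ∫ y in B, ∫ z in A, F z y) ∧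
    (∀ z ∈ A, IntegrableOn (fun y => F z y) B) := by
  have h1 : IntegrableOn (fun p : ℝ × ℝ => F p.1 p.2) (A ×ˢ B) (volume.prod volume) :=
    hF.integrableOn_compact (hA.prod hB)
  have h2 : Integrable (fun p : ℝ × ℝ => F p.1 p.2)
      ((volume.restrict A).prod (volume.restrict B)) := by
    rw [Measure.prod_restrict]
    exact h1
  refine ⟨h2.integral_prod_left, integral_integral_swap h2, ?_⟩
  intro z hz
  have h3 : ContinuousOn (fun y => F z y) B :=
    hF.comp (continuous_const.prodMk continuous_id).continuousOn fun y hy => ⟨hz, hy⟩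
  exact h3.integrableOn_compact hB

theorem box_swap_cont {A B : Set ℝ} (F : ℝ → ℝ → ℝ)
    (hF : ContinuousOn (fun p : ℝ × ℝ => F p.1 p.2) (A ×ˢ B)) :
    ContinuousOn (fun p : ℝ × ℝ => F p.2 p.1) (B ×ˢ A) :=
  hF.comp continuous_swap.continuousOn fun p hp => ⟨hp.2, hp.1⟩

theorem phi_int (ε R : ℝ) (hε : 0 < ε) (hR : 0 < R) :
    ∫ y in ε..(ε + 2 * R), min (y - ε) (ε + 2 * R - y) = R ^ 2 := by
  have h := parts_y ε R hε hR (fun y => y ^ 2 / 2) (fun y => y) (fun _ => 1)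
    (fun y _ => by
      have := (hasDerivAt_pow 2 y).div_const 2
      refine this.congr_deriv ?_
      push_cast
      ring) (fun y _ => hasDerivAt_id y) continuousOn_const
  simp only [mul_one] at h
  rw [h]
  ring

theorem psi_int {Ψ Ψz Ψy Ψzz Ψyy : ℝ → ℝ → ℝ} (h : SubH Ψ Ψz Ψy Ψzz Ψyy) (M : ℝ) (hM0 : 0 ≤ M)
    (hM : ∀ y : ℝ, 0 < y → ∫⁻ z, ENNReal.ofReal (Ψ z y) ≤ ENNReal.ofReal M)
    (N : ℝ) (y : ℝ) (hy : 0 < y) :
    IntegrableOn (fun z => Ψ z y) (Icc (-N) N) ∧ ∫ z in Icc (-N) N, Ψ z y ≤ M := by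
  have hc : Continuous (fun z => Ψ z y) :=
    continuous_iff_continuousAt.2 fun z => (h.dz z y hy).continuousAt
  have hi : IntegrableOn (fun z => Ψ z y) (Icc (-N) N) :=
    hc.continuousOn.integrableOn_compact isCompact_Icc
  refine ⟨hi, ?_⟩
  have h1 := ofReal_integral_eq_lintegral_ofReal hi
    (Eventually.of_forall fun z => h.nn z y hy)
  have h2 : ENNReal.ofReal (∫ z in Icc (-N) N, Ψ z y) ≤ ENNReal.ofReal M := by
    rw [h1]
    exact (setLIntegral_le_lintegral _ _).trans (hM y hy)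
  exact (ENNReal.ofReal_le_ofReal_iff hM0).1 h2

theorem chi_bd (N z : ℝ) (hz : z ∈ Icc (-N) N) (hN : 0 < N) :
    0 ≤ (1 - (z / N) ^ 2) ^ 3 ∧ (1 - (z / N) ^ 2) ^ 3 ≤ 1 := by
  have h1 : |z / N| ≤ 1 := by
    rw [abs_div, abs_of_pos hN, div_le_one hN]
    exact abs_le.2 hz
  have h2 : (z / N) ^ 2 ≤ 1 := by
    rw [← sq_abs]
    exact pow_le_one₀ (abs_nonneg _) h1
  have h3 : 0 ≤ (z / N) ^ 2 := sq_nonneg _
  exact ⟨pow_nonneg (by linarith) 3, pow_le_one₀ (by linarith) (by linarith)⟩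

theorem green_real {Ψ Ψz Ψy Ψzz Ψyy : ℝ → ℝ → ℝ} (h : SubH Ψ Ψz Ψy Ψzz Ψyy) (M : ℝ) (hM0 : 0 ≤ M)
    (hM : ∀ y : ℝ, 0 < y → ∫⁻ z, ENNReal.ofReal (Ψ z y) ≤ ENNReal.ofReal M)
    (ε R N : ℝ) (hε : 0 < ε) (hR : 0 < R) (hN : 0 < N) :
    ∫ z in Icc (-N) N, ∫ y in Icc ε (ε + 2 * R),
      ((1 - (z / N) ^ 2) ^ 3 * (min (y - ε) (ε + 2 * R - y) *
        (Ψzz z y + Ψyy z y))) ≤ (2 + 6 * R ^ 2 / N ^ 2) * M := by
  have hab : ε ≤ ε + 2 * R := by linarith
  have hNN : -N ≤ N := by linarith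
  have hsub : Icc (-N) N ×ˢ Icc ε (ε + 2 * R) ⊆ {p : ℝ × ℝ | 0 < p.2} := by
    rintro p ⟨_, hp⟩
    exact lt_of_lt_of_le hε hp.1
  have hchi : Continuous (fun p : ℝ × ℝ => (1 - (p.1 / N) ^ 2) ^ 3) := by fun_prop
  have hphi : Continuous (fun p : ℝ × ℝ => min (p.2 - ε) (ε + 2 * R - p.2)) := by fun_prop
  have hphi1 : Continuous (fun y : ℝ => min (y - ε) (ε + 2 * R - y)) := by fun_prop
  have hphi0 : ∀ y ∈ Icc ε (ε + 2 * R), 0 ≤ min (y - ε) (ε + 2 * R - y) := by
    intro y hy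
    exact le_min (by linarith [hy.1]) (by linarith [hy.2])
  set F1 : ℝ → ℝ → ℝ := fun z y => min (y - ε) (ε + 2 * R - y) *
    ((1 - (z / N) ^ 2) ^ 3 * Ψzz z y) with hF1
  set F2 : ℝ → ℝ → ℝ := fun z y => (1 - (z / N) ^ 2) ^ 3 *
    (min (y - ε) (ε + 2 * R - y) * Ψyy z y) with hF2
  have c1 : ContinuousOn (fun p : ℝ × ℝ => F1 p.1 p.2) (Icc (-N) N ×ˢ Icc ε (ε + 2 * R)) :=
    hphi.continuousOn.mul (hchi.continuousOn.mul (h.czz.mono hsub))
  have c2 : ContinuousOn (fun p : ℝ × ℝ => F2 p.1 p.2) (Icc (-N) N ×ˢ Icc ε (ε + 2 * R)) :=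
    hchi.continuousOn.mul (hphi.continuousOn.mul (h.cyy.mono hsub))
  obtain ⟨a1, a2, a3⟩ := box_int isCompact_Icc isCompact_Icc F1 c1
  obtain ⟨b1, b2, b3⟩ := box_int isCompact_Icc isCompact_Icc F2 c2
  obtain ⟨a1', _, _⟩ := box_int isCompact_Icc isCompact_Icc (fun y z => F1 z y)
    (box_swap_cont F1 c1)
  have hsplit : ∫ z in Icc (-N) N, ∫ y in Icc ε (ε + 2 * R),
      ((1 - (z / N) ^ 2) ^ 3 * (min (y - ε) (ε + 2 * R - y) * (Ψzz z y + Ψyy z y))) =
      (∫ z in Icc (-N) N, ∫ y in Icc ε (ε + 2 * R), F1 z y) +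
      ∫ z in Icc (-N) N, ∫ y in Icc ε (ε + 2 * R), F2 z y := by
    rw [← integral_add a1 b1]
    refine setIntegral_congr_fun measurableSet_Icc fun z hz => ?_
    rw [← integral_add (a3 z hz) (b3 z hz)]
    refine setIntegral_congr_fun measurableSet_Icc fun y _ => ?_
    simp only [hF1, hF2]
    ring
  rw [hsplit]
  have hI1 : ∫ z in Icc (-N) N, ∫ y in Icc ε (ε + 2 * R), F1 z y ≤ 6 * R ^ 2 / N ^ 2 * M := by
    rw [a2]
    have hstep : ∀ y ∈ Icc ε (ε + 2 * R), ∫ z in Icc (-N) N, F1 z y ≤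
        min (y - ε) (ε + 2 * R - y) * (6 / N ^ 2 * M) := by
      intro y hy
      have hy0 : 0 < y := lt_of_lt_of_le hε hy.1
      have e1 : ∫ z in Icc (-N) N, F1 z y = min (y - ε) (ε + 2 * R - y) *
          ∫ z in Icc (-N) N, (1 - (z / N) ^ 2) ^ 3 * Ψzz z y := by
        simp only [hF1]
        rw [integral_const_mul]
      rw [e1]
      refine mul_le_mul_of_nonneg_left ?_ (hphi0 y hy)
      have hczz : Continuous (fun z => Ψzz z y) := by
        have h5 : Continuous (fun z : ℝ => ((z, y) : ℝ × ℝ)) :=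
          continuous_id.prodMk continuous_const
        have h6 := h.czz.comp h5.continuousOn (s := Set.univ) (fun z _ => hy0)
        exact continuousOn_univ.1 h6
      have e2 := parts_z N hN (fun z => Ψ z y) (fun z => Ψz z y) (fun z => Ψzz z y)
        (fun z => h.dz z y hy0) (fun z => h.dzz z y hy0) hczz
      rw [integral_Icc_eq_integral_Ioc, ← intervalIntegral.integral_of_le hNN, e2,
        intervalIntegral.integral_of_le hNN, ← integral_Icc_eq_integral_Ioc]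
      obtain ⟨i1, i2⟩ := psi_int h M hM0 hM N y hy0
      have hΨc : Continuous (fun z => Ψ z y) :=
        continuous_iff_continuousAt.2 fun z => (h.dz z y hy0).continuousAt
      calc ∫ z in Icc (-N) N, 6 / N ^ 2 * ((1 - (z / N) ^ 2) * (5 * (z / N) ^ 2 - 1)) * Ψ z y
          ≤ ∫ z in Icc (-N) N, 6 / N ^ 2 * Ψ z y := by
            apply setIntegral_mono_on
            · have h7 : Continuous (fun z : ℝ =>
                  6 / N ^ 2 * ((1 - (z / N) ^ 2) * (5 * (z / N) ^ 2 - 1)) * Ψ z y) := by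
                fun_prop
              exact h7.continuousOn.integrableOn_compact isCompact_Icc
            · exact i1.const_mul _
            · exact measurableSet_Icc
            · intro z _
              have h8 : (1 - (z / N) ^ 2) * (5 * (z / N) ^ 2 - 1) ≤ 1 := by
                nlinarith [sq_nonneg ((z / N) ^ 2 - 3 / 5)]
              have h9 := h.nn z y hy0
              have h10 : 0 ≤ 6 / N ^ 2 := by positivity
              have h11 : 6 / N ^ 2 * ((1 - (z / N) ^ 2) * (5 * (z / N) ^ 2 - 1)) ≤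
                  6 / N ^ 2 * 1 := mul_le_mul_of_nonneg_left h8 h10
              rw [mul_one] at h11
              exact mul_le_mul_of_nonneg_right h11 h9
        _ = 6 / N ^ 2 * ∫ z in Icc (-N) N, Ψ z y := integral_const_mul _ _
        _ ≤ 6 / N ^ 2 * M := mul_le_mul_of_nonneg_left i2 (by positivity)
    calc ∫ y in Icc ε (ε + 2 * R), ∫ z in Icc (-N) N, F1 z y
        ≤ ∫ y in Icc ε (ε + 2 * R), min (y - ε) (ε + 2 * R - y) * (6 / N ^ 2 * M) := by
          apply setIntegral_mono_on a1' _ measurableSet_Icc hstep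
          exact ((hphi1.mul continuous_const).continuousOn).integrableOn_compact isCompact_Icc
      _ = (∫ y in Icc ε (ε + 2 * R), min (y - ε) (ε + 2 * R - y)) * (6 / N ^ 2 * M) :=
          integral_mul_const _ _
      _ = 6 * R ^ 2 / N ^ 2 * M := by
          rw [integral_Icc_eq_integral_Ioc, ← intervalIntegral.integral_of_le hab,
            phi_int ε R hε hR]
          ring
  have hI2 : ∫ z in Icc (-N) N, ∫ y in Icc ε (ε + 2 * R), F2 z y ≤ 2 * M := by
    have hb0 : 0 < ε + 2 * R := by linarith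
    have hm0 : 0 < ε + R := by linarith
    obtain ⟨i1, i2⟩ := psi_int h M hM0 hM N ε hε
    obtain ⟨j1, j2⟩ := psi_int h M hM0 hM N (ε + 2 * R) hb0
    calc ∫ z in Icc (-N) N, ∫ y in Icc ε (ε + 2 * R), F2 z y
        ≤ ∫ z in Icc (-N) N, (Ψ z ε + Ψ z (ε + 2 * R)) := by
          apply setIntegral_mono_on b1 (i1.add j1) measurableSet_Icc
          intro z hz
          have hcyy : ContinuousOn (fun y => Ψyy z y) (Ioi 0) := by
            have h5 : Continuous (fun y : ℝ => ((z, y) : ℝ × ℝ)) :=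
              continuous_const.prodMk continuous_id
            exact h.cyy.comp h5.continuousOn (fun y hy => hy)
          have e1 : ∫ y in Icc ε (ε + 2 * R), F2 z y = (1 - (z / N) ^ 2) ^ 3 *
              (Ψ z ε + Ψ z (ε + 2 * R) - 2 * Ψ z (ε + R)) := by
            simp only [hF2]
            rw [integral_const_mul, integral_Icc_eq_integral_Ioc,
              ← intervalIntegral.integral_of_le hab,
              parts_y ε R hε hR (fun y => Ψ z y) (fun y => Ψy z y) (fun y => Ψyy z y)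
                (fun y hy => h.dy z y hy) (fun y hy => h.dyy z y hy) hcyy]
          rw [e1]
          obtain ⟨g1, g2⟩ := chi_bd N z hz hN
          have p1 := h.nn z ε hε
          have p2 := h.nn z (ε + 2 * R) hb0
          have p3 := h.nn z (ε + R) hm0
          generalize (1 - (z / N) ^ 2) ^ 3 = X at g1 g2 ⊢
          have q1 : X * (Ψ z ε + Ψ z (ε + 2 * R)) ≤ 1 * (Ψ z ε + Ψ z (ε + 2 * R)) :=
            mul_le_mul_of_nonneg_right g2 (by linarith)
          have q2 : 0 ≤ X * (2 * Ψ z (ε + R)) := mul_nonneg g1 (by linarith)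
          have q3 : X * (Ψ z ε + Ψ z (ε + 2 * R) - 2 * Ψ z (ε + R)) =
              X * (Ψ z ε + Ψ z (ε + 2 * R)) - X * (2 * Ψ z (ε + R)) := by ring
          show X * (Ψ z ε + Ψ z (ε + 2 * R) - 2 * Ψ z (ε + R)) ≤ Ψ z ε + Ψ z (ε + 2 * R)
          rw [q3]
          linarith
      _ = (∫ z in Icc (-N) N, Ψ z ε) + ∫ z in Icc (-N) N, Ψ z (ε + 2 * R) :=
          integral_add i1 j1
      _ ≤ 2 * M := by linarith
  linarith

theorem green_box (Ψ Ψz Ψy Ψzz Ψyy : ℝ → ℝ → ℝ) (h : SubH Ψ Ψz Ψy Ψzz Ψyy) (M : ℝ) (hM0 : 0 ≤ M)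
    (hM : ∀ y : ℝ, 0 < y → ∫⁻ z, ENNReal.ofReal (Ψ z y) ≤ ENNReal.ofReal M)
    (ε R N : ℝ) (hε : 0 < ε) (hR : 0 < R) (hN : 0 < N) :
    ∫⁻ z in Icc (-N) N, ∫⁻ y in Icc ε (ε + 2 * R),
      ENNReal.ofReal ((1 - (z / N) ^ 2) ^ 3 * (min (y - ε) (ε + 2 * R - y) *
        (Ψzz z y + Ψyy z y))) ≤ ENNReal.ofReal ((2 + 6 * R ^ 2 / N ^ 2) * M) := by
  have hab : ε ≤ ε + 2 * R := by linarith
  have hsub : Icc (-N) N ×ˢ Icc ε (ε + 2 * R) ⊆ {p : ℝ × ℝ | 0 < p.2} := by
    rintro p ⟨_, hp⟩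
    exact lt_of_lt_of_le hε hp.1
  have hchi : Continuous (fun p : ℝ × ℝ => (1 - (p.1 / N) ^ 2) ^ 3) := by fun_prop
  have hphi : Continuous (fun p : ℝ × ℝ => min (p.2 - ε) (ε + 2 * R - p.2)) := by fun_prop
  set F : ℝ → ℝ → ℝ := fun z y => (1 - (z / N) ^ 2) ^ 3 * (min (y - ε) (ε + 2 * R - y) *
        (Ψzz z y + Ψyy z y)) with hF
  have c : ContinuousOn (fun p : ℝ × ℝ => F p.1 p.2) (Icc (-N) N ×ˢ Icc ε (ε + 2 * R)) :=
    hchi.continuousOn.mul (hphi.continuousOn.mul ((h.czz.mono hsub).add (h.cyy.mono hsub)))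
  obtain ⟨a1, _, a3⟩ := box_int isCompact_Icc isCompact_Icc F c
  have hnn : ∀ z ∈ Icc (-N) N, ∀ y ∈ Icc ε (ε + 2 * R), 0 ≤ F z y := by
    intro z hz y hy
    refine mul_nonneg (chi_bd N z hz hN).1 (mul_nonneg ?_ (h.sub z y (lt_of_lt_of_le hε hy.1)))
    exact le_min (by linarith [hy.1]) (by linarith [hy.2])
  have e1 : ∫⁻ z in Icc (-N) N, ∫⁻ y in Icc ε (ε + 2 * R), ENNReal.ofReal (F z y) =
      ENNReal.ofReal (∫ z in Icc (-N) N, ∫ y in Icc ε (ε + 2 * R), F z y) := by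
    rw [ofReal_integral_eq_lintegral_ofReal a1]
    · refine setLIntegral_congr_fun measurableSet_Icc fun z hz => ?_
      rw [ofReal_integral_eq_lintegral_ofReal (a3 z hz)]
      exact (ae_restrict_iff' measurableSet_Icc).2 (Eventually.of_forall fun y hy =>
        hnn z hz y hy)
    · refine (ae_restrict_iff' measurableSet_Icc).2 (Eventually.of_forall fun z hz => ?_)
      exact setIntegral_nonneg measurableSet_Icc fun y hy => hnn z hz y hy
  have e2 : ∫⁻ z in Icc (-N) N, ∫⁻ y in Icc ε (ε + 2 * R), ENNReal.ofReal (F z y) ≤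
      ENNReal.ofReal ((2 + 6 * R ^ 2 / N ^ 2) * M) := by
    rw [e1]
    exact ENNReal.ofReal_le_ofReal (green_real h M hM0 hM ε R N hε hR hN)
  exact e2

end

end GStar954
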