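import Mathlib
import Pool.Agent.Helper954.GStar.Defs
import Pool.Agent.Helper954.GStar.C5b

set_option autoImplicit false
open MeasureTheory Filter Set Topology
open scoped ENNReal NNReal

namespace GStar954

noncomputable section

theorem green (Ψ Ψz Ψy Ψzz Ψyy : ℝ → ℝ → ℝ) (h : SubH Ψ Ψz Ψy Ψzz Ψyy) (M : ℝ) (hM0 : 0 ≤ M)
    (hM : ∀ y : ℝ, 0 < y → ∫⁻ z, ENNReal.ofReal (Ψ z y) ≤ ENNReal.ofReal M) :
    ∫⁻ z, ∫⁻ y in Ioi (0:ℝ), ENNReal.ofReal (y * (Ψzz z y + Ψyy z y)) ≤
      ENNReal.ofReal (2 * M) := by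
  classical
  let P : Set (ℝ × ℝ) := {p : ℝ × ℝ | 0 < p.2}
  have hPm : MeasurableSet P := measurableSet_lt measurable_const measurable_snd
  let L0 : ℝ × ℝ → ℝ := P.piecewise (fun p => Ψzz p.1 p.2 + Ψyy p.1 p.2) (fun _ => 0)
  have hL0m : Measurable L0 :=
    ContinuousOn.measurable_piecewise (h.czz.add h.cyy) continuousOn_const hPm
  have hL0 : ∀ z y : ℝ, 0 < y → L0 (z, y) = Ψzz z y + Ψyy z y := by
    intro z y hy
    exact Set.piecewise_eq_of_mem P _ _ (show (z, y) ∈ P from hy)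
  let m : ℕ → ℝ := fun n => (n : ℝ) + 1
  have hm0 : ∀ n, 0 < m n := fun n => by show (0:ℝ) < (n : ℝ) + 1; positivity
  have hm1 : ∀ n, 1 ≤ m n := fun n => by
    show (1:ℝ) ≤ (n : ℝ) + 1
    have : (0 : ℝ) ≤ (n : ℝ) := Nat.cast_nonneg n
    linarith
  have hmt : Tendsto m atTop atTop :=
    tendsto_atTop_add_const_right _ _ tendsto_natCast_atTop_atTop
  have hminv : Tendsto (fun n => 1 / m n) atTop (𝓝 0) := by
    simp only [one_div]
    exact tendsto_inv_atTop_zero.comp hmt
  let S : ℕ → Set (ℝ × ℝ) := fun n =>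
    (Icc (-(m n ^ 2)) (m n ^ 2)) ×ˢ (Icc (1 / m n) (1 / m n + 2 * m n))
  have hSm : ∀ n, MeasurableSet (S n) := fun n => measurableSet_Icc.prod measurableSet_Icc
  let φ : ℕ → ℝ × ℝ → ℝ := fun n p =>
    (1 - (p.1 / (m n ^ 2)) ^ 2) ^ 3 * (min (p.2 - 1 / m n) (1 / m n + 2 * m n - p.2) * L0 p)
  have hφm : ∀ n, Measurable (φ n) := by
    intro n
    apply Measurable.mul
    · fun_prop
    · exact Measurable.mul (by fun_prop) hL0m
  let g : ℕ → ℝ × ℝ → ℝ≥0∞ := fun n => (S n).indicator (fun p => ENNReal.ofReal (φ n p))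
  have hgm : ∀ n, Measurable (g n) := fun n => (hφm n).ennreal_ofReal.indicator (hSm n)
  -- pointwise limit
  have hlim : ∀ z y : ℝ, 0 < y → Tendsto (fun n => g n (z, y)) atTop
      (𝓝 (ENNReal.ofReal (y * (Ψzz z y + Ψyy z y)))) := by
    intro z y hy
    have hreal : Tendsto (fun n => (1 - (z / (m n ^ 2)) ^ 2) ^ 3 * ((y - 1 / m n) *
        (Ψzz z y + Ψyy z y))) atTop (𝓝 ((1 - 0 ^ 2) ^ 3 * ((y - 0) * (Ψzz z y + Ψyy z y)))) := by
      have h1 : Tendsto (fun n => z / (m n ^ 2)) atTop (𝓝 0) := by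
        apply Tendsto.const_div_atTop
        exact (tendsto_pow_atTop (by norm_num)).comp hmt
      exact ((tendsto_const_nhds.sub (h1.pow 2)).pow 3).mul
        ((tendsto_const_nhds.sub hminv).mul tendsto_const_nhds)
    have hval : (1 - (0:ℝ) ^ 2) ^ 3 * ((y - 0) * (Ψzz z y + Ψyy z y)) =
        y * (Ψzz z y + Ψyy z y) := by ring
    rw [hval] at hreal
    have hreal2 := (ENNReal.continuous_ofReal.tendsto _).comp hreal
    refine hreal2.congr' ?_
    have e1 : ∀ᶠ n in atTop, |z| ≤ m n := hmt.eventually_ge_atTop _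
    have e2 : ∀ᶠ n in atTop, 1 / m n < y := (tendsto_order.1 hminv).2 y hy
    have e3 : ∀ᶠ n in atTop, y ≤ m n := hmt.eventually_ge_atTop _
    filter_upwards [e1, e2, e3] with n h1 h2 h3
    have h0 := hm0 n
    have h0' := hm1 n
    have hinv : 0 < 1 / m n := by positivity
    have hsq : m n ≤ m n ^ 2 := by nlinarith
    have hmem : (z, y) ∈ S n := by
      refine ⟨⟨?_, ?_⟩, ⟨h2.le, ?_⟩⟩
      · show -(m n ^ 2) ≤ z
        linarith [neg_abs_le z]
      · show z ≤ m n ^ 2
        linarith [le_abs_self z]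
      · show y ≤ 1 / m n + 2 * m n
        linarith
    show _ = (S n).indicator (fun p => ENNReal.ofReal (φ n p)) (z, y)
    rw [indicator_of_mem hmem]
    show ENNReal.ofReal _ = ENNReal.ofReal _
    congr 1
    show _ = (1 - (z / (m n ^ 2)) ^ 2) ^ 3 *
      (min (y - 1 / m n) (1 / m n + 2 * m n - y) * L0 (z, y))
    rw [hL0 z y hy, min_eq_left (by linarith)]
  -- the bound
  have hbound : ∀ n, ∫⁻ z, ∫⁻ y in Ioi (0:ℝ), g n (z, y) ≤
      ENNReal.ofReal ((2 + 6 * (m n) ^ 2 / (m n ^ 2) ^ 2) * M) := by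
    intro n
    have h0 := hm0 n
    have hinv : 0 < 1 / m n := by positivity
    have hgb := green_box Ψ Ψz Ψy Ψzz Ψyy h M hM0 hM (1 / m n) (m n) (m n ^ 2) hinv h0
      (by positivity)
    refine le_trans (le_of_eq ?_) hgb
    rw [← lintegral_indicator measurableSet_Icc]
    congr 1
    funext z
    by_cases hz : z ∈ Icc (-(m n ^ 2)) (m n ^ 2)
    · rw [indicator_of_mem hz]
      have h1 : ∀ y, g n (z, y) = (Icc (1 / m n) (1 / m n + 2 * m n)).indicator
          (fun y => ENNReal.ofReal (φ n (z, y))) y := by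
        intro y
        show (S n).indicator (fun p => ENNReal.ofReal (φ n p)) (z, y) = _
        by_cases hy : y ∈ Icc (1 / m n) (1 / m n + 2 * m n)
        · rw [indicator_of_mem hy, indicator_of_mem (show (z, y) ∈ S n from ⟨hz, hy⟩)]
        · rw [indicator_of_notMem hy, indicator_of_notMem]
          intro hmem
          exact hy hmem.2
      simp_rw [h1]
      rw [lintegral_indicator measurableSet_Icc, Measure.restrict_restrict measurableSet_Icc]
      have h2 : Icc (1 / m n) (1 / m n + 2 * m n) ∩ Ioi (0:ℝ) =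
          Icc (1 / m n) (1 / m n + 2 * m n) := by
        apply inter_eq_left.2
        intro y hy
        exact lt_of_lt_of_le hinv hy.1
      rw [h2]
      apply setLIntegral_congr_fun measurableSet_Icc
      intro y hy
      have hy0 : 0 < y := lt_of_lt_of_le hinv hy.1
      show ENNReal.ofReal ((1 - (z / (m n ^ 2)) ^ 2) ^ 3 *
        (min (y - 1 / m n) (1 / m n + 2 * m n - y) * L0 (z, y))) = _
      rw [hL0 z y hy0]
    · rw [indicator_of_notMem hz]
      have h1 : ∀ y, g n (z, y) = 0 := by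
        intro y
        show (S n).indicator (fun p => ENNReal.ofReal (φ n p)) (z, y) = _
        rw [indicator_of_notMem]
        intro hmem
        exact hz hmem.1
      simp_rw [h1]
      exact lintegral_zero
  have hfinal : Tendsto (fun n => ENNReal.ofReal ((2 + 6 * (m n) ^ 2 / (m n ^ 2) ^ 2) * M)) atTop
      (𝓝 (ENNReal.ofReal (2 * M))) := by
    have h1 : Tendsto (fun n => (2 + 6 * (m n) ^ 2 / (m n ^ 2) ^ 2) * M) atTop
        (𝓝 ((2 + 6 * (0 * 0)) * M)) := by
      have h2 : ∀ n, (2 + 6 * (m n) ^ 2 / (m n ^ 2) ^ 2) * M =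
          (2 + 6 * ((1 / m n) * (1 / m n))) * M := by
        intro n
        have := (hm0 n).ne'
        field_simp
      simp_rw [h2]
      exact (tendsto_const_nhds.add ((hminv.mul hminv).const_mul 6)).mul_const M
    have h3 : (2 + 6 * ((0:ℝ) * 0)) * M = 2 * M := by ring
    rw [h3] at h1
    exact (ENNReal.continuous_ofReal.tendsto _).comp h1
  calc ∫⁻ z, ∫⁻ y in Ioi (0:ℝ), ENNReal.ofReal (y * (Ψzz z y + Ψyy z y))
      ≤ ∫⁻ z, liminf (fun n => ∫⁻ y in Ioi (0:ℝ), g n (z, y)) atTop := by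
        apply lintegral_mono
        intro z
        calc ∫⁻ y in Ioi (0:ℝ), ENNReal.ofReal (y * (Ψzz z y + Ψyy z y))
            ≤ ∫⁻ y in Ioi (0:ℝ), liminf (fun n => g n (z, y)) atTop := by
              apply setLIntegral_mono' measurableSet_Ioi
              intro y hy
              rw [(hlim z y hy).liminf_eq]
          _ ≤ liminf (fun n => ∫⁻ y in Ioi (0:ℝ), g n (z, y)) atTop :=
              lintegral_liminf_le fun n => (hgm n).comp measurable_prodMk_left
    _ ≤ liminf (fun n => ∫⁻ z, ∫⁻ y in Ioi (0:ℝ), g n (z, y)) atTop := by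
        apply lintegral_liminf_le
        intro n
        exact (hgm n).lintegral_prod_right'
    _ ≤ liminf (fun n => ENNReal.ofReal ((2 + 6 * (m n) ^ 2 / (m n ^ 2) ^ 2) * M)) atTop :=
        liminf_le_liminf (Eventually.of_forall hbound)
    _ = ENNReal.ofReal (2 * M) := hfinal.liminf_eq

end

end GStar954
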