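import Mathlib
import Pool.Agent.Helper954.GStar.Defs

set_option autoImplicit false
open MeasureTheory Filter Set Topology
open scoped ENNReal NNReal

namespace GStar954

noncomputable section

theorem h170_K_eq (y : ℝ) (hy : 0 < y) (t : ℝ) : K t y = (Real.pi * y)⁻¹ * (1 + (t / y) ^ 2)⁻¹ := by
  unfold K
  have hp := Real.pi_pos
  have h1 : t ^ 2 + y ^ 2 ≠ 0 := by positivity
  have h2 : 1 + (t / y) ^ 2 ≠ 0 := by positivity
  field_simp
  ring

theorem h170_K_meas (y : ℝ) : Measurable (fun t => K t y) := by
  unfold K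
  fun_prop

theorem K_integral (y : ℝ) (hy : 0 < y) : ∫⁻ t, ENNReal.ofReal (K t y) = 1 := by
  have hp := Real.pi_pos
  have hi : Integrable (fun t => K t y) := by
    have h1 := (integrable_inv_one_add_sq.comp_div hy.ne').const_mul (Real.pi * y)⁻¹
    refine h1.congr (Eventually.of_forall fun t => ?_)
    exact (h170_K_eq y hy t).symm
  have hn : 0 ≤ᵐ[volume] (fun t => K t y) := Eventually.of_forall fun t => by
    show 0 ≤ K t y
    unfold K
    positivity
  rw [← ofReal_integral_eq_lintegral_ofReal hi hn]
  have h2 : ∫ t, K t y = 1 := by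
    have h3 : (fun t => K t y) = fun t => (Real.pi * y)⁻¹ * (1 + (t / y) ^ 2)⁻¹ := by
      funext t
      exact h170_K_eq y hy t
    rw [h3, integral_const_mul, Measure.integral_comp_div (fun t : ℝ => (1 + t ^ 2)⁻¹) y,
      integral_univ_inv_one_add_sq, smul_eq_mul, abs_of_pos hy]
    field_simp
  rw [h2, ENNReal.ofReal_one]

theorem poisson_lint (h : ℝ → ℝ≥0∞) (hh : Measurable h) (y : ℝ) (hy : 0 < y) :
    ∫⁻ z, ∫⁻ x, ENNReal.ofReal (K (z - x) y) * h x = ∫⁻ x, h x := by
  have hm : Measurable (fun q : ℝ × ℝ => ENNReal.ofReal (K (q.1 - q.2) y) * h q.2) := by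
    refine Measurable.mul ?_ (hh.comp measurable_snd)
    exact ENNReal.measurable_ofReal.comp ((h170_K_meas y).comp (measurable_fst.sub measurable_snd))
  rw [lintegral_lintegral_swap hm.aemeasurable]
  refine lintegral_congr fun x => ?_
  have hm1 : Measurable (fun z : ℝ => ENNReal.ofReal (K (z - x) y)) :=
    ENNReal.measurable_ofReal.comp ((h170_K_meas y).comp (measurable_id.sub_const x))
  rw [lintegral_mul_const _ hm1, lintegral_sub_right_eq_self (fun z => ENNReal.ofReal (K z y)) x,
    K_integral y hy, one_mul]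

theorem h170_cv (k : ℝ → ℝ → ℝ) (hk : Measurable (Function.uncurry k)) (f : ℝ → ℝ) (hf : Measurable f) :
    Measurable (fun q : ℝ × ℝ => cv k f q.1 q.2) := by
  have h1 : Measurable (fun r : (ℝ × ℝ) × ℝ => k (r.1.1 - r.2) r.1.2 * f r.2) := by
    refine Measurable.mul ?_ (hf.comp measurable_snd)
    have h2 : Measurable (fun r : (ℝ × ℝ) × ℝ => (r.1.1 - r.2, r.1.2)) := by fun_prop
    exact hk.comp h2
  exact (StronglyMeasurable.integral_prod_right' h1.stronglyMeasurable).measurable

theorem measurable_Gam (f : ℝ → ℝ) (hf : Measurable f) :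
    Measurable (Function.uncurry (Gam f)) := by
  have k1 : Measurable (Function.uncurry K1) := by
    unfold K1 Function.uncurry
    fun_prop
  have k2 : Measurable (Function.uncurry K2) := by
    unfold K2 Function.uncurry
    fun_prop
  have m1 := h170_cv K1 k1 f hf
  have m2 := h170_cv K2 k2 f hf
  unfold Gam Function.uncurry
  refine Measurable.ite ?_ ?_ measurable_const
  · exact measurableSet_lt measurable_const measurable_snd
  · exact ENNReal.measurable_ofReal.comp ((m1.pow_const 2).add (m2.pow_const 2))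

end

end GStar954
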