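import Mathlib
import Pool.Agent.Helper954.GStar.Defs
import Pool.Agent.Helper954.GStar.C6

set_option autoImplicit false
open MeasureTheory Filter Set Topology
open scoped ENNReal NNReal

namespace GStar954

noncomputable section

theorem K_pos' (t y : ℝ) (hy : 0 < y) : 0 < K t y := by
  unfold K
  have : 0 < t ^ 2 + y ^ 2 := by positivity
  positivity

theorem K_meas' (z y : ℝ) (hy : 0 < y) : Measurable (fun x : ℝ => K (z - x) y) := by
  unfold K
  apply Continuous.measurable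
  refine continuous_const.div (by fun_prop) ?_
  intro x
  have : 0 < (z - x) ^ 2 + y ^ 2 := by positivity
  positivity

theorem K_lint' (z y : ℝ) (hy : 0 < y) : ∫⁻ x, ENNReal.ofReal (K (z - x) y) = 1 := by
  rw [lintegral_sub_left_eq_self (fun x => ENNReal.ofReal (K x y)) z]
  exact K_integral y hy

theorem cs_e (F G : ℝ → ℝ≥0∞) (hF : Measurable F) (hG : Measurable G) :
    (∫⁻ x, F x ^ (1 / 2 : ℝ) * G x ^ (1 / 2 : ℝ)) ^ (2 : ℝ) ≤ (∫⁻ x, F x) * ∫⁻ x, G x := by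
  have h1 := ENNReal.lintegral_mul_le_Lp_mul_Lq (volume : Measure ℝ)
    (p := 2) (q := 2) (Real.HolderConjugate.two_two)
    (f := fun x => F x ^ (1 / 2 : ℝ)) (g := fun x => G x ^ (1 / 2 : ℝ))
    (hF.pow_const _).aemeasurable (hG.pow_const _).aemeasurable
  have h2 : ∀ a : ℝ≥0∞, (a ^ (1 / 2 : ℝ)) ^ (2 : ℝ) = a := by
    intro a
    rw [← ENNReal.rpow_mul]
    norm_num
  simp only [Pi.mul_apply, h2] at h1
  have h3 := ENNReal.rpow_le_rpow h1 (by norm_num : (0 : ℝ) ≤ 2)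
  rw [ENNReal.mul_rpow_of_nonneg _ _ (by norm_num : (0 : ℝ) ≤ 2), h2, h2] at h3
  exact h3

theorem nn_e (g : ℝ → ℝ) (hg : Measurable g) (hg0 : ∀ x, 0 ≤ g x) (z y : ℝ) (hy : 0 < y)
    (hfin : ∫⁻ x, ENNReal.ofReal (K (z - x) y) * ENNReal.ofReal (g x) ≠ ∞) :
    Integrable (fun x => K (z - x) y * g x) ∧
      ∫⁻ x, ENNReal.ofReal (K (z - x) y) * ENNReal.ofReal (g x) =
        ENNReal.ofReal (cv K g z y) := by
  have hnn : ∀ x, 0 ≤ K (z - x) y * g x := fun x => mul_nonneg (K_pos' _ y hy).le (hg0 x)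
  have he : ∀ x, ENNReal.ofReal (K (z - x) y) * ENNReal.ofReal (g x) =
      ENNReal.ofReal (K (z - x) y * g x) := fun x =>
    (ENNReal.ofReal_mul (K_pos' _ y hy).le).symm
  simp only [he] at hfin ⊢
  have hint : Integrable (fun x => K (z - x) y * g x) := by
    refine ⟨((K_meas' z y hy).mul hg).aestronglyMeasurable, ?_⟩
    rw [hasFiniteIntegral_iff_ofReal (Eventually.of_forall hnn)]
    exact lt_top_iff_ne_top.2 hfin
  refine ⟨hint, ?_⟩
  exact (ofReal_integral_eq_lintegral_ofReal hint (Eventually.of_forall hnn)).symm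

theorem ww_e (w : ℝ → ℝ) (hm : Measurable w) (hp : ∀ x, 0 < w x) (z y : ℝ) (hy : 0 < y) :
    1 ≤ (∫⁻ x, ENNReal.ofReal (K (z - x) y) * ENNReal.ofReal (w x)) *
    (∫⁻ x, ENNReal.ofReal (K (z - x) y) * ENNReal.ofReal ((w x)⁻¹)) := by
  have hKm := (K_meas' z y hy).ennreal_ofReal
  have h1 := cs_e (fun x => ENNReal.ofReal (K (z - x) y) * ENNReal.ofReal (w x))
    (fun x => ENNReal.ofReal (K (z - x) y) * ENNReal.ofReal ((w x)⁻¹))
    (hKm.mul hm.ennreal_ofReal) (hKm.mul hm.inv.ennreal_ofReal)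
  have h2 : ∀ x, (ENNReal.ofReal (K (z - x) y) * ENNReal.ofReal (w x)) ^ (1 / 2 : ℝ) *
      (ENNReal.ofReal (K (z - x) y) * ENNReal.ofReal ((w x)⁻¹)) ^ (1 / 2 : ℝ) =
      ENNReal.ofReal (K (z - x) y) := by
    intro x
    rw [← ENNReal.mul_rpow_of_nonneg _ _ (by norm_num : (0 : ℝ) ≤ 1 / 2)]
    have h3 : ENNReal.ofReal (w x) * ENNReal.ofReal ((w x)⁻¹) = 1 := by
      rw [← ENNReal.ofReal_mul (hp x).le, mul_inv_cancel₀ (hp x).ne', ENNReal.ofReal_one]
    have h4 : ENNReal.ofReal (K (z - x) y) * ENNReal.ofReal (w x) *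
        (ENNReal.ofReal (K (z - x) y) * ENNReal.ofReal ((w x)⁻¹)) =
        (ENNReal.ofReal (K (z - x) y)) ^ (2 : ℝ) := by
      rw [mul_mul_mul_comm, h3, mul_one, ENNReal.rpow_two, sq]
    rw [h4, ← ENNReal.rpow_mul]
    norm_num
  simp only [h2] at h1
  rw [K_lint' z y hy, ENNReal.one_rpow] at h1
  exact h1

theorem wfin_e {Q : ℝ≥0} {w : ℝ → ℝ} (h : GoodW Q w) (z y : ℝ) (hy : 0 < y) :
    (∫⁻ x, ENNReal.ofReal (K (z - x) y) * ENNReal.ofReal (w x) ≠ ∞) ∧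
    (∫⁻ x, ENNReal.ofReal (K (z - x) y) * ENNReal.ofReal ((w x)⁻¹) ≠ ∞) := by
  have h1 := ww_e w h.meas h.pos z y hy
  have h2 := h.bound z y hy
  generalize (∫⁻ x, ENNReal.ofReal (K (z - x) y) * ENNReal.ofReal (w x)) = a at h1 h2 ⊢
  generalize (∫⁻ x, ENNReal.ofReal (K (z - x) y) * ENNReal.ofReal ((w x)⁻¹)) = b at h1 h2 ⊢
  have ha : a ≠ 0 := by
    intro h0
    rw [h0, zero_mul] at h1
    exact absurd h1 (by simp)
  have hb : b ≠ 0 := by
    intro h0
    rw [h0, mul_zero] at h1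
    exact absurd h1 (by simp)
  constructor
  · intro hc
    rw [hc, ENNReal.top_mul hb] at h2
    exact absurd h2 (by simp)
  · intro hc
    rw [hc, ENNReal.mul_top ha] at h2
    exact absurd h2 (by simp)

theorem K01 (x : ℝ) : K (0 - x) 1 = 1 / (Real.pi * (1 + x ^ 2)) := by
  unfold K
  congr 2
  ring

theorem int01 (g : ℝ → ℝ) (h : Integrable (fun x => K (0 - x) 1 * g x)) :
    Integrable (fun x => g x / (1 + x ^ 2)) := by
  have h1 := h.const_mul Real.pi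
  refine h1.congr (Eventually.of_forall fun x => ?_)
  simp only
  rw [K01]
  have : 0 < 1 + x ^ 2 := by positivity
  have hpi := Real.pi_pos
  field_simp

theorem goodW_facts (Q : ℝ≥0) (w : ℝ → ℝ) (h : GoodW Q w) :
    Integrable (fun x => w x / (1 + x ^ 2)) ∧ Integrable (fun x => (w x)⁻¹ / (1 + x ^ 2)) ∧
    ∀ z y : ℝ, 0 < y → 0 < cv K w z y ∧ 0 < cv K (fun x => (w x)⁻¹) z y ∧
      1 ≤ cv K (fun x => (w x)⁻¹) z y * cv K w z y ∧
      cv K (fun x => (w x)⁻¹) z y * cv K w z y ≤ Q ∧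
      (∫⁻ x, ENNReal.ofReal (K (z - x) y) * ENNReal.ofReal (w x)) =
        ENNReal.ofReal (cv K w z y) ∧
      (∫⁻ x, ENNReal.ofReal (K (z - x) y) * ENNReal.ofReal ((w x)⁻¹)) =
        ENNReal.ofReal (cv K (fun x => (w x)⁻¹) z y) := by
  have key : ∀ z y : ℝ, 0 < y → Integrable (fun x => K (z - x) y * w x) ∧
      Integrable (fun x => K (z - x) y * (w x)⁻¹) ∧
      0 < cv K w z y ∧ 0 < cv K (fun x => (w x)⁻¹) z y ∧
      1 ≤ cv K (fun x => (w x)⁻¹) z y * cv K w z y ∧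
      cv K (fun x => (w x)⁻¹) z y * cv K w z y ≤ Q ∧
      (∫⁻ x, ENNReal.ofReal (K (z - x) y) * ENNReal.ofReal (w x)) =
        ENNReal.ofReal (cv K w z y) ∧
      (∫⁻ x, ENNReal.ofReal (K (z - x) y) * ENNReal.ofReal ((w x)⁻¹)) =
        ENNReal.ofReal (cv K (fun x => (w x)⁻¹) z y) := by
    intro z y hy
    obtain ⟨f1, f2⟩ := wfin_e h z y hy
    obtain ⟨a1, a2⟩ := nn_e w h.meas (fun x => (h.pos x).le) z y hy f1
    obtain ⟨b1, b2⟩ := nn_e (fun x => (w x)⁻¹) h.meas.inv (fun x => (inv_pos.2 (h.pos x)).le)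
      z y hy f2
    have c1 := ww_e w h.meas h.pos z y hy
    have c2 := h.bound z y hy
    have n1 : 0 ≤ cv K w z y :=
      integral_nonneg fun x => mul_nonneg (K_pos' _ y hy).le (h.pos x).le
    have n2 : 0 ≤ cv K (fun x => (w x)⁻¹) z y :=
      integral_nonneg fun x => mul_nonneg (K_pos' _ y hy).le (inv_pos.2 (h.pos x)).le
    rw [a2, b2, ← ENNReal.ofReal_mul n1] at c1 c2
    have d1 : 1 ≤ cv K w z y * cv K (fun x => (w x)⁻¹) z y := by
      rw [← ENNReal.ofReal_one, ENNReal.ofReal_le_ofReal_iff (mul_nonneg n1 n2)] at c1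
      exact c1
    have d2 : cv K w z y * cv K (fun x => (w x)⁻¹) z y ≤ Q := by
      rw [← ENNReal.ofReal_coe_nnreal, ENNReal.ofReal_le_ofReal_iff Q.coe_nonneg] at c2
      exact c2
    have p1 : 0 < cv K w z y := by
      rcases n1.eq_or_lt with h0 | h0
      · rw [← h0, zero_mul] at d1
        linarith
      · exact h0
    have p2 : 0 < cv K (fun x => (w x)⁻¹) z y := by
      rcases n2.eq_or_lt with h0 | h0
      · rw [← h0, mul_zero] at d1
        linarith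
      · exact h0
    rw [mul_comm] at d1 d2
    exact ⟨a1, b1, p1, p2, d1, d2, a2, b2⟩
  obtain ⟨k1, k2, _⟩ := key 0 1 one_pos
  exact ⟨int01 w k1, int01 (fun x => (w x)⁻¹) k2, fun z y hy => (key z y hy).2.2⟩

theorem goodW_f (Q : ℝ≥0) (w : ℝ → ℝ) (h : GoodW Q w) (f : ℝ → ℝ) (hf : Measurable f)
    (hfw : ∫⁻ x, ENNReal.ofReal ((f x) ^ 2 * w x) ≠ ∞) :
    Integrable (fun x => f x / (1 + x ^ 2)) ∧ ∀ z y : ℝ, 0 < y →
      ENNReal.ofReal ((cv K f z y) ^ 2 / cv K (fun x => (w x)⁻¹) z y) ≤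
        ∫⁻ x, ENNReal.ofReal (K (z - x) y) * ENNReal.ofReal ((f x) ^ 2 * w x) := by
  obtain ⟨_, _, hfacts⟩ := goodW_facts Q w h
  have hJ : ∀ z y : ℝ, 0 < y → (∫⁻ x, ENNReal.ofReal (K (z - x) y * |f x|)) ^ (2 : ℝ) ≤
      (∫⁻ x, ENNReal.ofReal (K (z - x) y) * ENNReal.ofReal ((f x) ^ 2 * w x)) *
        ENNReal.ofReal (cv K (fun x => (w x)⁻¹) z y) := by
    intro z y hy
    obtain ⟨_, _, _, _, _, hw⟩ := hfacts z y hy
    rw [← hw]
    have hKm := (K_meas' z y hy).ennreal_ofReal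
    refine le_trans (le_of_eq ?_) (cs_e _ _
      (hKm.mul ((hf.pow_const 2).mul h.meas).ennreal_ofReal)
      (hKm.mul h.meas.inv.ennreal_ofReal))
    congr 1
    refine lintegral_congr fun x => ?_
    rw [← ENNReal.mul_rpow_of_nonneg _ _ (by norm_num : (0 : ℝ) ≤ 1 / 2)]
    have hK := K_pos' (z - x) y hy
    have hw0 := h.pos x
    have h4 : ENNReal.ofReal (K (z - x) y) * ENNReal.ofReal ((f x) ^ 2 * w x) *
        (ENNReal.ofReal (K (z - x) y) * ENNReal.ofReal ((w x)⁻¹)) =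
        (ENNReal.ofReal (K (z - x) y * |f x|)) ^ (2 : ℝ) := by
      rw [ENNReal.rpow_two, ← ENNReal.ofReal_mul hK.le, ← ENNReal.ofReal_mul hK.le,
        ← ENNReal.ofReal_mul (by positivity), ← ENNReal.ofReal_pow (by positivity)]
      congr 1
      have h5 : |f x| ^ 2 = f x ^ 2 := sq_abs _
      rw [mul_pow, h5]
      field_simp
    rw [h4, ← ENNReal.rpow_mul]
    norm_num
  have hN : ∀ z y : ℝ, 0 < y →
      ∫⁻ x, ENNReal.ofReal (K (z - x) y) * ENNReal.ofReal ((f x) ^ 2 * w x) ≠ ∞ := by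
    intro z y hy
    have h1 : ∫⁻ x, ENNReal.ofReal (K (z - x) y) * ENNReal.ofReal ((f x) ^ 2 * w x) ≤
        ENNReal.ofReal (1 / (Real.pi * y)) * ∫⁻ x, ENNReal.ofReal ((f x) ^ 2 * w x) := by
      have hmm : Measurable (fun x => ENNReal.ofReal ((f x) ^ 2 * w x)) :=
        ((hf.pow_const 2).mul h.meas).ennreal_ofReal
      rw [← lintegral_const_mul _ hmm]
      refine lintegral_mono fun x => ?_
      refine mul_le_mul_left (ENNReal.ofReal_le_ofReal ?_) _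
      unfold K
      have hpi := Real.pi_pos
      rw [div_le_div_iff₀ (by positivity) (by positivity)]
      nlinarith [mul_nonneg hpi.le (sq_nonneg (z - x))]
    exact ne_top_of_le_ne_top (ENNReal.mul_ne_top ENNReal.ofReal_ne_top hfw) h1
  have hJfin : ∀ z y : ℝ, 0 < y → ∫⁻ x, ENNReal.ofReal (K (z - x) y * |f x|) ≠ ∞ := by
    intro z y hy hc
    have h1 := hJ z y hy
    rw [hc, ENNReal.top_rpow_of_pos (by norm_num)] at h1
    exact absurd (top_le_iff.1 h1) (ENNReal.mul_ne_top (hN z y hy) ENNReal.ofReal_ne_top)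
  have hen : ∀ z y : ℝ, 0 < y → ∀ x, ‖K (z - x) y * f x‖ₑ =
      ENNReal.ofReal (K (z - x) y * |f x|) := by
    intro z y hy x
    rw [← ofReal_norm_eq_enorm, norm_mul, Real.norm_of_nonneg (K_pos' _ y hy).le,
      Real.norm_eq_abs]
  refine ⟨?_, ?_⟩
  · apply int01
    refine ⟨((K_meas' 0 1 one_pos).mul hf).aestronglyMeasurable, ?_⟩
    rw [hasFiniteIntegral_iff_enorm]
    simp only [hen 0 1 one_pos]
    exact lt_top_iff_ne_top.2 (hJfin 0 1 one_pos)
  · intro z y hy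
    obtain ⟨_, hp, _, _, _, hw⟩ := hfacts z y hy
    rw [ENNReal.ofReal_div_of_pos hp]
    apply ENNReal.div_le_of_le_mul
    refine le_trans ?_ (hJ z y hy)
    have h1 : ‖cv K f z y‖ₑ ≤ ∫⁻ x, ENNReal.ofReal (K (z - x) y * |f x|) := by
      have h2 := enorm_integral_le_lintegral_enorm (μ := volume) (fun x => K (z - x) y * f x)
      simp only [hen z y hy] at h2
      exact h2
    have h3 : ENNReal.ofReal ((cv K f z y) ^ 2) = ‖cv K f z y‖ₑ ^ (2 : ℝ) := by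
      rw [ENNReal.rpow_two, ← ofReal_norm_eq_enorm, ← ENNReal.ofReal_pow (norm_nonneg _),
        Real.norm_eq_abs, sq_abs]
    rw [h3]
    exact ENNReal.rpow_le_rpow h1 (by norm_num)

end

end GStar954
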