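import Mathlib
import Pool.Agent.Helper954.GStar.Defs
import Pool.Agent.Helper954.GStar.C1
import Pool.Agent.Helper954.GStar.C2
import Pool.Agent.Helper954.GStar.C3
import Pool.Agent.Helper954.GStar.C4
import Pool.Agent.Helper954.GStar.C5c
import Pool.Agent.Helper954.GStar.C7a

set_option autoImplicit false
open MeasureTheory Filter Set Topology
open scoped ENNReal NNReal

namespace GStar954

noncomputable section

theorem cg_goodK_neg : GoodK (fun t y => -K11 t y) := by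
  refine ⟨?_, ?_, ?_⟩
  · exact goodK_K11.meas.neg
  · exact goodK_K11.cont.neg
  · intro t y hy
    rw [abs_neg]
    exact goodK_K11.bd t y hy

theorem cg_cv_neg (g : ℝ → ℝ) (z y : ℝ) : cv (fun t y => -K11 t y) g z y = -cv K11 g z y := by
  unfold cv
  rw [← integral_neg]
  refine integral_congr_ae (Filter.Eventually.of_forall fun x => ?_)
  simp only [neg_mul]

theorem cg_dyy (g : ℝ → ℝ) (hg : Measurable g) (hgi : Integrable (fun x => g x / (1 + x ^ 2)))
    (z y : ℝ) (hy : 0 < y) : HasDerivAt (fun s => cv K2 g z s) (-cv K11 g z y) y := by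
  have h1 := cv_deriv_y K2 (fun t y => -K11 t y) goodK_K2 cg_goodK_neg K2_dy g hg hgi z y hy
  rwa [cg_cv_neg] at h1

section cgcont

variable {S : Set (ℝ × ℝ)} {u a a2 V b b2 W c c2 : ℝ × ℝ → ℝ}

theorem cg_Gv_ne {V W : ℝ} (hV : 0 < V) (hW : 0 < W) (h1 : 1 ≤ V * W) : Gv V W ≠ 0 := by
  have := (Gv_bounds V W hV hW h1).1
  intro h
  rw [h] at this
  linarith

theorem cg_Gv_cont (hV : ContinuousOn V S) (hW : ContinuousOn W S) (V0 : ∀ p ∈ S, 0 < V p)
    (W0 : ∀ p ∈ S, 0 < W p) : ContinuousOn (fun p => Gv (V p) (W p)) S := by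
  unfold Gv
  refine hV.sub (continuousOn_const.div (continuousOn_const.mul (hV.mul (hW.pow 2))) ?_)
  intro p hp
  have h1 := V0 p hp
  have h2 := W0 p hp
  positivity

theorem cg_Ps_cont (hu : ContinuousOn u S) (hV : ContinuousOn V S) (hW : ContinuousOn W S)
    (V0 : ∀ p ∈ S, 0 < V p) (W0 : ∀ p ∈ S, 0 < W p) (h1 : ∀ p ∈ S, 1 ≤ V p * W p) :
    ContinuousOn (fun p => Ps (u p) (V p) (W p)) S := by
  unfold Ps
  exact (hu.pow 2).div (cg_Gv_cont hV hW V0 W0) (fun p hp => cg_Gv_ne (V0 p hp) (W0 p hp) (h1 p hp))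

theorem cg_Psdd_cont (hu : ContinuousOn u S) (ha : ContinuousOn a S) (ha2 : ContinuousOn a2 S)
    (hV : ContinuousOn V S) (hb : ContinuousOn b S) (hb2 : ContinuousOn b2 S)
    (hW : ContinuousOn W S) (hc : ContinuousOn c S) (hc2 : ContinuousOn c2 S)
    (V0 : ∀ p ∈ S, 0 < V p) (W0 : ∀ p ∈ S, 0 < W p) (h1 : ∀ p ∈ S, 1 ≤ V p * W p) :
    ContinuousOn (fun p => Psdd (u p) (a p) (a2 p) (V p) (b p) (b2 p) (W p) (c p) (c2 p)) S := by
  have hG := cg_Gv_cont hV hW V0 W0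
  have hG0 : ∀ p ∈ S, Gv (V p) (W p) ≠ 0 := fun p hp =>
    cg_Gv_ne (V0 p hp) (W0 p hp) (h1 p hp)
  have hD : ContinuousOn (fun p => 2 * (V p * W p ^ 2)) S :=
    continuousOn_const.mul (hV.mul (hW.pow 2))
  have hD0 : ∀ p ∈ S, 2 * (V p * W p ^ 2) ≠ 0 := by
    intro p hp
    have h1 := V0 p hp
    have h2 := W0 p hp
    positivity
  have hbV : ContinuousOn (fun p => b p / V p) S := hb.div hV fun p hp => (V0 p hp).ne'
  have hb2V : ContinuousOn (fun p => b2 p / V p) S := hb2.div hV fun p hp => (V0 p hp).ne'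
  have hcW : ContinuousOn (fun p => c p / W p) S := hc.div hW fun p hp => (W0 p hp).ne'
  have hc2W : ContinuousOn (fun p => c2 p / W p) S := hc2.div hW fun p hp => (W0 p hp).ne'
  have hGd : ContinuousOn (fun p => Gd (V p) (b p) (W p) (c p)) S := by
    unfold Gd
    exact hb.add ((hbV.add (continuousOn_const.mul hcW)).div hD hD0)
  have hGdd : ContinuousOn (fun p => Gdd (V p) (b p) (b2 p) (W p) (c p) (c2 p)) S := by
    unfold Gdd
    refine hb2.sub (ContinuousOn.div ?_ hD hD0)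
    exact (((hbV.add (continuousOn_const.mul hcW)).pow 2).sub (hb2V.sub (hbV.pow 2))).sub
      (continuousOn_const.mul (hc2W.sub (hcW.pow 2)))
  unfold Psdd
  refine ((ContinuousOn.sub ?_ ?_).add ?_).sub ?_
  · exact (continuousOn_const.mul ((ha.pow 2).add (hu.mul ha2))).div hG hG0
  · exact (((continuousOn_const.mul hu).mul ha).mul hGd).div (hG.pow 2)
      fun p hp => pow_ne_zero _ (hG0 p hp)
  · exact ((continuousOn_const.mul (hu.pow 2)).mul (hGd.pow 2)).div (hG.pow 3)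
      fun p hp => pow_ne_zero _ (hG0 p hp)
  · exact ((hu.pow 2).mul hGdd).div (hG.pow 2) fun p hp => pow_ne_zero _ (hG0 p hp)

end cgcont

theorem core_green (Q : ℝ≥0) (w : ℝ → ℝ) (h : GoodW Q w) (f : ℝ → ℝ) (hf : Measurable f)
    (hfw : ∫⁻ x, ENNReal.ofReal ((f x) ^ 2 * w x) ≠ ∞) :
    ∫⁻ z, ∫⁻ y in Ioi (0:ℝ), ENNReal.ofReal (y * (((cv K1 f z y) ^ 2 + (cv K2 f z y) ^ 2) /
      cv K (fun x => (w x)⁻¹) z y)) ≤
      32 * (Q:ℝ≥0∞) ^ 2 * ∫⁻ x, ENNReal.ofReal ((f x) ^ 2 * w x) := by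
  obtain ⟨hwI, hwiI, hpt⟩ := goodW_facts Q w h
  obtain ⟨hfI, hfb⟩ := goodW_f Q w h f hf hfw
  set wi : ℝ → ℝ := fun x => (w x)⁻¹ with hwi
  have hwm : Measurable w := h.meas
  have hwim : Measurable wi := h.meas.inv
  set Ψ : ℝ → ℝ → ℝ := fun z y => Ps (cv K f z y) (cv K wi z y) (cv K w z y) with hΨ
  set Ψz : ℝ → ℝ → ℝ := fun z y => Psd (cv K f z y) (cv K1 f z y) (cv K wi z y) (cv K1 wi z y)
    (cv K w z y) (cv K1 w z y) with hΨz
  set Ψy : ℝ → ℝ → ℝ := fun z y => Psd (cv K f z y) (cv K2 f z y) (cv K wi z y) (cv K2 wi z y)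
    (cv K w z y) (cv K2 w z y) with hΨy
  set Ψzz : ℝ → ℝ → ℝ := fun z y => Psdd (cv K f z y) (cv K1 f z y) (cv K11 f z y) (cv K wi z y)
    (cv K1 wi z y) (cv K11 wi z y) (cv K w z y) (cv K1 w z y) (cv K11 w z y) with hΨzz
  set Ψyy : ℝ → ℝ → ℝ := fun z y => Psdd (cv K f z y) (cv K2 f z y) (-cv K11 f z y) (cv K wi z y)
    (cv K2 wi z y) (-cv K11 wi z y) (cv K w z y) (cv K2 w z y) (-cv K11 w z y) with hΨyy
  have hlow : ∀ z y : ℝ, 0 < y → ((cv K1 f z y) ^ 2 + (cv K2 f z y) ^ 2) / cv K wi z y ≤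
      8 * (Q : ℝ) ^ 2 * (Ψzz z y + Ψyy z y) := by
    intro z y hy
    obtain ⟨W0, V0, h1, hQ, -, -⟩ := hpt z y hy
    exact Psdd_lower Q (cv K f z y) (cv K1 f z y) (cv K2 f z y) (cv K11 f z y) (cv K wi z y)
      (cv K1 wi z y) (cv K2 wi z y) (cv K11 wi z y) (cv K w z y) (cv K1 w z y) (cv K2 w z y)
      (cv K11 w z y) V0 W0 h1 hQ
  have hsub : ∀ z y : ℝ, 0 < y → 0 ≤ Ψzz z y + Ψyy z y := by
    intro z y hy
    obtain ⟨W0, V0, h1, hQ, -, -⟩ := hpt z y hy
    have h2 := hlow z y hy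
    have h3 : 0 ≤ ((cv K1 f z y) ^ 2 + (cv K2 f z y) ^ 2) / cv K wi z y := by positivity
    have hQ1 : (1 : ℝ) ≤ Q := h1.trans hQ
    have h4 : (0 : ℝ) < 8 * (Q : ℝ) ^ 2 := by positivity
    exact nonneg_of_mul_nonneg_right (h3.trans h2) h4
  have hS : SubH Ψ Ψz Ψy Ψzz Ψyy := by
    refine ⟨?_, ?_, ?_, ?_, ?_, ?_, ?_, ?_, hsub⟩
    · intro z y hy
      obtain ⟨W0, V0, h1, hQ, -, -⟩ := hpt z y hy
      exact Ps_deriv (fun t => cv K f t y) (fun t => cv K wi t y) (fun t => cv K w t y)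
        (cv K1 f z y) (cv K1 wi z y) (cv K1 w z y) z
        (cv_deriv_z K K1 goodK_K goodK_K1 K_dt f hf hfI z y hy)
        (cv_deriv_z K K1 goodK_K goodK_K1 K_dt wi hwim hwiI z y hy)
        (cv_deriv_z K K1 goodK_K goodK_K1 K_dt w hwm hwI z y hy) V0 W0 h1
    · intro z y hy
      obtain ⟨W0, V0, h1, hQ, -, -⟩ := hpt z y hy
      exact Psd_deriv (fun t => cv K f t y) (fun t => cv K1 f t y) (fun t => cv K wi t y)
        (fun t => cv K1 wi t y) (fun t => cv K w t y) (fun t => cv K1 w t y)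
        (cv K11 f z y) (cv K11 wi z y) (cv K11 w z y) z
        (cv_deriv_z K K1 goodK_K goodK_K1 K_dt f hf hfI z y hy)
        (cv_deriv_z K1 K11 goodK_K1 goodK_K11 K1_dt f hf hfI z y hy)
        (cv_deriv_z K K1 goodK_K goodK_K1 K_dt wi hwim hwiI z y hy)
        (cv_deriv_z K1 K11 goodK_K1 goodK_K11 K1_dt wi hwim hwiI z y hy)
        (cv_deriv_z K K1 goodK_K goodK_K1 K_dt w hwm hwI z y hy)
        (cv_deriv_z K1 K11 goodK_K1 goodK_K11 K1_dt w hwm hwI z y hy) V0 W0 h1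
    · intro z y hy
      obtain ⟨W0, V0, h1, hQ, -, -⟩ := hpt z y hy
      exact Ps_deriv (fun t => cv K f z t) (fun t => cv K wi z t) (fun t => cv K w z t)
        (cv K2 f z y) (cv K2 wi z y) (cv K2 w z y) y
        (cv_deriv_y K K2 goodK_K goodK_K2 K_dy f hf hfI z y hy)
        (cv_deriv_y K K2 goodK_K goodK_K2 K_dy wi hwim hwiI z y hy)
        (cv_deriv_y K K2 goodK_K goodK_K2 K_dy w hwm hwI z y hy) V0 W0 h1
    · intro z y hy
      obtain ⟨W0, V0, h1, hQ, -, -⟩ := hpt z y hy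
      exact Psd_deriv (fun t => cv K f z t) (fun t => cv K2 f z t) (fun t => cv K wi z t)
        (fun t => cv K2 wi z t) (fun t => cv K w z t) (fun t => cv K2 w z t)
        (-cv K11 f z y) (-cv K11 wi z y) (-cv K11 w z y) y
        (cv_deriv_y K K2 goodK_K goodK_K2 K_dy f hf hfI z y hy)
        (cg_dyy f hf hfI z y hy)
        (cv_deriv_y K K2 goodK_K goodK_K2 K_dy wi hwim hwiI z y hy)
        (cg_dyy wi hwim hwiI z y hy)
        (cv_deriv_y K K2 goodK_K goodK_K2 K_dy w hwm hwI z y hy)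
        (cg_dyy w hwm hwI z y hy) V0 W0 h1
    · exact cg_Ps_cont (cv_continuous K goodK_K f hf hfI) (cv_continuous K goodK_K wi hwim hwiI)
        (cv_continuous K goodK_K w hwm hwI) (fun p hp => (hpt p.1 p.2 hp).2.1)
        (fun p hp => (hpt p.1 p.2 hp).1) (fun p hp => (hpt p.1 p.2 hp).2.2.1)
    · exact cg_Psdd_cont (cv_continuous K goodK_K f hf hfI) (cv_continuous K1 goodK_K1 f hf hfI)
        (cv_continuous K11 goodK_K11 f hf hfI) (cv_continuous K goodK_K wi hwim hwiI)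
        (cv_continuous K1 goodK_K1 wi hwim hwiI) (cv_continuous K11 goodK_K11 wi hwim hwiI)
        (cv_continuous K goodK_K w hwm hwI) (cv_continuous K1 goodK_K1 w hwm hwI)
        (cv_continuous K11 goodK_K11 w hwm hwI) (fun p hp => (hpt p.1 p.2 hp).2.1)
        (fun p hp => (hpt p.1 p.2 hp).1) (fun p hp => (hpt p.1 p.2 hp).2.2.1)
    · exact cg_Psdd_cont (cv_continuous K goodK_K f hf hfI) (cv_continuous K2 goodK_K2 f hf hfI)
        (cv_continuous K11 goodK_K11 f hf hfI).neg (cv_continuous K goodK_K wi hwim hwiI)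
        (cv_continuous K2 goodK_K2 wi hwim hwiI) (cv_continuous K11 goodK_K11 wi hwim hwiI).neg
        (cv_continuous K goodK_K w hwm hwI) (cv_continuous K2 goodK_K2 w hwm hwI)
        (cv_continuous K11 goodK_K11 w hwm hwI).neg (fun p hp => (hpt p.1 p.2 hp).2.1)
        (fun p hp => (hpt p.1 p.2 hp).1) (fun p hp => (hpt p.1 p.2 hp).2.2.1)
    · intro z y hy
      obtain ⟨W0, V0, h1, hQ, -, -⟩ := hpt z y hy
      have h2 := (Gv_bounds _ _ V0 W0 h1).1
      have h3 : 0 < Gv (cv K wi z y) (cv K w z y) := lt_of_lt_of_le (by linarith) h2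
      simp only [hΨ, Ps]
      positivity
  set I : ℝ≥0∞ := ∫⁻ x, ENNReal.ofReal ((f x) ^ 2 * w x) with hI
  have hIr : ENNReal.ofReal (2 * I.toReal) = 2 * I := by
    rw [ENNReal.ofReal_mul (by norm_num), ENNReal.ofReal_toReal hfw]
    norm_num
  have hM : ∀ y : ℝ, 0 < y → ∫⁻ z, ENNReal.ofReal (Ψ z y) ≤ ENNReal.ofReal (2 * I.toReal) := by
    intro y hy
    rw [hIr]
    have hmeas : Measurable fun x => ENNReal.ofReal ((f x) ^ 2 * w x) :=
      ((hf.pow_const 2).mul hwm).ennreal_ofReal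
    calc ∫⁻ z, ENNReal.ofReal (Ψ z y)
        ≤ ∫⁻ z, 2 * ∫⁻ x, ENNReal.ofReal (K (z - x) y) * ENNReal.ofReal ((f x) ^ 2 * w x) := by
          refine lintegral_mono fun z => ?_
          obtain ⟨W0, V0, h1, hQ, -, -⟩ := hpt z y hy
          have h2 := (Gv_bounds _ _ V0 W0 h1).1
          have h4 : Ψ z y ≤ 2 * ((cv K f z y) ^ 2 / cv K wi z y) := by
            simp only [hΨ, Ps]
            have e : 2 * ((cv K f z y) ^ 2 / cv K wi z y) =
                (cv K f z y) ^ 2 / (cv K wi z y / 2) := by field_simp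
            rw [e]
            exact div_le_div_of_nonneg_left (sq_nonneg _) (by linarith) h2
          calc ENNReal.ofReal (Ψ z y)
              ≤ ENNReal.ofReal (2 * ((cv K f z y) ^ 2 / cv K wi z y)) :=
                ENNReal.ofReal_le_ofReal h4
            _ = 2 * ENNReal.ofReal ((cv K f z y) ^ 2 / cv K wi z y) := by
                rw [ENNReal.ofReal_mul (by norm_num)]
                norm_num
            _ ≤ _ := mul_le_mul_right (hfb z y hy) 2
      _ = 2 * ∫⁻ z, ∫⁻ x, ENNReal.ofReal (K (z - x) y) * ENNReal.ofReal ((f x) ^ 2 * w x) :=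
          lintegral_const_mul' _ _ (by norm_num)
      _ = 2 * I := by rw [poisson_lint _ hmeas y hy]
  have hgreen := green Ψ Ψz Ψy Ψzz Ψyy hS (2 * I.toReal) (by positivity) hM
  have h4I : ENNReal.ofReal (2 * (2 * I.toReal)) = 4 * I := by
    rw [ENNReal.ofReal_mul (by norm_num), hIr, ← mul_assoc]
    congr 1
    norm_num
  rw [h4I] at hgreen
  have h8 : ENNReal.ofReal (8 * (Q : ℝ) ^ 2) = 8 * (Q : ℝ≥0∞) ^ 2 := by
    rw [ENNReal.ofReal_mul (by norm_num), ENNReal.ofReal_pow (NNReal.coe_nonneg Q), ENNReal.ofReal_coe_nnreal]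
    norm_num
  calc ∫⁻ z, ∫⁻ y in Ioi (0:ℝ), ENNReal.ofReal (y * (((cv K1 f z y) ^ 2 + (cv K2 f z y) ^ 2) /
        cv K wi z y))
      ≤ ∫⁻ z, ∫⁻ y in Ioi (0:ℝ), ENNReal.ofReal (8 * (Q : ℝ) ^ 2) *
          ENNReal.ofReal (y * (Ψzz z y + Ψyy z y)) := by
        refine lintegral_mono fun z => setLIntegral_mono' measurableSet_Ioi fun y hy => ?_
        have hy' : 0 < y := hy
        rw [← ENNReal.ofReal_mul (by positivity)]
        refine ENNReal.ofReal_le_ofReal ?_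
        have := mul_le_mul_of_nonneg_left (hlow z y hy') hy'.le
        linarith
    _ = ENNReal.ofReal (8 * (Q : ℝ) ^ 2) * ∫⁻ z, ∫⁻ y in Ioi (0:ℝ),
          ENNReal.ofReal (y * (Ψzz z y + Ψyy z y)) := by
        rw [← lintegral_const_mul' _ _ ENNReal.ofReal_ne_top]
        refine lintegral_congr fun z => ?_
        rw [lintegral_const_mul' _ _ ENNReal.ofReal_ne_top]
    _ ≤ ENNReal.ofReal (8 * (Q : ℝ) ^ 2) * (4 * I) := mul_le_mul_right hgreen _
    _ = 32 * (Q:ℝ≥0∞) ^ 2 * I := by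
        rw [h8]
        ring

end

end GStar954
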