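import Mathlib
import Pool.Agent.Helper954.GStar.Defs
import Pool.Agent.Helper954.GStar.B3
import Pool.Agent.Helper954.GStar.C7b

set_option autoImplicit false
open MeasureTheory Filter Set Topology
open scoped ENNReal NNReal

namespace GStar954

noncomputable section

theorem core (Q : ℝ≥0) (w : ℝ → ℝ) (h : GoodW Q w) (f : ℝ → ℝ) (hf : Measurable f)
    (hfw : ∫⁻ x, ENNReal.ofReal ((f x) ^ 2 * w x) ≠ ∞) :
    ∫⁻ x, Sf (Gam f) 1 x * ENNReal.ofReal (w x) ≤
      ENNReal.ofReal (64 * Real.pi) * (Q:ℝ≥0∞) ^ 3 * ∫⁻ x, ENNReal.ofReal ((f x) ^ 2 * w x) := by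
  have hwm : Measurable (fun x => ENNReal.ofReal (w x)) := h.meas.ennreal_ofReal
  have hG := measurable_Gam f hf
  have e1 : ∫⁻ x, Sf (Gam f) 1 x * ENNReal.ofReal (w x) =
      ∫⁻ x, Sf (Gam f) 1 x ∂(volume.withDensity (fun x => ENNReal.ofReal (w x))) := by
    rw [lintegral_withDensity_eq_lintegral_mul_non_measurable _ hwm
      (Filter.Eventually.of_forall fun x => ENNReal.ofReal_lt_top)]
    refine lintegral_congr fun x => ?_
    rw [Pi.mul_apply, mul_comm]
  have e2 := Sf_tonelli (Gam f) hG (volume.withDensity (fun x => ENNReal.ofReal (w x))) 1 univ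
    MeasurableSet.univ
  rw [Measure.restrict_univ] at e2
  obtain ⟨-, -, hfacts⟩ := goodW_facts Q w h
  have hpt : ∀ z y : ℝ, 0 < y →
      Gam f z y * (volume.withDensity (fun x => ENNReal.ofReal (w x)))
        (univ ∩ Ioo (z - 1 * y) (z + 1 * y)) ≤
      ENNReal.ofReal (2 * Real.pi * Q) * ENNReal.ofReal (y * (((cv K1 f z y) ^ 2 +
        (cv K2 f z y) ^ 2) / cv K (fun x => (w x)⁻¹) z y)) := by
    intro z y hy
    obtain ⟨hc1, hc2, -, hc4, hc5, -⟩ := hfacts z y hy
    have hpi := Real.pi_pos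
    rw [one_mul, univ_inter, withDensity_apply _ measurableSet_Ioo]
    have hν : ∫⁻ x in Ioo (z - y) (z + y), ENNReal.ofReal (w x) ≤
        ENNReal.ofReal (2 * Real.pi * y * cv K w z y) := by
      calc ∫⁻ x in Ioo (z - y) (z + y), ENNReal.ofReal (w x) ≤
            ∫⁻ x in Ioo (z - y) (z + y), ENNReal.ofReal (2 * Real.pi * y) *
              (ENNReal.ofReal (K (z - x) y) * ENNReal.ofReal (w x)) := by
            refine setLIntegral_mono' measurableSet_Ioo fun x hx => ?_
            rw [← mul_assoc, ← ENNReal.ofReal_mul (by positivity)]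
            refine le_mul_of_one_le_left bot_le ?_
            rw [← ENNReal.ofReal_one]
            refine ENNReal.ofReal_le_ofReal ?_
            unfold K
            have hx1 : (z - x) ^ 2 ≤ y ^ 2 := by
              have := hx.1
              have := hx.2
              exact sq_le_sq' (by linarith) (by linarith)
            have hden : 0 < Real.pi * ((z - x) ^ 2 + y ^ 2) := by positivity
            rw [← mul_div_assoc, le_div_iff₀ hden]
            nlinarith [mul_le_mul_of_nonneg_left hx1 hpi.le]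
        _ ≤ ∫⁻ x, ENNReal.ofReal (2 * Real.pi * y) *
              (ENNReal.ofReal (K (z - x) y) * ENNReal.ofReal (w x)) := setLIntegral_le_lintegral _ _
        _ = ENNReal.ofReal (2 * Real.pi * y * cv K w z y) := by
            rw [lintegral_const_mul' _ _ ENNReal.ofReal_ne_top, hc5,
              ← ENNReal.ofReal_mul (by positivity)]
    have hGam : Gam f z y = ENNReal.ofReal ((cv K1 f z y) ^ 2 + (cv K2 f z y) ^ 2) := by
      unfold Gam; rw [if_pos hy]
    set G := (cv K1 f z y) ^ 2 + (cv K2 f z y) ^ 2 with hGdef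
    have hG0 : 0 ≤ G := by positivity
    rw [hGam]
    calc ENNReal.ofReal G * ∫⁻ x in Ioo (z - y) (z + y), ENNReal.ofReal (w x) ≤
          ENNReal.ofReal G * ENNReal.ofReal (2 * Real.pi * y * cv K w z y) :=
            mul_le_mul_right hν _
      _ = ENNReal.ofReal (G * (2 * Real.pi * y * cv K w z y)) := (ENNReal.ofReal_mul hG0).symm
      _ ≤ ENNReal.ofReal (2 * Real.pi * Q * (y * (G / cv K (fun x => (w x)⁻¹) z y))) := by
          refine ENNReal.ofReal_le_ofReal ?_
          have h1 : cv K w z y ≤ Q / cv K (fun x => (w x)⁻¹) z y := by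
            rw [le_div_iff₀ hc2, mul_comm]; exact hc4
          calc G * (2 * Real.pi * y * cv K w z y) ≤
                G * (2 * Real.pi * y * (Q / cv K (fun x => (w x)⁻¹) z y)) := by gcongr
            _ = _ := by ring
      _ = _ := ENNReal.ofReal_mul (by positivity)
  rw [e1, e2]
  calc ∫⁻ z, ∫⁻ y in Ioi (0:ℝ), Gam f z y *
        (volume.withDensity (fun x => ENNReal.ofReal (w x))) (univ ∩ Ioo (z - 1 * y) (z + 1 * y)) ≤
        ∫⁻ z, ∫⁻ y in Ioi (0:ℝ), ENNReal.ofReal (2 * Real.pi * Q) *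
          ENNReal.ofReal (y * (((cv K1 f z y) ^ 2 +
          (cv K2 f z y) ^ 2) / cv K (fun x => (w x)⁻¹) z y)) :=
        lintegral_mono fun z => setLIntegral_mono' measurableSet_Ioi fun y hy => hpt z y hy
    _ = ENNReal.ofReal (2 * Real.pi * Q) * ∫⁻ z, ∫⁻ y in Ioi (0:ℝ),
          ENNReal.ofReal (y * (((cv K1 f z y) ^ 2 +
          (cv K2 f z y) ^ 2) / cv K (fun x => (w x)⁻¹) z y)) := by
        simp only [lintegral_const_mul' _ _ ENNReal.ofReal_ne_top]
    _ ≤ ENNReal.ofReal (2 * Real.pi * Q) *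
          (32 * (Q:ℝ≥0∞) ^ 2 * ∫⁻ x, ENNReal.ofReal ((f x) ^ 2 * w x)) :=
        mul_le_mul_right (core_green Q w h f hf hfw) _
    _ = _ := by
        have hQ : (Q : ℝ≥0∞) = ENNReal.ofReal (Q : ℝ) := (ENNReal.ofReal_coe_nnreal).symm
        have h32 : (32 : ℝ≥0∞) = ENNReal.ofReal 32 := by norm_num
        have hpi := Real.pi_pos
        have e3 : ENNReal.ofReal (2 * Real.pi * Q) * (32 * (Q:ℝ≥0∞) ^ 2) =
            ENNReal.ofReal (64 * Real.pi) * (Q:ℝ≥0∞) ^ 3 := by
          rw [hQ, h32, ← ENNReal.ofReal_pow Q.coe_nonneg, ← ENNReal.ofReal_pow Q.coe_nonneg,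
            ← ENNReal.ofReal_mul (by norm_num), ← ENNReal.ofReal_mul (by positivity),
            ← ENNReal.ofReal_mul (by positivity)]
          congr 1
          ring
        rw [← mul_assoc, e3]

end

end GStar954
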