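import Mathlib
import Pool.Agent.Helper954.GStar.Defs

set_option autoImplicit false
open MeasureTheory Filter Set Topology
open scoped ENNReal NNReal

namespace GStar954

noncomputable section

theorem Ap_dichotomy (p : ℝ) (hp : 1 < p) (U : ℝ → ℝ) (hU : IsWeight U)
    (hA : MuckenhouptA p U) : (∀ᵐ x, U x = 0) ∨ (∀ᵐ x, U x ≠ 0) := by
  by_cases h0 : ∀ᵐ x, U x = 0
  · exact Or.inl h0
  right
  obtain ⟨C, hC⟩ := hA
  have hmeas : Measurable fun x => ENNReal.ofReal (U x) := hU.1.ennreal_ofReal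
  have hexists : ∃ n : ℕ, ∫⁻ x in Icc (-(n:ℝ)) n, ENNReal.ofReal (U x) ≠ 0 := by
    by_contra hcon
    push Not at hcon
    apply h0
    have h1 : ∀ n : ℕ, ∀ᵐ x, x ∈ Icc (-(n:ℝ)) n → U x = 0 := by
      intro n
      have h2 := (lintegral_eq_zero_iff hmeas).1 (hcon n)
      have h3 : ∀ᵐ x ∂(volume.restrict (Icc (-(n:ℝ)) n)), U x = 0 := by
        filter_upwards [h2] with x hx
        simp only [Pi.zero_apply, ENNReal.ofReal_eq_zero] at hx
        exact le_antisymm hx (hU.2.1 x)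
      exact (ae_restrict_iff' measurableSet_Icc).1 h3
    filter_upwards [ae_all_iff.2 h1] with x hx
    have h2 : |x| ≤ ⌈|x|⌉₊ := Nat.le_ceil _
    exact hx ⌈|x|⌉₊ (abs_le.1 h2)
  obtain ⟨n, hn⟩ := hexists
  have key : ∀ m : ℕ, ∀ᵐ x, x ∈ Icc (-(m:ℝ)) m → U x ≠ 0 := by
    intro m
    set N : ℕ := max m (n + 1) with hN
    have hmN : (m : ℝ) ≤ N := by exact_mod_cast le_max_left _ _
    have hnN : (n : ℝ) + 1 ≤ N := by exact_mod_cast le_max_right _ _
    have hn0 : (0:ℝ) ≤ n := Nat.cast_nonneg _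
    have hAB := hC (-(N:ℝ)) N (by linarith)
    have hA0 : ∫⁻ x in Icc (-(N:ℝ)) N, ENNReal.ofReal (U x) ≠ 0 := by
      intro h
      apply hn
      refine le_antisymm ?_ zero_le
      rw [← h]
      exact lintegral_mono_set (Icc_subset_Icc (by linarith) (by linarith))
    have hlt : (∫⁻ x in Icc (-(N:ℝ)) N, ENNReal.ofReal (U x)) *
        (∫⁻ x in Icc (-(N:ℝ)) N, ENNReal.ofReal (U x) ^ (-1 / (p - 1))) ^ (p - 1) < ⊤ := by
      refine lt_of_le_of_lt hAB ?_
      exact ENNReal.mul_lt_top ENNReal.coe_lt_top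
        (ENNReal.rpow_lt_top_of_nonneg (by linarith) ENNReal.ofReal_ne_top)
    have hB : ∫⁻ x in Icc (-(N:ℝ)) N, ENNReal.ofReal (U x) ^ (-1 / (p - 1)) ≠ ⊤ := by
      intro h
      rw [h, ENNReal.top_rpow_of_pos (by linarith), ENNReal.mul_top hA0] at hlt
      exact lt_irrefl _ hlt
    have h1 := ae_lt_top (hmeas.pow_const (-1 / (p - 1))) hB
    have h2 := (ae_restrict_iff' measurableSet_Icc).1 h1
    filter_upwards [h2] with x hx hxm hU0
    have h3 := hx ⟨by linarith [hxm.1], by linarith [hxm.2]⟩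
    rw [hU0, ENNReal.ofReal_zero, ENNReal.zero_rpow_of_neg] at h3
    · exact lt_irrefl _ h3
    · exact div_neg_of_neg_of_pos (by norm_num) (by linarith)
  filter_upwards [ae_all_iff.2 key] with x hx
  have h2 : |x| ≤ ⌈|x|⌉₊ := Nat.le_ceil _
  exact hx ⌈|x|⌉₊ (abs_le.1 h2)

end

end GStar954
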