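import Mathlib
import Pool.Agent.Helper954.GStar.Defs

set_option autoImplicit false
open MeasureTheory Filter Set Topology
open scoped ENNReal NNReal

namespace GStar954

noncomputable section

theorem holder_step (p : ℝ) (hp1 : 1 < p) (hp2 : p < 2) (U g S : ℝ → ℝ≥0∞) (hUm : Measurable U)
    (hgm : Measurable g) (hSm : Measurable S) (hU : ∀ᵐ x, U x ≠ 0 ∧ U x ≠ ∞)
    (hg : ∀ᵐ x, g x ≠ 0 ∧ g x ≠ ∞) :
    ∫⁻ x, (S x) ^ (p / 2) * U x ≤
      (∫⁻ x, S x * (U x * (g x) ^ (p - 2))) ^ (p / 2) *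
        (∫⁻ x, (g x) ^ p * U x) ^ (1 - p / 2) := by
  have hA : AEMeasurable (fun x => S x * (U x * (g x) ^ (p - 2))) volume :=
    (hSm.mul (hUm.mul (hgm.pow_const _))).aemeasurable
  have hB : AEMeasurable (fun x => (g x) ^ p * U x) volume :=
    ((hgm.pow_const _).mul hUm).aemeasurable
  have h1 : (0 : ℝ) ≤ p / 2 := by linarith
  have h2 : (0 : ℝ) ≤ 1 - p / 2 := by linarith
  have hmain := ENNReal.lintegral_mul_norm_pow_le (μ := volume) hA hB h1 h2 (by ring)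
  refine le_trans (le_of_eq ?_) hmain
  apply lintegral_congr_ae
  filter_upwards [hU, hg] with x hUx hgx
  have e1 : (U x) ^ (p / 2) * (U x) ^ (1 - p / 2) = U x := by
    rw [← ENNReal.rpow_add _ _ hUx.1 hUx.2]
    rw [show p / 2 + (1 - p / 2) = 1 by ring, ENNReal.rpow_one]
  have e2 : ((g x) ^ (p - 2)) ^ (p / 2) * ((g x) ^ p) ^ (1 - p / 2) = 1 := by
    rw [← ENNReal.rpow_mul, ← ENNReal.rpow_mul, ← ENNReal.rpow_add _ _ hgx.1 hgx.2]
    rw [show (p - 2) * (p / 2) + p * (1 - p / 2) = 0 by ring, ENNReal.rpow_zero]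
  show (S x) ^ (p / 2) * U x = (S x * (U x * (g x) ^ (p - 2))) ^ (p / 2) *
    ((g x) ^ p * U x) ^ (1 - p / 2)
  rw [ENNReal.mul_rpow_of_nonneg _ _ h1, ENNReal.mul_rpow_of_nonneg _ _ h1,
    ENNReal.mul_rpow_of_nonneg _ _ h2]
  calc (S x) ^ (p / 2) * U x = (S x) ^ (p / 2) * ((U x) ^ (p / 2) * (U x) ^ (1 - p / 2)) * 1 := by
        rw [e1, mul_one]
    _ = (S x) ^ (p / 2) * ((U x) ^ (p / 2) * (U x) ^ (1 - p / 2)) *
        (((g x) ^ (p - 2)) ^ (p / 2) * ((g x) ^ p) ^ (1 - p / 2)) := by rw [e2]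
    _ = _ := by ring

end

end GStar954
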