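import Mathlib
import Pool.Agent.Helper954.GStar.Defs
import Pool.Agent.Helper954.GStar.A7
import Pool.Agent.Helper954.GStar.A8
import Pool.Agent.Helper954.GStar.A9
import Pool.Agent.Helper954.GStar.A10
import Pool.Agent.Helper954.GStar.C7c
import Pool.Agent.Helper954.GStar.D1a

set_option autoImplicit false
open MeasureTheory Filter Set Topology
open scoped ENNReal NNReal

namespace GStar954

noncomputable section

theorem area_bound (p : ℝ) (hp1 : 1 < p) (hp2 : p < 2) (A : ℝ≥0) : ∃ C : ℝ≥0,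
    ∀ U : ℝ → ℝ≥0∞, Measurable U → (∀ᵐ x, U x ≠ 0 ∧ U x ≠ ∞) → Ap p A U →
    ∀ f : ℝ → ℝ, Measurable f → ∫⁻ x, ENNReal.ofReal |f x| ^ p * U x ≠ ∞ →
      Integrable (fun x => f x / (1 + x ^ 2)) ∧
      ∫⁻ x, (Sf (Gam f) 1 x) ^ (p / 2) * U x ≤ C * ∫⁻ x, ENNReal.ofReal |f x| ^ p * U x := by
  obtain ⟨C1, hC1⟩ := muckenhoupt p hp1 A
  obtain ⟨L, hL⟩ := rdf p hp1 C1
  obtain ⟨A', hA'⟩ := A2_of_rdf p hp1 hp2 A L
  obtain ⟨Q, hQ⟩ := poisson_A2 A'
  refine ⟨(Real.toNNReal (64 * Real.pi) * Q ^ 3) ^ (p / 2) * L, ?_⟩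
  intro U hUm hU hAp f hf hfin
  have hp0 : 0 < p := by linarith
  by_cases hf0 : f =ᵐ[volume] 0
  · -- trivial case
    constructor
    · have : (fun x => f x / (1 + x ^ 2)) =ᵐ[volume] fun _ => 0 := by
        filter_upwards [hf0] with x hx
        rw [hx]; simp
      exact (integrable_zero ℝ ℝ volume).congr this.symm
    · have hcv : ∀ k z y, cv k f z y = 0 := by
        intro k z y
        unfold cv
        rw [← integral_zero ℝ ℝ (μ := volume)]
        apply integral_congr_ae
        filter_upwards [hf0] with x hx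
        rw [hx]; simp
      have hG : ∀ z y, Gam f z y = 0 := by
        intro z y
        unfold Gam
        split_ifs
        · rw [hcv, hcv]; simp
        · rfl
      have hS : ∀ x, Sf (Gam f) 1 x = 0 := by
        intro x
        unfold Sf
        simp [hG]
      have : ∫⁻ x, (Sf (Gam f) 1 x) ^ (p / 2) * U x = 0 := by
        simp only [hS]
        rw [ENNReal.zero_rpow_of_pos (by linarith)]
        simp
      rw [this]
      exact zero_le
  · set F : ℝ → ℝ≥0∞ := fun x => ENNReal.ofReal |f x| with hF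
    have hFm : Measurable F := by
      have : Measurable (fun x => |f x|) := measurable_abs.comp hf
      exact this.ennreal_ofReal
    obtain ⟨g, hgm, hFg, hMg, hgi⟩ := hL U hUm (hC1 U hUm hU hAp) F hFm
    -- g is nonzero
    have hg0 : ∀ x, g x ≠ 0 := by
      intro x hx
      apply hf0
      have h1 := hMg x
      rw [hx, mul_zero] at h1
      have h2 : ∀ n : ℕ, g =ᵐ[volume.restrict (Ioo (-((n:ℝ) + |x| + 1)) ((n:ℝ) + |x| + 1))] 0 := by
        intro n
        rw [← lintegral_eq_zero_iff hgm]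
        have hn : (0:ℝ) ≤ n := Nat.cast_nonneg n
        have hxm : x ∈ Ioo (-((n:ℝ) + |x| + 1)) ((n:ℝ) + |x| + 1) := by
          have := le_abs_self x
          have := neg_abs_le x
          constructor <;> linarith
        have h3 : (volume (Ioo (-((n:ℝ) + |x| + 1)) ((n:ℝ) + |x| + 1)))⁻¹ *
            ∫⁻ y in Ioo (-((n:ℝ) + |x| + 1)) ((n:ℝ) + |x| + 1), g y ≤ 0 := by
          refine le_trans ?_ h1
          unfold MM
          exact le_iSup₂ (f := fun (I : ℝ × ℝ) (_ : x ∈ Ioo I.1 I.2) => (volume (Ioo I.1 I.2))⁻¹ * ∫⁻ y in Ioo I.1 I.2, g y)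
            (-((n:ℝ) + |x| + 1), (n:ℝ) + |x| + 1) hxm
        have h4 := le_antisymm h3 zero_le
        rcases mul_eq_zero.1 h4 with h | h
        · exfalso
          rw [ENNReal.inv_eq_zero, Real.volume_Ioo] at h
          exact ENNReal.ofReal_ne_top h
        · exact h
      have h5 : (⋃ n : ℕ, Ioo (-((n:ℝ) + |x| + 1)) ((n:ℝ) + |x| + 1)) = univ := by
        rw [eq_univ_iff_forall]
        intro y
        rw [mem_iUnion]
        obtain ⟨n, hn⟩ := exists_nat_gt |y|
        refine ⟨n, ?_⟩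
        have := le_abs_self y
        have := neg_abs_le y
        have := abs_nonneg x
        constructor <;> linarith
      have h6 : g =ᵐ[volume] 0 := by
        have h7 := (ae_restrict_iUnion_iff (μ := volume) (fun n : ℕ => Ioo (-((n:ℝ) + |x| + 1)) ((n:ℝ) + |x| + 1)) (fun y => g y = (0 : ℝ → ℝ≥0∞) y)).2 h2
        rw [h5, Measure.restrict_univ] at h7
        exact h7
      filter_upwards [h6] with y hy
      have h8 : F y = 0 := le_antisymm ((hFg y).trans hy.le) zero_le
      rw [hF] at h8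
      simp only [ENNReal.ofReal_eq_zero] at h8
      have := abs_nonneg (f y)
      have h9 : |f y| = 0 := le_antisymm h8 this
      simpa using h9
    have hIfin : ∫⁻ x, (g x) ^ p * U x ≠ ∞ := by
      refine ne_top_of_le_ne_top ?_ hgi
      exact ENNReal.mul_ne_top ENNReal.coe_ne_top hfin
    have hgtop : ∀ᵐ x, g x ≠ ∞ := by
      have h1 := ae_lt_top (by fun_prop : Measurable fun x => (g x) ^ p * U x) hIfin
      filter_upwards [h1, hU] with x h2 h3 h4
      rw [h4, ENNReal.top_rpow_of_pos hp0, ENNReal.top_mul h3.1] at h2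
      exact lt_irrefl _ h2
    have hgae : ∀ᵐ x, g x ≠ 0 ∧ g x ≠ ∞ := by
      filter_upwards [hgtop] with x hx
      exact ⟨hg0 x, hx⟩
    set w : ℝ → ℝ≥0∞ := fun x => U x * (g x) ^ (p - 2) with hw
    have hwm : Measurable w := by fun_prop
    have hwae : ∀ᵐ x, w x ≠ 0 ∧ w x ≠ ∞ := by
      filter_upwards [hgae, hU] with x h1 h2
      constructor
      · refine mul_ne_zero h2.1 ?_
        intro h
        rw [ENNReal.rpow_eq_zero_iff] at h
        rcases h with h | h
        · exact h1.1 h.1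
        · exact h1.2 h.1
      · refine ENNReal.mul_ne_top h2.2 ?_
        intro h
        rw [ENNReal.rpow_eq_top_iff] at h
        rcases h with h | h
        · exact h1.1 h.1
        · exact h1.2 h.1
    have hAp2 : Ap 2 A' w := hA' U g hUm hgm hU hAp hMg hgae
    have hpois := hQ w hwm hwae hAp2
    classical
    set wr : ℝ → ℝ := fun x => if w x = 0 ∨ w x = ∞ then 1 else (w x).toReal with hwr
    have hwrm : Measurable wr := by
      apply Measurable.ite
      · exact (hwm (measurableSet_singleton 0)).union (hwm (measurableSet_singleton ∞))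
      · exact measurable_const
      · exact hwm.ennreal_toReal
    have hwrpos : ∀ x, 0 < wr x := by
      intro x
      simp only [hwr]
      split_ifs with h
      · exact one_pos
      · push Not at h
        exact ENNReal.toReal_pos h.1 h.2
    have hwr1 : ∀ᵐ x, ENNReal.ofReal (wr x) = w x := by
      filter_upwards [hwae] with x hx
      have : wr x = (w x).toReal := by
        simp only [hwr]
        rw [if_neg]
        push Not
        exact hx
      rw [this, ENNReal.ofReal_toReal hx.2]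
    have hwr2 : ∀ᵐ x, ENNReal.ofReal ((wr x)⁻¹) = (w x)⁻¹ := by
      filter_upwards [hwr1] with x hx
      rw [ENNReal.ofReal_inv_of_pos (hwrpos x), hx]
    have hGood : GoodW Q wr := by
      refine ⟨hwrm, hwrpos, ?_⟩
      intro z y hy
      have e1 : ∫⁻ x, ENNReal.ofReal (K (z - x) y) * ENNReal.ofReal (wr x) = ∫⁻ x, ENNReal.ofReal (K (z - x) y) * w x := by
        apply lintegral_congr_ae
        filter_upwards [hwr1] with x hx
        rw [hx]
      have e2 : ∫⁻ x, ENNReal.ofReal (K (z - x) y) * ENNReal.ofReal ((wr x)⁻¹) = ∫⁻ x, ENNReal.ofReal (K (z - x) y) * (w x)⁻¹ := by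
        apply lintegral_congr_ae
        filter_upwards [hwr2] with x hx
        rw [hx]
      rw [e1, e2]
      exact hpois z y hy
    have hf2 : ∫⁻ x, ENNReal.ofReal ((f x) ^ 2 * wr x) ≤ ∫⁻ x, (g x) ^ p * U x := by
      apply lintegral_mono_ae
      filter_upwards [hwr1, hgae] with x h1 h2
      rw [ENNReal.ofReal_mul (sq_nonneg _), h1]
      have e1 : ENNReal.ofReal ((f x) ^ 2) = (F x) ^ (2:ℝ) := by
        have : (f x) ^ 2 = |f x| ^ (2:ℝ) := by
          rw [Real.rpow_two, sq_abs]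
        rw [this, ← ENNReal.ofReal_rpow_of_nonneg (abs_nonneg _) (by norm_num)]
      have e2 : (g x) ^ p = (g x) ^ (2:ℝ) * (g x) ^ (p - 2) := by
        rw [← ENNReal.rpow_add _ _ h2.1 h2.2]; congr 1; ring
      rw [e1, e2]
      calc (F x) ^ (2:ℝ) * w x ≤ (g x) ^ (2:ℝ) * w x := by
            gcongr
            exact hFg x
        _ = _ := by simp only [hw]; ring
    have hf2fin : ∫⁻ x, ENNReal.ofReal ((f x) ^ 2 * wr x) ≠ ∞ := ne_top_of_le_ne_top hIfin hf2
    refine ⟨(goodW_f Q wr hGood f hf hf2fin).1, ?_⟩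
    have hcore := core Q wr hGood f hf hf2fin
    have hSm : Measurable (Sf (Gam f) 1) := measurable_Sf _ (measurable_Gam f hf) 1
    have hh := holder_step p hp1 hp2 U g (Sf (Gam f) 1) hUm hgm hSm hU hgae
    set I := ∫⁻ x, (g x) ^ p * U x with hI
    set M : ℝ≥0∞ := ENNReal.ofReal (64 * Real.pi) * (Q:ℝ≥0∞) ^ 3 with hM
    have hSw : ∫⁻ x, Sf (Gam f) 1 x * (U x * (g x) ^ (p - 2)) ≤ M * I := by
      calc ∫⁻ x, Sf (Gam f) 1 x * (U x * (g x) ^ (p - 2)) = ∫⁻ x, Sf (Gam f) 1 x * ENNReal.ofReal (wr x) := by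
            apply lintegral_congr_ae
            filter_upwards [hwr1] with x hx
            rw [hx]
        _ ≤ M * ∫⁻ x, ENNReal.ofReal ((f x) ^ 2 * wr x) := hcore
        _ ≤ M * I := by gcongr
    have hCM : (((Real.toNNReal (64 * Real.pi) * Q ^ 3) ^ (p / 2) * L : ℝ≥0) : ℝ≥0∞) = M ^ (p / 2) * L := by
      rw [ENNReal.coe_mul, ENNReal.coe_rpow_of_nonneg _ (by linarith)]
      simp only [hM, ENNReal.ofReal, ENNReal.coe_mul, ENNReal.coe_pow]
    calc ∫⁻ x, (Sf (Gam f) 1 x) ^ (p / 2) * U x ≤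
        (∫⁻ x, Sf (Gam f) 1 x * (U x * (g x) ^ (p - 2))) ^ (p / 2) * I ^ (1 - p / 2) := hh
      _ ≤ (M * I) ^ (p / 2) * I ^ (1 - p / 2) := by gcongr
      _ = M ^ (p / 2) * (I ^ (p / 2) * I ^ (1 - p / 2)) := by
        rw [ENNReal.mul_rpow_of_nonneg _ _ (by linarith), mul_assoc]
      _ = M ^ (p / 2) * I := by
        rw [← ENNReal.rpow_add_of_nonneg _ _ (by linarith) (by linarith)]
        congr 1
        rw [show p / 2 + (1 - p / 2) = 1 by ring, ENNReal.rpow_one]
      _ ≤ M ^ (p / 2) * (L * ∫⁻ x, (F x) ^ p * U x) := by gcongr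
      _ = (((Real.toNNReal (64 * Real.pi) * Q ^ 3) ^ (p / 2) * L : ℝ≥0) : ℝ≥0∞) * ∫⁻ x, (F x) ^ p * U x := by
        rw [hCM, mul_assoc]

end

end GStar954
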