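import Mathlib
import Pool.Agent.Helper954.GStar.Defs
import Pool.Agent.Helper954.GStar.B7
import Pool.Agent.Helper954.GStar.B8
import Pool.Agent.Helper954.GStar.D0
import Pool.Agent.Helper954.GStar.D1b

set_option autoImplicit false
open MeasureTheory Filter Set Topology
open scoped ENNReal NNReal

namespace GStar954

noncomputable section

theorem suff (lam p q : ℝ) (hlam : 1 < lam) (hlam2 : lam ≤ 2) (hp : 2 / lam < p) (hp2 : p < 2)
    (U : ℝ → ℝ) (hU : IsWeight U) (hA : MuckenhouptA p U) (hq1 : 1 < q) (hq : q < lam * p / 2)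
    (hB : ClassB q U) : ∃ C : ℝ≥0, ∀ f : ℝ → ℝ, Measurable f →
      ∫⁻ x, ENNReal.ofReal (|f x| ^ p * U x) ≠ ∞ →
      ((∀ᵐ x, U x ≠ 0) → Integrable (fun x => f x / (1 + x ^ 2))) ∧
      ∫⁻ x, (gs lam (Gam f) x) ^ (p / 2) * ENNReal.ofReal (U x) ≤
        C * ∫⁻ x, ENNReal.ofReal (|f x| ^ p * U x) := by
  have hlam0 : (0:ℝ) < lam := by linarith
  have hp1 : 1 < p := by
    have : (1:ℝ) ≤ 2 / lam := by
      rw [le_div_iff₀ hlam0]; linarith
    linarith
  have hp0 : (0:ℝ) < p := by linarith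
  rcases Ap_dichotomy p hp1 U hU hA with h0 | h0
  · refine ⟨0, fun f hf hfin => ⟨fun hne => ?_, ?_⟩⟩
    · exfalso
      have hfalse : ∀ᵐ x : ℝ, False := by
        filter_upwards [h0, hne] with x h1 h2
        exact h2 h1
      rw [Filter.eventually_false_iff_eq_bot, ae_eq_bot] at hfalse
      exact (NeZero.ne (volume : Measure ℝ)) hfalse
    · have : ∫⁻ x, (gs lam (Gam f) x) ^ (p / 2) * ENNReal.ofReal (U x) = 0 := by
        rw [← lintegral_zero (μ := (volume : Measure ℝ))]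
        apply lintegral_congr_ae
        filter_upwards [h0] with x hx
        simp [hx]
      rw [this]
      simp
  · obtain ⟨A, hA'⟩ := hA
    obtain ⟨hUm, hU0, hUl⟩ := id hU
    set U' : ℝ → ℝ≥0∞ := fun x => ENNReal.ofReal (U x) with hU'
    have hU'm : Measurable U' := hUm.ennreal_ofReal
    have hU'0 : ∀ᵐ x, U' x ≠ 0 ∧ U' x ≠ ∞ := by
      filter_upwards [h0] with x hx
      refine ⟨?_, ENNReal.ofReal_ne_top⟩
      have : 0 < U x := lt_of_le_of_ne (hU0 x) (Ne.symm hx)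
      simpa [hU'] using this
    have hAp : Ap p A U' := by
      intro a b hab
      have := hA' a b hab
      rw [setLIntegral_congr Ioo_ae_eq_Icc, setLIntegral_congr Ioo_ae_eq_Icc]
      exact this
    obtain ⟨C1, hC1⟩ := area_bound p hp1 hp2 A
    obtain ⟨CB, hCB⟩ := ball_of_classB q hq1 U hU hB
    set ν : Measure ℝ := volume.withDensity U' with hν
    have hνI : ∀ a b : ℝ, ν (Ioo a b) = ∫⁻ x in Ioo a b, ENNReal.ofReal (U x) := by
      intro a b
      rw [hν, withDensity_apply _ measurableSet_Ioo]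
    have hνfin : ∀ z y : ℝ, ν (Ioo (z - y) (z + y)) ≠ ∞ := by
      intro z y
      rw [hνI]
      have hint : IntegrableOn U (Icc (z - y) (z + y)) :=
        hUl.integrableOn_isCompact isCompact_Icc
      have hint' : IntegrableOn U (Ioo (z - y) (z + y)) := hint.mono_set Ioo_subset_Icc_self
      exact hint'.lintegral_lt_top.ne
    have hνD : ∀ z y a : ℝ, 0 < y → 1 ≤ a →
      ν (Ioo (z - a * y) (z + a * y)) ≤ CB * ENNReal.ofReal (a ^ q) * ν (Ioo (z - y) (z + y)) := by
      intro z y a hy ha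
      rw [hνI, hνI]
      exact hCB z y a hy ha
    haveI : SFinite ν := by rw [hν]; infer_instance
    obtain ⟨C2, hC2⟩ := gs_lint lam (p / 2) q hlam0 (by linarith) (by linarith) (by linarith)
      (by linarith) CB ν hνfin hνD
    have hUtop : ∀ᵐ x : ℝ, U' x < ∞ := Filter.Eventually.of_forall fun x => ENNReal.ofReal_lt_top
    have hconv : ∀ g : ℝ → ℝ≥0∞, ∫⁻ x, g x ∂ν = ∫⁻ x, g x * U' x := by
      intro g
      rw [hν, lintegral_withDensity_eq_lintegral_mul_non_measurable _ hU'm hUtop]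
      apply lintegral_congr
      intro x
      simp [mul_comm]
    refine ⟨C2 * C1, fun f hf hfin => ?_⟩
    have hRHS : ∫⁻ x, ENNReal.ofReal (|f x| ^ p * U x) = ∫⁻ x, ENNReal.ofReal |f x| ^ p * U' x := by
      apply lintegral_congr
      intro x
      rw [ENNReal.ofReal_mul (by positivity), ENNReal.ofReal_rpow_of_nonneg (abs_nonneg _) hp0.le]
    have hfin' : ∫⁻ x, ENNReal.ofReal |f x| ^ p * U' x ≠ ∞ := by rw [← hRHS]; exact hfin
    obtain ⟨hI, hS⟩ := hC1 U' hU'm hU'0 hAp f hf hfin'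
    refine ⟨fun _ => hI, ?_⟩
    have h1 := hC2 (Gam f) (measurable_Gam f hf)
    rw [hconv, hconv] at h1
    calc ∫⁻ x, (gs lam (Gam f) x) ^ (p / 2) * ENNReal.ofReal (U x)
        ≤ C2 * ∫⁻ x, (Sf (Gam f) 1 x) ^ (p / 2) * U' x := h1
      _ ≤ C2 * (C1 * ∫⁻ x, ENNReal.ofReal |f x| ^ p * U' x) := by gcongr
      _ = ((C2 * C1 : ℝ≥0) : ℝ≥0∞) * ∫⁻ x, ENNReal.ofReal (|f x| ^ p * U x) := by
          rw [hRHS, ENNReal.coe_mul, mul_assoc]

end

end GStar954
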