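import Mathlib
import Pool.Agent.Helper954.GStar.Defs
import Pool.Agent.Helper954.GStar.C1
import Pool.Agent.Helper954.GStar.C2

set_option autoImplicit false
open MeasureTheory Filter Set Topology
open scoped ENNReal NNReal

namespace GStar954

noncomputable section

theorem poisson_eq (f : ℝ → ℝ) (z y : ℝ) : poisson f z y = cv K f z y := by
  unfold poisson cv
  rw [← integral_sub_left_eq_self (fun x => K (z - x) y * f x) volume z, ← integral_const_mul]
  apply integral_congr_ae
  filter_upwards with x
  unfold K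
  rw [sub_sub_cancel]
  simp only [div_eq_mul_inv, mul_inv]
  ring

theorem poisson_congr (f g : ℝ → ℝ) (h : f =ᵐ[volume] g) : poisson f = poisson g := by
  funext z y
  unfold poisson
  congr 1
  apply integral_congr_ae
  have h1 := (quasiMeasurePreserving_sub_left (volume : Measure ℝ) z).ae_eq_comp h
  filter_upwards [h1] with x hx
  simp only [Function.comp] at hx
  simp only [hx]

theorem poisson_integrand (f : ℝ → ℝ) (hf : Measurable f)
    (hfi : Integrable (fun x => f x / (1 + x ^ 2))) (z y : ℝ) (hy : 0 < y) :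
    Integrable (fun x => y * f (z - x) / (x ^ 2 + y ^ 2)) := by
  have h1 := ((cv_integrable K goodK_K f hf hfi z y hy).comp_sub_left z).const_mul Real.pi
  refine h1.congr ?_
  filter_upwards with x
  unfold K
  rw [sub_sub_cancel]
  have hpi := Real.pi_ne_zero
  have h2 : x ^ 2 + y ^ 2 ≠ 0 := by positivity
  field_simp

theorem gradSq_eq (f : ℝ → ℝ) (hf : Measurable f) (hfi : Integrable (fun x => f x / (1 + x ^ 2)))
    (z y : ℝ) (hy : 0 < y) : gradSq f z y = (cv K1 f z y) ^ 2 + (cv K2 f z y) ^ 2 := by
  unfold gradSq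
  have e1 : (fun s => poisson f s y) = fun s => cv K f s y := funext fun s => poisson_eq f s y
  have e2 : (fun s => poisson f z s) = fun s => cv K f z s := funext fun s => poisson_eq f z s
  rw [e1, e2, (cv_deriv_z K K1 goodK_K goodK_K1 K_dt f hf hfi z y hy).deriv,
    (cv_deriv_y K K2 goodK_K goodK_K2 K_dy f hf hfi z y hy).deriv]

theorem gStar_rpow (lam p : ℝ) (hp : 0 < p) (f : ℝ → ℝ) (hf : Measurable f)
    (hfi : Integrable (fun x => f x / (1 + x ^ 2))) (x : ℝ) :
    (gStar lam f x) ^ p = (gs lam (Gam f) x) ^ (p / 2) := by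
  have h1 : (∫⁻ z, ∫⁻ y in Ioi (0:ℝ), ENNReal.ofReal ((y / (|x - z| + y)) ^ lam * gradSq f z y))
      = gs lam (Gam f) x := by
    unfold gs
    apply lintegral_congr
    intro z
    apply setLIntegral_congr_fun measurableSet_Ioi
    intro y hy
    have hy : 0 < y := hy
    simp only
    have h2 : 0 ≤ (y / (|x - z| + y)) ^ lam := by positivity
    rw [ENNReal.ofReal_mul h2, gradSq_eq f hf hfi z y hy]
    unfold Gam
    rw [if_pos hy]
  unfold gStar
  rw [h1, ← ENNReal.rpow_mul]
  congr 1
  ring

end

end GStar954
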