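import Mathlib
import Pool.Agent.Helper954.GStar.Defs

set_option autoImplicit false
open MeasureTheory Filter Set Topology
open scoped ENNReal NNReal

namespace GStar954

noncomputable section

theorem exists_rep (U : ℝ → ℝ) (hU : IsWt U) : ∃ U' : ℝ → ℝ, IsWeight U' ∧ U =ᵐ[volume] U' := by
  have hm : AEStronglyMeasurable U volume := hU.2.aestronglyMeasurable
  have hae : U =ᵐ[volume] fun x => max (hm.mk U x) 0 := by
    filter_upwards [hm.ae_eq_mk] with x hx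
    rw [← hx, max_eq_left (hU.1 x)]
  refine ⟨fun x => max (hm.mk U x) 0, ⟨?_, fun x => le_max_right _ _, ?_⟩, hae⟩
  · exact hm.stronglyMeasurable_mk.measurable.max measurable_const
  · intro x
    obtain ⟨s, hs, hi⟩ := hU.2 x
    exact ⟨s, hs, Integrable.congr hi (ae_restrict_of_ae hae)⟩

theorem classA_iff_aux (p : ℝ) (hp : 1 < p) (l X Y C : ℝ≥0∞) (h0 : l ≠ 0) (ht : l ≠ ∞) :
    (l⁻¹ * X) * (l⁻¹ * Y) ^ (p - 1) ≤ C ↔ X * Y ^ (p - 1) ≤ C * l ^ p := by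
  have h1 : (l⁻¹ * X) * (l⁻¹ * Y) ^ (p - 1) = (l ^ p)⁻¹ * (X * Y ^ (p - 1)) := by
    rw [ENNReal.mul_rpow_of_nonneg _ _ (by linarith : (0:ℝ) ≤ p - 1)]
    have h2 : l⁻¹ * (l⁻¹) ^ (p - 1) = (l ^ p)⁻¹ := by
      rw [← ENNReal.inv_rpow]
      have h3 : (l⁻¹) ^ p = (l⁻¹) ^ (1 + (p - 1)) := by congr 1; ring
      rw [h3, ENNReal.rpow_add _ _ (ENNReal.inv_ne_zero.2 ht) (ENNReal.inv_ne_top.2 h0),
        ENNReal.rpow_one]
    calc l⁻¹ * X * ((l⁻¹) ^ (p - 1) * Y ^ (p - 1))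
        = (l⁻¹ * (l⁻¹) ^ (p - 1)) * (X * Y ^ (p - 1)) := by ring
      _ = _ := by rw [h2]
  have h4 : l ^ p ≠ 0 := (ENNReal.rpow_pos (pos_iff_ne_zero.2 h0) ht).ne'
  have h5 : l ^ p ≠ ∞ := ENNReal.rpow_ne_top_of_nonneg (by linarith) ht
  rw [h1, ENNReal.inv_mul_le_iff h4 h5, mul_comm C]

theorem classA_iff (p : ℝ) (hp : 1 < p) (U : ℝ → ℝ) : ClassA p U ↔ MuckenhouptA p U := by
  unfold ClassA MuckenhouptA
  refine exists_congr fun C => forall_congr' fun a => forall_congr' fun b =>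
    imp_congr_right fun hab => ?_
  exact classA_iff_aux p hp _ _ _ _ (ENNReal.ofReal_pos.2 (by linarith)).ne' ENNReal.ofReal_ne_top

theorem classA_congr (p : ℝ) (U U' : ℝ → ℝ) (h : U =ᵐ[volume] U') (hA : ClassA p U) :
    ClassA p U' := by
  obtain ⟨C, hC⟩ := hA
  refine ⟨C, fun a b hab => ?_⟩
  have h1 : ∫⁻ x in Icc a b, ENNReal.ofReal (U' x) = ∫⁻ x in Icc a b, ENNReal.ofReal (U x) :=
    lintegral_congr_ae (ae_restrict_of_ae (h.mono fun x hx => by simp only [hx]))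
  have h2 : ∫⁻ x in Icc a b, ENNReal.ofReal (U' x) ^ (-1 / (p - 1)) =
      ∫⁻ x in Icc a b, ENNReal.ofReal (U x) ^ (-1 / (p - 1)) :=
    lintegral_congr_ae (ae_restrict_of_ae (h.mono fun x hx => by simp only [hx]))
  rw [h1, h2]
  exact hC a b hab

theorem classB_congr (r : ℝ) (U U' : ℝ → ℝ) (h : U =ᵐ[volume] U') (hB : ClassB r U) :
    ClassB r U' := by
  obtain ⟨C, hC⟩ := hB
  refine ⟨C, fun c l hl => ?_⟩
  have h1 : ∫⁻ x in Icc (c - l / 2) (c + l / 2), ENNReal.ofReal (U' x) =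
      ∫⁻ x in Icc (c - l / 2) (c + l / 2), ENNReal.ofReal (U x) :=
    lintegral_congr_ae (ae_restrict_of_ae (h.mono fun x hx => by simp only [hx]))
  have h2 : ∫⁻ x, ENNReal.ofReal (l ^ (r - 1) * U' x / (l ^ r + |x - c| ^ r)) =
      ∫⁻ x, ENNReal.ofReal (l ^ (r - 1) * U x / (l ^ r + |x - c| ^ r)) :=
    lintegral_congr_ae (h.mono fun x hx => by simp only [hx])
  rw [h1, h2]
  exact hC c l hl

theorem star_congr (lam p : ℝ) (U U' : ℝ → ℝ) (h : U =ᵐ[volume] U') (hS : Star lam p U) :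
    Star lam p U' := by
  obtain ⟨C, hC⟩ := hS
  refine ⟨C, fun f hf hfin => ?_⟩
  have h1 : ∫⁻ x, ENNReal.ofReal (|f x| ^ p * U' x) = ∫⁻ x, ENNReal.ofReal (|f x| ^ p * U x) :=
    lintegral_congr_ae (h.mono fun x hx => by simp only [hx])
  have h2 : ∫⁻ x, (gStar lam f x) ^ p * ENNReal.ofReal (U' x) =
      ∫⁻ x, (gStar lam f x) ^ p * ENNReal.ofReal (U x) :=
    lintegral_congr_ae (h.mono fun x hx => by simp only [hx])
  rw [h1] at hfin
  rw [h1, h2]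
  exact hC f hf hfin

end

end GStar954
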