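import Mathlib
import Pool.Agent.Helper954.GStar.Defs

/- The self-improvement of `B_r`; the proof is copied from helper66 (ClosedGap of the same problem). -/

set_option autoImplicit false
open MeasureTheory Filter Set Topology
open scoped ENNReal NNReal

namespace GStar954

noncomputable section

/-- mass of the centred interval of radius `t` -/
def V (U : ℝ → ℝ) (c t : ℝ) : ℝ≥0∞ := ∫⁻ x in Icc (c - t) (c + t), ENNReal.ofReal (U x)

theorem V_fin {U : ℝ → ℝ} (hU : IsWeight U) (c t : ℝ) : V U c t < ⊤ := by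
  have h1 : IntegrableOn U (Icc (c - t) (c + t)) := hU.2.2.integrableOn_isCompact isCompact_Icc
  have := h1.2
  refine lt_of_le_of_lt ?_ this
  apply lintegral_mono
  intro x
  simp only
  rw [← ofReal_norm, Real.norm_of_nonneg (hU.2.1 x)]

theorem V_mono (U : ℝ → ℝ) (c : ℝ) {s t : ℝ} (h : s ≤ t) : V U c s ≤ V U c t := by
  unfold V
  apply lintegral_mono_set
  apply Icc_subset_Icc <;> linarith

/-- the dyadic sum of masses is controlled under `B_r` -/
theorem dyadic_sum {r : ℝ} (hr : 0 < r) {U : ℝ → ℝ} (hU : IsWeight U) (hB : ClassB r U) :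
    ∃ C : ℝ≥0, 1 ≤ C ∧ ∀ c t : ℝ, 0 < t →
      ∑' k : ℕ, ENNReal.ofReal ((2:ℝ) ^ (-(r * k))) * V U c (2 ^ k * t) ≤ C * V U c t := by
  obtain ⟨C, hC⟩ := hB
  -- geometric constant
  set ρ : ℝ := (2:ℝ) ^ (-r) with hρ
  have hρ0 : 0 < ρ := by positivity
  have hρ1 : ρ < 1 := Real.rpow_lt_one_of_one_lt_of_neg (by norm_num) (by linarith)
  have hpow : ∀ k : ℕ, (2:ℝ) ^ (-(r * k)) = ρ ^ k := by
    intro k
    rw [hρ, ← Real.rpow_natCast, ← Real.rpow_mul (by norm_num)]
    congr 1; ring
  set G : ℝ := 1 / (1 - ρ) with hG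
  have hG0 : 0 < G := by
    rw [hG]; apply one_div_pos.mpr; linarith
  set A : ℝ := G * (1 + 2 ^ r) with hA
  have hA0 : 0 < A := by positivity
  refine ⟨max 1 (A.toNNReal * C), le_max_left _ _, fun c t ht => ?_⟩
  have hkey : ∑' k : ℕ, ENNReal.ofReal ((2:ℝ) ^ (-(r * k))) * V U c (2 ^ k * t) ≤
      ∫⁻ x, ENNReal.ofReal (A * ((2 * t) ^ r * U x / ((2 * t) ^ r + |x - c| ^ r))) := by
    have h1 : ∀ k : ℕ, ENNReal.ofReal ((2:ℝ) ^ (-(r * k))) * V U c (2 ^ k * t) =
        ∫⁻ x, (Icc (c - 2 ^ k * t) (c + 2 ^ k * t)).indicator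
          (fun x => ENNReal.ofReal (ρ ^ k * U x)) x := by
      intro k
      unfold V
      rw [hpow k, lintegral_indicator measurableSet_Icc,
        ← lintegral_const_mul' _ _ ENNReal.ofReal_ne_top]
      apply lintegral_congr
      intro x
      rw [← ENNReal.ofReal_mul (by positivity)]
    simp_rw [h1]
    rw [← lintegral_tsum]
    · apply lintegral_mono
      intro x
      simp only
      -- pointwise
      have hUx := hU.2.1 x
      set d := |x - c| with hd
      have hd0 : 0 ≤ d := abs_nonneg _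
      -- term bound: each term ≤ ofReal (w_k) with sum bounded
      obtain ⟨m, hm, hm'⟩ : ∃ m : ℕ, d ≤ 2 ^ m * t ∧ (m = 0 ∨ 2 ^ (m - 1) * t < d) := by
        classical
        have hex : ∃ m : ℕ, d ≤ 2 ^ m * t := by
          obtain ⟨m, hm⟩ := pow_unbounded_of_one_lt (d / t) (one_lt_two : (1:ℝ) < 2)
          refine ⟨m, ?_⟩
          rw [div_lt_iff₀ ht] at hm
          exact hm.le
        refine ⟨Nat.find hex, Nat.find_spec hex, ?_⟩
        rcases Nat.eq_zero_or_pos (Nat.find hex) with h | h
        · exact Or.inl h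
        · right
          have := Nat.find_min hex (show Nat.find hex - 1 < Nat.find hex by omega)
          exact not_le.mp this
      have hterm : ∀ k : ℕ, (Icc (c - 2 ^ k * t) (c + 2 ^ k * t)).indicator
          (fun x => ENNReal.ofReal (ρ ^ k * U x)) x ≤
          if m ≤ k then ENNReal.ofReal (ρ ^ k * U x) else 0 := by
        intro k
        by_cases hx : x ∈ Icc (c - 2 ^ k * t) (c + 2 ^ k * t)
        · rw [indicator_of_mem hx]
          have hdk : d ≤ 2 ^ k * t := by
            rw [hd, abs_le]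
            exact ⟨by linarith [hx.1], by linarith [hx.2]⟩
          have hmk : m ≤ k := by
            rcases hm' with h | h
            · omega
            · by_contra hlt
              push Not at hlt
              have h2 : (2:ℝ) ^ k ≤ 2 ^ (m - 1) := pow_le_pow_right₀ (by norm_num) (by omega)
              have h3 : 2 ^ k * t ≤ 2 ^ (m - 1) * t := mul_le_mul_of_nonneg_right h2 ht.le
              linarith
          rw [if_pos hmk]
        · rw [indicator_of_notMem hx]
          exact bot_le
      calc (∑' k : ℕ, ((Icc (c - 2 ^ k * t) (c + 2 ^ k * t)).indicator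
          (fun x => ENNReal.ofReal (ρ ^ k * U x)) x))
          ≤ ∑' k : ℕ, (if m ≤ k then ENNReal.ofReal (ρ ^ k * U x) else 0) :=
            ENNReal.tsum_le_tsum hterm
        _ = ∑' k : ℕ, ENNReal.ofReal (ρ ^ (k + m) * U x) := by
            rw [← (ENNReal.summable).sum_add_tsum_nat_add' (k := m)
              (f := fun k => if m ≤ k then ENNReal.ofReal (ρ ^ k * U x) else 0)]
            rw [Finset.sum_eq_zero, zero_add]
            · apply tsum_congr
              intro k
              rw [if_pos (by omega)]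
            · intro k hk
              rw [Finset.mem_range] at hk
              rw [if_neg (by omega)]
        _ = ENNReal.ofReal (∑' k : ℕ, ρ ^ (k + m) * U x) := by
            rw [ENNReal.ofReal_tsum_of_nonneg]
            · intro k; positivity
            · have : Summable fun k : ℕ => ρ ^ k * (ρ ^ m * U x) :=
                (summable_geometric_of_lt_one hρ0.le hρ1).mul_right _
              refine this.congr ?_
              intro k; rw [pow_add]; ring
        _ ≤ _ := by
            apply ENNReal.ofReal_le_ofReal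
            have h4 : ∑' k : ℕ, ρ ^ (k + m) * U x = G * (ρ ^ m * U x) := by
              have h5 : ∀ k : ℕ, ρ ^ (k + m) * U x = ρ ^ k * (ρ ^ m * U x) := by
                intro k; rw [pow_add]; ring
              simp_rw [h5]
              rw [tsum_mul_right, tsum_geometric_of_lt_one hρ0.le hρ1, hG, one_div]
            rw [h4, hA, mul_assoc]
            apply mul_le_mul_of_nonneg_left _ hG0.le
            -- ρ^m ≤ (1+2^r) (2t)^r / ((2t)^r + d^r)
            have ht2 : 0 < (2 * t) ^ r := by positivity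
            have hdr : 0 ≤ d ^ r := by positivity
            have h6 : ρ ^ m ≤ (1 + 2 ^ r) * ((2 * t) ^ r / ((2 * t) ^ r + d ^ r)) := by
              rw [mul_div_assoc', le_div_iff₀ (by positivity)]
              rcases hm' with h | h
              · rw [h, pow_zero, one_mul]
                rw [h, pow_zero, one_mul] at hm
                have h7 : d ^ r ≤ (2 * t) ^ r :=
                  Real.rpow_le_rpow hd0 (by linarith) hr.le
                have h8 : (1:ℝ) ≤ 2 ^ r := Real.one_le_rpow (by norm_num) hr.le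
                nlinarith
              · -- d ≤ 2^m t so ρ^m d^r ≤ t^r
                have h9 : ρ ^ m * d ^ r ≤ (2 * t) ^ r := by
                  have h10 : d ^ r ≤ (2 ^ m * t) ^ r := Real.rpow_le_rpow hd0 hm hr.le
                  have h11 : ρ ^ m * (2 ^ m * t) ^ r = t ^ r := by
                    rw [Real.mul_rpow (by positivity) ht.le, hρ, ← Real.rpow_natCast,
                      ← Real.rpow_mul (by norm_num), ← Real.rpow_natCast,
                      ← Real.rpow_mul (by norm_num), ← mul_assoc, ← Real.rpow_add (by norm_num)]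
                    rw [show -r * (m:ℝ) + (m:ℝ) * r = 0 by ring, Real.rpow_zero, one_mul]
                  calc ρ ^ m * d ^ r ≤ ρ ^ m * (2 ^ m * t) ^ r :=
                        mul_le_mul_of_nonneg_left h10 (by positivity)
                    _ = t ^ r := h11
                    _ ≤ (2 * t) ^ r := Real.rpow_le_rpow ht.le (by linarith) hr.le
                have h12 : ρ ^ m ≤ 1 := pow_le_one₀ hρ0.le hρ1.le
                have h8 : (1:ℝ) ≤ 2 ^ r := Real.one_le_rpow (by norm_num) hr.le
                nlinarith [mul_le_mul_of_nonneg_right h12 ht2.le]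
            calc ρ ^ m * U x ≤ ((1 + 2 ^ r) * ((2 * t) ^ r / ((2 * t) ^ r + d ^ r))) * U x :=
                  mul_le_mul_of_nonneg_right h6 hUx
              _ = _ := by ring
    · intro k
      apply AEMeasurable.indicator _ measurableSet_Icc
      exact (hU.1.const_mul _).ennreal_ofReal.aemeasurable
  refine hkey.trans ?_
  have h2 := hC c (2 * t) (by linarith)
  have h3 : ∫⁻ x, ENNReal.ofReal (A * ((2 * t) ^ r * U x / ((2 * t) ^ r + |x - c| ^ r))) =
      ENNReal.ofReal (A * (2 * t)) *
        ∫⁻ x, ENNReal.ofReal ((2 * t) ^ (r - 1) * U x / ((2 * t) ^ r + |x - c| ^ r)) := by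
    rw [← lintegral_const_mul' _ _ ENNReal.ofReal_ne_top]
    apply lintegral_congr
    intro x
    rw [← ENNReal.ofReal_mul (by positivity)]
    congr 1
    have : (2 * t) ^ r = (2 * t) * (2 * t) ^ (r - 1) := by
      rw [Real.rpow_sub_one (by positivity)]
      field_simp
    have h4 : A * ((2 * t) ^ r * U x / ((2 * t) ^ r + |x - c| ^ r)) =
        A * ((2 * t * (2 * t) ^ (r - 1)) * U x / ((2 * t) ^ r + |x - c| ^ r)) := by
      rw [← this]
    rw [h4]; ring
  rw [h3]
  calc ENNReal.ofReal (A * (2 * t)) *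
        ∫⁻ x, ENNReal.ofReal ((2 * t) ^ (r - 1) * U x / ((2 * t) ^ r + |x - c| ^ r))
      ≤ ENNReal.ofReal (A * (2 * t)) * (ENNReal.ofReal (1 / (2 * t)) *
        (C * ∫⁻ x in Icc (c - 2 * t / 2) (c + 2 * t / 2), ENNReal.ofReal (U x))) := by gcongr
    _ = ENNReal.ofReal A * C * V U c t := by
        rw [← mul_assoc, ← ENNReal.ofReal_mul (by positivity)]
        have h5 : A * (2 * t) * (1 / (2 * t)) = A := by field_simp
        rw [h5, mul_assoc]
        unfold V
        rw [show c - 2 * t / 2 = c - t by ring, show c + 2 * t / 2 = c + t by ring]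
    _ ≤ _ := by
        gcongr
        calc ENNReal.ofReal A * (C:ℝ≥0∞) = ((A.toNNReal * C : ℝ≥0) : ℝ≥0∞) := by
              rw [ENNReal.coe_mul]; rfl
          _ ≤ _ := by
              rw [ENNReal.coe_le_coe]; exact le_max_right _ _

/-- the terms decay geometrically faster -/
theorem decay {r : ℝ} (hr : 0 < r) {U : ℝ → ℝ} (hU : IsWeight U) (hB : ClassB r U) :
    ∃ (C θ : ℝ), 1 ≤ C ∧ 0 ≤ θ ∧ θ < 1 ∧ ∀ c t : ℝ, 0 < t → ∀ m : ℕ,
      ENNReal.ofReal ((2:ℝ) ^ (-(r * m))) * V U c (2 ^ m * t) ≤
        ENNReal.ofReal (C * θ ^ m) * V U c t := by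
  obtain ⟨C, hC1, hC⟩ := dyadic_sum hr hU hB
  have hC0 : (0:ℝ) < C := by
    have : (0:ℝ≥0) < C := lt_of_lt_of_le one_pos hC1
    exact_mod_cast this
  have hC1' : (1:ℝ) ≤ C := by exact_mod_cast hC1
  refine ⟨C, 1 - 1 / C, hC1', ?_, ?_, fun c t ht m => ?_⟩
  · have : 1 / (C:ℝ) ≤ 1 := by
      rw [div_le_one hC0]; exact hC1'
    linarith
  · have : 0 < 1 / (C:ℝ) := by positivity
    linarith
  set a : ℕ → ℝ≥0∞ := fun k => ENNReal.ofReal ((2:ℝ) ^ (-(r * k))) * V U c (2 ^ k * t) with ha
  have hfin : ∀ k, a k ≠ ⊤ := fun k =>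
    ENNReal.mul_ne_top ENNReal.ofReal_ne_top (V_fin hU c _).ne
  have htail : ∀ n : ℕ, ∑' k : ℕ, a (k + n) ≤ C * a n := by
    intro n
    have h1 := hC c (2 ^ n * t) (by positivity)
    have h2 : ∀ k : ℕ, a (k + n) = ENNReal.ofReal ((2:ℝ) ^ (-(r * n))) *
        (ENNReal.ofReal ((2:ℝ) ^ (-(r * k))) * V U c (2 ^ k * (2 ^ n * t))) := by
      intro k
      simp only [ha]
      rw [← mul_assoc, ← ENNReal.ofReal_mul (by positivity), ← Real.rpow_add (by norm_num)]
      rw [show (2:ℝ) ^ (k + n) * t = 2 ^ k * (2 ^ n * t) by rw [pow_add]; ring,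
        show -(r * ((k + n : ℕ) : ℝ)) = -(r * (n:ℝ)) + -(r * (k:ℝ)) by push_cast; ring]
    simp_rw [h2]
    rw [ENNReal.tsum_mul_left]
    calc ENNReal.ofReal ((2:ℝ) ^ (-(r * n))) *
          ∑' k : ℕ, ENNReal.ofReal ((2:ℝ) ^ (-(r * k))) * V U c (2 ^ k * (2 ^ n * t))
        ≤ ENNReal.ofReal ((2:ℝ) ^ (-(r * n))) * (C * V U c (2 ^ n * t)) := by gcongr
      _ = C * a n := by simp only [ha]; ring
  set R : ℕ → ℝ := fun n => (∑' k : ℕ, a (k + n)).toReal with hR
  have hRfin : ∀ n, ∑' k : ℕ, a (k + n) ≠ ⊤ := fun n =>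
    ne_top_of_le_ne_top (ENNReal.mul_ne_top ENNReal.coe_ne_top (hfin n)) (htail n)
  have hstep : ∀ n, ∑' k : ℕ, a (k + n) = a n + ∑' k : ℕ, a (k + (n + 1)) := by
    intro n
    rw [tsum_eq_zero_add' ENNReal.summable]
    simp only [zero_add]
    congr 1
    apply tsum_congr
    intro k
    rw [show k + 1 + n = k + (n + 1) by ring]
  have hRstep : ∀ n, R n = (a n).toReal + R (n + 1) := by
    intro n
    simp only [hR]
    rw [hstep n, ENNReal.toReal_add (hfin n) (hRfin (n + 1))]
  have hRle : ∀ n, R n ≤ C * (a n).toReal := by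
    intro n
    have := ENNReal.toReal_mono (ENNReal.mul_ne_top ENNReal.coe_ne_top (hfin n)) (htail n)
    rw [ENNReal.toReal_mul] at this
    exact this
  have hRdec : ∀ n, R (n + 1) ≤ (1 - 1 / C) * R n := by
    intro n
    have h1 := hRstep n
    have h2 := hRle n
    have h3 : R n / C ≤ (a n).toReal := by
      rw [div_le_iff₀ hC0]; linarith
    have h4 : (1 - 1 / (C:ℝ)) * R n = R n - R n / C := by ring
    rw [h4]; linarith
  have hθ0 : 0 ≤ 1 - 1 / (C:ℝ) := by
    have : 1 / (C:ℝ) ≤ 1 := by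
      rw [div_le_one hC0]; exact hC1'
    linarith
  have hRpow : ∀ n, R n ≤ (1 - 1 / C) ^ n * R 0 := by
    intro n
    induction n with
    | zero => simp
    | succ n ih =>
      calc R (n + 1) ≤ (1 - 1 / C) * R n := hRdec n
        _ ≤ (1 - 1 / C) * ((1 - 1 / C) ^ n * R 0) := mul_le_mul_of_nonneg_left ih hθ0
        _ = _ := by ring
  have ham : (a m).toReal ≤ R m := by
    have h1 := hRstep m
    have h2 : 0 ≤ R (m + 1) := ENNReal.toReal_nonneg
    linarith
  have hfinal : (a m).toReal ≤ C * (1 - 1 / C) ^ m * (a 0).toReal := by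
    have h1 := hRpow m
    have h2 := hRle 0
    have h3 : 0 ≤ (1 - 1 / (C:ℝ)) ^ m := pow_nonneg hθ0 m
    calc (a m).toReal ≤ (1 - 1 / C) ^ m * R 0 := ham.trans h1
      _ ≤ (1 - 1 / C) ^ m * (C * (a 0).toReal) := mul_le_mul_of_nonneg_left h2 h3
      _ = _ := by ring
  have ha0 : a 0 = V U c t := by
    simp [ha]
  rw [← ha0]
  have hmm : ENNReal.ofReal ((a m).toReal) = a m := ENNReal.ofReal_toReal (hfin m)
  change a m ≤ _
  rw [← hmm]
  calc ENNReal.ofReal ((a m).toReal)
      ≤ ENNReal.ofReal (C * (1 - 1 / C) ^ m * (a 0).toReal) := ENNReal.ofReal_le_ofReal hfinal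
    _ = _ := by
        rw [ENNReal.ofReal_mul (mul_nonneg hC0.le (pow_nonneg hθ0 m)),
          ENNReal.ofReal_toReal (hfin 0)]

/-- The class `B_r` improves itself. -/
theorem classB_improves {r : ℝ} (hr : 1 < r) {U : ℝ → ℝ} (hU : IsWeight U)
    (hB : ClassB r U) : ∃ q : ℝ, 1 < q ∧ q < r ∧ ClassB q U := by
  obtain ⟨C, θ, hC1, hθ0, hθ1, hdec⟩ := decay (by linarith) hU hB
  -- choose q
  obtain ⟨q, hq1, hqr, hqθ⟩ : ∃ q : ℝ, 1 < q ∧ q < r ∧ (2:ℝ) ^ (r - q) * θ < 1 := by
    have hcont : ContinuousAt (fun q : ℝ => (2:ℝ) ^ (r - q) * θ) r := by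
      apply ContinuousAt.mul _ continuousAt_const
      apply ContinuousAt.rpow continuousAt_const (by fun_prop)
      left; norm_num
    have hlt : (fun q : ℝ => (2:ℝ) ^ (r - q) * θ) r < 1 := by simpa using hθ1
    have hev := hcont.eventually_lt (continuousAt_const (y := (1:ℝ))) hlt
    have hev2 : ∀ᶠ q in 𝓝 r, 1 < q := lt_mem_nhds hr
    have hev3 : ∀ᶠ q in 𝓝[<] r, (2:ℝ) ^ (r - q) * θ < 1 ∧ 1 < q :=
      (hev.and hev2).filter_mono nhdsWithin_le_nhds
    have hev4 : ∀ᶠ q in 𝓝[<] r, q < r := self_mem_nhdsWithin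
    obtain ⟨q, hq⟩ := (hev3.and hev4).exists
    exact ⟨q, hq.1.2, hq.2, hq.1.1⟩
  have hq0 : 0 < q := by linarith
  refine ⟨q, hq1, hqr, ?_⟩
  set σ : ℝ := (2:ℝ) ^ (r - q) * θ with hσ
  have hσ0 : 0 ≤ σ := by positivity
  -- 2^{-qk} V(2^k t) ≤ C σ^k V t
  have hdec2 : ∀ c t : ℝ, 0 < t → ∀ m : ℕ,
      ENNReal.ofReal ((2:ℝ) ^ (-(q * m))) * V U c (2 ^ m * t) ≤
        ENNReal.ofReal (C * σ ^ m) * V U c t := by
    intro c t ht m
    have h1 := hdec c t ht m
    have h2 : (2:ℝ) ^ (-(q * m)) = (2:ℝ) ^ ((r - q) * m) * (2:ℝ) ^ (-(r * m)) := by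
      rw [← Real.rpow_add (by norm_num)]; congr 1; ring
    have h3 : C * σ ^ m = (2:ℝ) ^ ((r - q) * m) * (C * θ ^ m) := by
      rw [hσ, mul_pow, ← Real.rpow_natCast ((2:ℝ) ^ (r - q)), ← Real.rpow_mul (by norm_num)]
      ring
    rw [h2, h3, ENNReal.ofReal_mul (by positivity), ENNReal.ofReal_mul (by positivity), mul_assoc,
      mul_assoc]
    gcongr
  have hsum : Summable fun m : ℕ => C * σ ^ m := (summable_geometric_of_lt_one hσ0 hqθ).mul_left _
  set S : ℝ := ∑' m : ℕ, C * σ ^ m with hS
  have hS0 : 0 ≤ S := tsum_nonneg fun m => by positivity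
  set K : ℝ := (1 + 4 ^ q * S) with hK
  have hK0 : 0 < K := by positivity
  refine ⟨K.toNNReal, fun c l hl => ?_⟩
  set t : ℝ := l / 2 with ht
  have ht0 : 0 < t := by positivity
  -- pointwise domination by indicator sum
  have hpt : ∀ x : ℝ, ENNReal.ofReal (l ^ (q - 1) * U x / (l ^ q + |x - c| ^ q)) ≤
      ENNReal.ofReal (1 / l) * ((Icc (c - t) (c + t)).indicator (fun x => ENNReal.ofReal (U x)) x +
        ∑' m : ℕ, ENNReal.ofReal (4 ^ q * (2:ℝ) ^ (-(q * m))) *
          (Icc (c - 2 ^ m * t) (c + 2 ^ m * t)).indicator (fun x => ENNReal.ofReal (U x)) x) := by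
    intro x
    have hUx := hU.2.1 x
    set d := |x - c| with hd
    have hd0 : 0 ≤ d := abs_nonneg _
    have hlq : 0 < l ^ q := by positivity
    have hdq : 0 ≤ d ^ q := by positivity
    have hlsplit : l ^ (q - 1) = (1 / l) * l ^ q := by
      rw [Real.rpow_sub_one hl.ne']; ring
    have hLHS : l ^ (q - 1) * U x / (l ^ q + d ^ q) =
        (1 / l) * (l ^ q / (l ^ q + d ^ q) * U x) := by
      rw [hlsplit]; ring
    rw [hLHS, ENNReal.ofReal_mul (by positivity)]
    gcongr
    by_cases hdt : d ≤ t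
    · have hx : x ∈ Icc (c - t) (c + t) := by
        rw [hd, abs_le] at hdt
        exact ⟨by linarith [hdt.1], by linarith [hdt.2]⟩
      rw [indicator_of_mem hx]
      refine le_trans ?_ (self_le_add_right _ _)
      apply ENNReal.ofReal_le_ofReal
      have : l ^ q / (l ^ q + d ^ q) ≤ 1 := by
        rw [div_le_one (by positivity)]; linarith
      nlinarith
    · push Not at hdt
      obtain ⟨m, hm, hm'⟩ : ∃ m : ℕ, d ≤ 2 ^ m * t ∧ 2 ^ m * t < 2 * d := by
        classical
        have hex : ∃ m : ℕ, d ≤ 2 ^ m * t := by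
          obtain ⟨m, hm⟩ := pow_unbounded_of_one_lt (d / t) (one_lt_two : (1:ℝ) < 2)
          refine ⟨m, ?_⟩
          rw [div_lt_iff₀ ht0] at hm
          exact hm.le
        refine ⟨Nat.find hex, Nat.find_spec hex, ?_⟩
        rcases Nat.eq_zero_or_pos (Nat.find hex) with h | h
        · have h0 := Nat.find_spec hex
          rw [h, pow_zero, one_mul] at h0
          linarith
        · have h1 := Nat.find_min hex (show Nat.find hex - 1 < Nat.find hex by omega)
          push Not at h1
          have h2 : (2:ℝ) ^ (Nat.find hex) = 2 * 2 ^ (Nat.find hex - 1) := by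
            rw [← pow_succ']; congr 1; omega
          rw [h2]
          linarith
      have hx : x ∈ Icc (c - 2 ^ m * t) (c + 2 ^ m * t) := by
        rw [hd, abs_le] at hm
        exact ⟨by linarith [hm.1], by linarith [hm.2]⟩
      refine le_trans ?_ (self_le_add_left _ _)
      refine le_trans ?_ (ENNReal.le_tsum m)
      rw [indicator_of_mem hx, ← ENNReal.ofReal_mul (by positivity)]
      apply ENNReal.ofReal_le_ofReal
      apply mul_le_mul_of_nonneg_right _ hUx
      have hdpos : 0 < d := lt_trans ht0 hdt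
      rw [div_le_iff₀ (by positivity)]
      -- l^q ≤ 4^q 2^{-qm} (l^q + d^q)
      have h1 : l ^ q ≤ 4 ^ q * (2:ℝ) ^ (-(q * m)) * d ^ q := by
        have h2 : (2:ℝ) ^ (-(q * m)) = (1 / 2 ^ m) ^ q := by
          rw [Real.rpow_neg (by norm_num), one_div, Real.inv_rpow (by positivity), mul_comm q,
            Real.rpow_mul (by norm_num), Real.rpow_natCast]
        rw [h2, ← Real.mul_rpow (by norm_num) (by positivity),
          ← Real.mul_rpow (by positivity) hd0]
        apply Real.rpow_le_rpow hl.le _ hq0.le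
        rw [mul_one_div, div_mul_eq_mul_div, le_div_iff₀ (by positivity)]
        have : l = 2 * t := by rw [ht]; ring
        rw [this]
        nlinarith
      have h3 : 0 ≤ 4 ^ q * (2:ℝ) ^ (-(q * m)) * l ^ q := by positivity
      nlinarith
  calc ∫⁻ x, ENNReal.ofReal (l ^ (q - 1) * U x / (l ^ q + |x - c| ^ q))
      ≤ ∫⁻ x, ENNReal.ofReal (1 / l) *
        ((Icc (c - t) (c + t)).indicator (fun x => ENNReal.ofReal (U x)) x +
        ∑' m : ℕ, ENNReal.ofReal (4 ^ q * (2:ℝ) ^ (-(q * m))) *
          (Icc (c - 2 ^ m * t) (c + 2 ^ m * t)).indicator (fun x => ENNReal.ofReal (U x)) x) :=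
        lintegral_mono hpt
    _ = ENNReal.ofReal (1 / l) * (V U c t +
        ∑' m : ℕ, ENNReal.ofReal (4 ^ q * (2:ℝ) ^ (-(q * m))) * V U c (2 ^ m * t)) := by
        have hmU : Measurable fun x => ENNReal.ofReal (U x) := hU.1.ennreal_ofReal
        rw [lintegral_const_mul' _ _ ENNReal.ofReal_ne_top, lintegral_add_left
          (hmU.indicator measurableSet_Icc), lintegral_tsum]
        · congr 2
          · rw [lintegral_indicator measurableSet_Icc]; rfl
          · apply tsum_congr
            intro m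
            rw [lintegral_const_mul' _ _ ENNReal.ofReal_ne_top,
              lintegral_indicator measurableSet_Icc]
            rfl
        · intro m
          exact ((hmU.indicator measurableSet_Icc).const_mul _).aemeasurable
    _ ≤ ENNReal.ofReal (1 / l) * (V U c t + ENNReal.ofReal (4 ^ q * S) * V U c t) := by
        gcongr
        calc (∑' m : ℕ, ENNReal.ofReal (4 ^ q * (2:ℝ) ^ (-(q * m))) * V U c (2 ^ m * t))
            ≤ ∑' m : ℕ, ENNReal.ofReal (4 ^ q) * (ENNReal.ofReal (C * σ ^ m) * V U c t) := by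
              apply ENNReal.tsum_le_tsum
              intro m
              rw [ENNReal.ofReal_mul (by positivity), mul_assoc]
              exact mul_le_mul' le_rfl (hdec2 c t ht0 m)
          _ = ENNReal.ofReal (4 ^ q * S) * V U c t := by
              rw [ENNReal.tsum_mul_left, ENNReal.tsum_mul_right,
                ← ENNReal.ofReal_tsum_of_nonneg (fun m => by positivity) hsum,
                ENNReal.ofReal_mul (by positivity), mul_assoc]
    _ = _ := by
        have h1 : V U c t + ENNReal.ofReal (4 ^ q * S) * V U c t = ENNReal.ofReal K * V U c t := by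
          rw [hK, ENNReal.ofReal_add (by norm_num) (by positivity), ENNReal.ofReal_one]
          ring
        rw [h1]
        unfold V
        rfl

end

end GStar954
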