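import Mathlib
import Pool.Agent.Helper954.GStar.Defs
import Pool.Agent.Helper954.GStar.C1
import Pool.Agent.Helper954.GStar.C2

set_option autoImplicit false
open MeasureTheory Filter Set Topology
open scoped ENNReal NNReal

namespace GStar954

noncomputable section

theorem Gam_lower (f : ℝ → ℝ) (hf : Measurable f) (hf0 : ∀ x, 0 ≤ f x) (hfi : Integrable f)
    (c l : ℝ) (hl : 0 < l) (hsupp : ∀ x, x ∉ Icc (c - l / 2) (c + l / 2) → f x = 0) (z y : ℝ)
    (hz : z ∈ Icc (c + l) (c + 2 * l)) (hy : y ∈ Icc l (2 * l)) :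
    ENNReal.ofReal ((∫ x, f x) ^ 2 / (400 ^ 2 * l ^ 4)) ≤ Gam f z y := by
  have hy0 : 0 < y := lt_of_lt_of_le hl hy.1
  have hfi' : Integrable (fun x => f x / (1 + x ^ 2)) := by
    refine hfi.mono (hf.div (by fun_prop)).aestronglyMeasurable (Eventually.of_forall fun x => ?_)
    rw [norm_div]
    apply div_le_self (norm_nonneg _)
    rw [Real.norm_of_nonneg (by positivity)]
    nlinarith [sq_nonneg x]
  have hI := cv_integrable K1 goodK_K1 f hf hfi' z y hy0
  have h1 : ∫ x, (1 / (400 * l ^ 2)) * f x ≤ ∫ x, -(K1 (z - x) y * f x) := by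
    refine integral_mono (hfi.const_mul _) hI.neg (fun x => ?_)
    by_cases hx : x ∈ Icc (c - l / 2) (c + l / 2)
    · have ht1 : l / 2 ≤ z - x := by linarith [hz.1, hx.2]
      have ht2 : z - x ≤ 5 * l / 2 := by linarith [hz.2, hx.1]
      set t := z - x with ht
      have hk : 1 / (400 * l ^ 2) ≤ -K1 t y := by
        unfold K1
        rw [neg_div, neg_neg, div_le_div_iff₀ (by positivity) (by positivity)]
        have a1 : t ^ 2 + y ^ 2 ≤ 41 / 4 * l ^ 2 := by nlinarith [hy.1, hy.2]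
        have a2 : (t ^ 2 + y ^ 2) ^ 2 ≤ (41 / 4 * l ^ 2) ^ 2 := by gcongr
        have a3 : l / 2 * l ≤ t * y := mul_le_mul ht1 hy.1 hl.le (by linarith)
        have a4 := Real.pi_lt_d2
        have a5 : Real.pi * (t ^ 2 + y ^ 2) ^ 2 ≤ 3.15 * (41 / 4 * l ^ 2) ^ 2 := by gcongr
        have a6 : l ^ 2 * (400 * l ^ 2) ≤ 2 * t * y * (400 * l ^ 2) := by
          apply mul_le_mul_of_nonneg_right _ (by positivity)
          linarith
        have a7 : 0 ≤ l ^ 4 := by positivity
        nlinarith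
      have := mul_le_mul_of_nonneg_right hk (hf0 x)
      simp only
      linarith
    · simp only
      rw [hsupp x hx]; simp
  rw [integral_const_mul, integral_neg] at h1
  have h2 : (∫ x, f x) / (400 * l ^ 2) ≤ -cv K1 f z y := by
    unfold cv
    calc (∫ x, f x) / (400 * l ^ 2) = 1 / (400 * l ^ 2) * ∫ x, f x := by ring
      _ ≤ _ := h1
  have h3 : 0 ≤ (∫ x, f x) / (400 * l ^ 2) := div_nonneg (integral_nonneg hf0) (by positivity)
  unfold Gam
  rw [if_pos hy0]
  apply ENNReal.ofReal_le_ofReal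
  have h4 : ((∫ x, f x) / (400 * l ^ 2)) ^ 2 ≤ (-cv K1 f z y) ^ 2 := by gcongr
  have h5 : (∫ x, f x) ^ 2 / (400 ^ 2 * l ^ 4) = ((∫ x, f x) / (400 * l ^ 2)) ^ 2 := by
    rw [div_pow]; ring
  rw [h5]
  nlinarith [sq_nonneg (cv K2 f z y)]

theorem gs_lower (lam : ℝ) (hlam : 0 < lam) (f : ℝ → ℝ) (hf : Measurable f) (hf0 : ∀ x, 0 ≤ f x)
    (hfi : Integrable f) (c l : ℝ) (hl : 0 < l)
    (hsupp : ∀ x, x ∉ Icc (c - l / 2) (c + l / 2) → f x = 0) (x : ℝ) :
    ENNReal.ofReal (((∫ t, f t) / (400 * l)) ^ 2 * (l / (|x - c| + 3 * l)) ^ lam) ≤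
      gs lam (Gam f) x := by
  have hF : 0 ≤ ∫ t, f t := integral_nonneg hf0
  have hr : 0 ≤ l / (|x - c| + 3 * l) := by positivity
  have hr2 : 0 ≤ (l / (|x - c| + 3 * l)) ^ lam := Real.rpow_nonneg hr _
  set C : ℝ≥0∞ := ENNReal.ofReal ((l / (|x - c| + 3 * l)) ^ lam) *
    ENNReal.ofReal ((∫ t, f t) ^ 2 / (400 ^ 2 * l ^ 4)) with hC
  have key : ∀ z ∈ Icc (c + l) (c + 2 * l), ∀ y ∈ Icc l (2 * l),
      C ≤ ENNReal.ofReal ((y / (|x - z| + y)) ^ lam) * Gam f z y := by
    intro z hz y hy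
    have hy0 : 0 < y := lt_of_lt_of_le hl hy.1
    refine mul_le_mul' (ENNReal.ofReal_le_ofReal (Real.rpow_le_rpow hr ?_ hlam.le))
      (Gam_lower f hf hf0 hfi c l hl hsupp z y hz hy)
    rw [div_le_div_iff₀ (by positivity) (by positivity)]
    have a1 : |x - z| ≤ |x - c| + 2 * l := by
      have : x - z = (x - c) + (c - z) := by ring
      rw [this]
      refine (abs_add_le _ _).trans ?_
      have : |c - z| ≤ 2 * l := by
        rw [abs_le]; constructor <;> linarith [hz.1, hz.2]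
      linarith
    have a2 := mul_le_mul_of_nonneg_left a1 hl.le
    have a3 := mul_le_mul_of_nonneg_right hy.1 (abs_nonneg (x - c))
    nlinarith [hy.1]
  have e : ENNReal.ofReal (((∫ t, f t) / (400 * l)) ^ 2 * (l / (|x - c| + 3 * l)) ^ lam) =
      C * ENNReal.ofReal l * ENNReal.ofReal l := by
    rw [hC, ← ENNReal.ofReal_mul hr2, ← ENNReal.ofReal_mul (by positivity),
      ← ENNReal.ofReal_mul (by positivity)]
    congr 1
    field_simp
  rw [e]
  unfold gs
  calc C * ENNReal.ofReal l * ENNReal.ofReal l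
      = ∫⁻ z in Icc (c + l) (c + 2 * l), ∫⁻ y in Icc l (2 * l), C := by
        rw [setLIntegral_const, setLIntegral_const, Real.volume_Icc, Real.volume_Icc]
        congr 2
        · congr 1; ring
        · ring
    _ ≤ ∫⁻ z in Icc (c + l) (c + 2 * l), ∫⁻ y in Ioi (0:ℝ),
        ENNReal.ofReal ((y / (|x - z| + y)) ^ lam) * Gam f z y := by
        refine setLIntegral_mono' measurableSet_Icc (fun z hz => ?_)
        calc ∫⁻ y in Icc l (2 * l), C ≤ ∫⁻ y in Icc l (2 * l),
              ENNReal.ofReal ((y / (|x - z| + y)) ^ lam) * Gam f z y :=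
              setLIntegral_mono' measurableSet_Icc (fun y hy => key z hz y hy)
          _ ≤ _ := lintegral_mono_set (fun y hy => lt_of_lt_of_le hl hy.1)
    _ ≤ _ := setLIntegral_le_lintegral _ _

end

end GStar954
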