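import Mathlib
import Pool.Agent.Helper954.GStar.Defs
import Pool.Agent.Helper954.GStar.N1

set_option autoImplicit false
open MeasureTheory Filter Set Topology
open scoped ENNReal NNReal

namespace GStar954

noncomputable section

/-- the real inequality behind the lower bound -/
theorem j8193_real (lam p F l x c : ℝ) (hlam : 0 < lam) (hp : 1 < p) (hF : 0 ≤ F) (hl : 0 < l)
    (hx : |x - c| ≤ l / 2) :
    ((1 / 400) ^ p * (2 / 7) ^ (lam * (p / 2))) * (F / l) ^ p ≤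
      ((F / (400 * l)) ^ 2 * (l / (|x - c| + 3 * l)) ^ lam) ^ (p / 2) := by
  have hx0 : 0 ≤ |x - c| := abs_nonneg _
  have h1 : (2 / 7 : ℝ) ≤ l / (|x - c| + 3 * l) := by
    rw [le_div_iff₀ (by linarith)]; linarith
  have h2 : (2 / 7 : ℝ) ^ lam ≤ (l / (|x - c| + 3 * l)) ^ lam :=
    Real.rpow_le_rpow (by norm_num) h1 hlam.le
  have h3 : 0 ≤ F / (400 * l) := by positivity
  have h4 : 0 ≤ (l / (|x - c| + 3 * l)) ^ lam := by positivity
  rw [Real.mul_rpow (sq_nonneg _) h4]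
  have h5 : ((F / (400 * l)) ^ 2) ^ (p / 2) = (F / (400 * l)) ^ p := by
    rw [← Real.rpow_natCast, ← Real.rpow_mul h3]
    congr 1
    push_cast
    ring
  have h6 : (2 / 7 : ℝ) ^ (lam * (p / 2)) ≤ ((l / (|x - c| + 3 * l)) ^ lam) ^ (p / 2) := by
    rw [Real.rpow_mul (by norm_num)]
    exact Real.rpow_le_rpow (by positivity) h2 (by linarith)
  have h7 : (F / (400 * l)) ^ p = (1 / 400) ^ p * (F / l) ^ p := by
    rw [← Real.mul_rpow (by norm_num) (by positivity)]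
    congr 1
    field_simp
  rw [h5, h7]
  calc ((1 / 400) ^ p * (2 / 7) ^ (lam * (p / 2))) * (F / l) ^ p
      = ((1 / 400) ^ p * (F / l) ^ p) * (2 / 7) ^ (lam * (p / 2)) := by ring
    _ ≤ _ := mul_le_mul_of_nonneg_left h6 (by positivity)

theorem j8193_step (lam p : ℝ) (hlam : 0 < lam) (hp : 1 < p) (U : ℝ → ℝ) (hU : IsWeight U)
    (C : ℝ≥0) (h : ∀ f : ℝ → ℝ, Measurable f → (∀ x, 0 ≤ f x) → (∃ M : ℝ, ∀ x, f x ≤ M) →
    (∃ c l : ℝ, 0 < l ∧ ∀ x, x ∉ Icc (c - l / 2) (c + l / 2) → f x = 0) →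
    ∫⁻ x, (gs lam (Gam f) x) ^ (p / 2) * ENNReal.ofReal (U x) ≤
      C * ∫⁻ x, ENNReal.ofReal (|f x| ^ p * U x)) (κ : ℝ≥0) (hκ0 : κ ≠ 0)
    (hκ : (κ : ℝ) = (1 / 400) ^ p * (2 / 7) ^ (lam * (p / 2))) (a b : ℝ) (hab : a < b) (ε : ℝ)
    (hε : 0 < ε) :
    (∫⁻ x in Icc a b, ENNReal.ofReal (U x)) *
      (∫⁻ x in Icc a b, (ENNReal.ofReal (U x + ε)) ^ (-1 / (p - 1))) ^ (p - 1) ≤
      ((C / κ : ℝ≥0) : ℝ≥0∞) * ENNReal.ofReal (b - a) ^ p := by
  have hp1 : 0 < p - 1 := by linarith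
  set s : ℝ := -1 / (p - 1) with hs
  have hs0 : s < 0 := by rw [hs]; exact div_neg_of_neg_of_pos (by norm_num) hp1
  set f : ℝ → ℝ := (Icc a b).indicator (fun x => (U x + ε) ^ s) with hf
  have hUε : ∀ x, 0 < U x + ε := fun x => by linarith [hU.2.1 x]
  have hfm : Measurable f := ((hU.1.add_const ε).pow_const s).indicator measurableSet_Icc
  have hf0 : ∀ x, 0 ≤ f x := fun x => Set.indicator_nonneg (fun x _ => Real.rpow_nonneg (hUε x).le s) x
  have hfM : ∀ x, f x ≤ ε ^ s := by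
    intro x
    rw [hf]
    by_cases hx : x ∈ Icc a b
    · rw [Set.indicator_of_mem hx]
      exact Real.rpow_le_rpow_of_nonpos hε (by linarith [hU.2.1 x]) hs0.le
    · rw [Set.indicator_of_notMem hx]
      positivity
  set c : ℝ := (a + b) / 2 with hc
  set l : ℝ := b - a with hl
  have hl0 : 0 < l := by rw [hl]; linarith
  have hIcc : Icc (c - l / 2) (c + l / 2) = Icc a b := by
    rw [hc, hl]; congr 1 <;> ring
  have hsupp : ∀ x, x ∉ Icc (c - l / 2) (c + l / 2) → f x = 0 := by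
    intro x hx
    rw [hIcc] at hx
    exact Set.indicator_of_notMem hx _
  have hfi : Integrable f := by
    rw [hf, integrable_indicator_iff measurableSet_Icc]
    refine Measure.integrableOn_of_bounded (M := ε ^ s) (by rw [Real.volume_Icc]; exact ENNReal.ofReal_ne_top)
      ((hU.1.add_const ε).pow_const s).aestronglyMeasurable ?_
    refine Filter.Eventually.of_forall fun x => ?_
    rw [Real.norm_of_nonneg (Real.rpow_nonneg (hUε x).le s)]
    exact Real.rpow_le_rpow_of_nonpos hε (by linarith [hU.2.1 x]) hs0.le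
  set F : ℝ := ∫ t, f t with hF
  have hG : ENNReal.ofReal F = ∫⁻ x in Icc a b, (ENNReal.ofReal (U x + ε)) ^ s := by
    rw [hF, ofReal_integral_eq_lintegral_ofReal hfi (Filter.Eventually.of_forall hf0),
      ← lintegral_indicator measurableSet_Icc]
    refine lintegral_congr fun x => ?_
    rw [hf]
    by_cases hx : x ∈ Icc a b
    · rw [Set.indicator_of_mem hx, Set.indicator_of_mem hx, ENNReal.ofReal_rpow_of_pos (hUε x)]
    · rw [Set.indicator_of_notMem hx, Set.indicator_of_notMem hx, ENNReal.ofReal_zero]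
  set G : ℝ≥0∞ := ∫⁻ x in Icc a b, (ENNReal.ofReal (U x + ε)) ^ s with hGd
  have hG1 : G ≠ ∞ := by rw [← hG]; exact ENNReal.ofReal_ne_top
  have hG0 : G ≠ 0 := by
    intro h0
    have hm : Measurable (fun x => (ENNReal.ofReal (U x + ε)) ^ s) :=
      (hU.1.add_const ε).ennreal_ofReal.pow_const s
    rw [hGd, lintegral_eq_zero_iff hm] at h0
    have h2 : ∀ᵐ x ∂(volume.restrict (Icc a b)), False := by
      filter_upwards [h0] with x hx
      have h3 : (ENNReal.ofReal (U x + ε)) ^ s ≠ 0 :=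
        (ENNReal.rpow_pos (ENNReal.ofReal_pos.2 (hUε x)) ENNReal.ofReal_ne_top).ne'
      exact h3 hx
    rw [Filter.eventually_false_iff_eq_bot, ae_eq_bot, Measure.restrict_eq_zero, Real.volume_Icc,
      ENNReal.ofReal_eq_zero] at h2
    linarith
  have hF0 : 0 ≤ F := integral_nonneg hf0
  set W : ℝ≥0∞ := ∫⁻ x in Icc a b, ENNReal.ofReal (U x) with hW
  have hUm : Measurable (fun x => ENNReal.ofReal (U x)) := hU.1.ennreal_ofReal
  -- lower bound for the left side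
  have hL : ENNReal.ofReal (κ * (F / l) ^ p) * W ≤
      ∫⁻ x, (gs lam (Gam f) x) ^ (p / 2) * ENNReal.ofReal (U x) := by
    rw [hW, ← lintegral_const_mul _ hUm]
    refine le_trans (setLIntegral_mono' measurableSet_Icc fun x hx => ?_) (setLIntegral_le_lintegral _ _)
    refine mul_le_mul_left ?_ _
    have h1 := gs_lower lam hlam f hfm hf0 hfi c l hl0 hsupp x
    have h2 := ENNReal.rpow_le_rpow h1 (show 0 ≤ p / 2 by linarith)
    rw [ENNReal.ofReal_rpow_of_nonneg (by positivity) (by linarith)] at h2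
    refine le_trans (ENNReal.ofReal_le_ofReal ?_) h2
    rw [hκ]
    refine j8193_real lam p F l x c hlam hp hF0 hl0 ?_
    rw [abs_le, hc, hl]
    constructor <;> linarith [hx.1, hx.2]
  have hR : ∫⁻ x, ENNReal.ofReal (|f x| ^ p * U x) ≤ G := by
    rw [hGd, ← lintegral_indicator measurableSet_Icc]
    refine lintegral_mono fun x => ?_
    show ENNReal.ofReal (|f x| ^ p * U x) ≤ (Icc a b).indicator (fun x => (ENNReal.ofReal (U x + ε)) ^ s) x
    by_cases hx : x ∈ Icc a b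
    · have hfx : f x = (U x + ε) ^ s := Set.indicator_of_mem hx _
      rw [Set.indicator_of_mem hx, ENNReal.ofReal_rpow_of_pos (hUε x), abs_of_nonneg (hf0 x), hfx]
      apply ENNReal.ofReal_le_ofReal
      have h1 : ((U x + ε) ^ s) ^ p = (U x + ε) ^ s * (U x + ε)⁻¹ := by
        rw [← Real.rpow_mul (hUε x).le, ← Real.rpow_neg_one, ← Real.rpow_add (hUε x)]
        congr 1
        rw [hs]; field_simp; ring
      rw [h1, mul_assoc]
      have h2 : (U x + ε)⁻¹ * U x ≤ 1 := by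
        rw [inv_mul_le_one₀ (hUε x)]; linarith
      calc (U x + ε) ^ s * ((U x + ε)⁻¹ * U x) ≤ (U x + ε) ^ s * 1 :=
            mul_le_mul_of_nonneg_left h2 (Real.rpow_nonneg (hUε x).le s)
        _ = _ := mul_one _
    · have hfx : f x = 0 := Set.indicator_of_notMem hx _
      rw [hfx, abs_zero, Real.zero_rpow (by linarith), zero_mul, ENNReal.ofReal_zero]
      exact bot_le
  have hmain : ENNReal.ofReal (κ * (F / l) ^ p) * W ≤ C * G := by
    refine hL.trans ((h f hfm hf0 ⟨ε ^ s, hfM⟩ ⟨c, l, hl0, hsupp⟩).trans ?_)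
    exact mul_le_mul_right hR _
  have hL0 : ENNReal.ofReal l ≠ 0 := by rw [Ne, ENNReal.ofReal_eq_zero]; linarith
  have hL1 : ENNReal.ofReal l ≠ ∞ := ENNReal.ofReal_ne_top
  set Lp : ℝ≥0∞ := (ENNReal.ofReal l) ^ p with hLp
  have hLp0 : Lp ≠ 0 := (ENNReal.rpow_pos (pos_iff_ne_zero.2 hL0) hL1).ne'
  have hLp1 : Lp ≠ ∞ := ENNReal.rpow_ne_top_of_nonneg (by linarith) hL1
  have hκE0 : (κ : ℝ≥0∞) ≠ 0 := by exact_mod_cast hκ0
  have hκE1 : (κ : ℝ≥0∞) ≠ ∞ := ENNReal.coe_ne_top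
  have he : ENNReal.ofReal (κ * (F / l) ^ p) = κ * (G ^ p * Lp⁻¹) := by
    rw [ENNReal.ofReal_mul (by positivity), ENNReal.ofReal_coe_nnreal,
      ← ENNReal.ofReal_rpow_of_nonneg (by positivity) (by linarith), ENNReal.ofReal_div_of_pos hl0,
      hG, ENNReal.div_rpow_of_nonneg _ _ (by linarith), ENNReal.div_eq_inv_mul, mul_comm (Lp⁻¹)]
  have hGp : G ^ p = G ^ (p - 1) * G := by
    have : G ^ p = G ^ ((p - 1) + 1) := by congr 1; ring
    rw [this, ENNReal.rpow_add _ _ hG0 hG1, ENNReal.rpow_one]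
  rw [he, hGp] at hmain
  calc W * G ^ (p - 1) = (G⁻¹ * Lp * (κ : ℝ≥0∞)⁻¹) * (κ * (G ^ (p - 1) * G * Lp⁻¹) * W) := by
        have e1 : (G⁻¹ * Lp * (κ : ℝ≥0∞)⁻¹) * (κ * (G ^ (p - 1) * G * Lp⁻¹) * W) =
          (G⁻¹ * G) * (Lp⁻¹ * Lp) * ((κ : ℝ≥0∞)⁻¹ * κ) * (W * G ^ (p - 1)) := by ring
        rw [e1, ENNReal.inv_mul_cancel hG0 hG1, ENNReal.inv_mul_cancel hLp0 hLp1,
          ENNReal.inv_mul_cancel hκE0 hκE1]
        ring
    _ ≤ (G⁻¹ * Lp * (κ : ℝ≥0∞)⁻¹) * (C * G) := mul_le_mul_right hmain _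
    _ = (G⁻¹ * G) * (C * (κ : ℝ≥0∞)⁻¹ * Lp) := by ring
    _ = ((C / κ : ℝ≥0) : ℝ≥0∞) * Lp := by
        rw [ENNReal.inv_mul_cancel hG0 hG1, one_mul, ENNReal.coe_div hκ0, ENNReal.div_eq_inv_mul,
          mul_comm (C : ℝ≥0∞)]

theorem nec_A (lam p : ℝ) (hlam : 0 < lam) (hp : 1 < p) (U : ℝ → ℝ) (hU : IsWeight U)
    (h : TestStar lam p U) : MuckenhouptA p U := by
  obtain ⟨C, hC⟩ := h
  have hp1 : 0 < p - 1 := by linarith
  set κ : ℝ≥0 := ⟨(1 / 400) ^ p * (2 / 7) ^ (lam * (p / 2)), by positivity⟩ with hκ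
  have hκ0 : κ ≠ 0 := by
    have : (0 : ℝ) < κ := by
      show (0 : ℝ) < (1 / 400) ^ p * (2 / 7) ^ (lam * (p / 2))
      positivity
    exact_mod_cast this.ne'
  refine ⟨C / κ, fun a b hab => ?_⟩
  have hW : ∫⁻ x in Icc a b, ENNReal.ofReal (U x) ≠ ∞ :=
    ((hU.2.2.integrableOn_isCompact isCompact_Icc).lintegral_lt_top).ne
  have hmono : ∀ x, Monotone (fun n : ℕ => (ENNReal.ofReal (U x + 1 / ((n : ℝ) + 1))) ^ (-1 / (p - 1))) := by
    intro x m n hmn
    have hm : 0 < 1 / ((m : ℝ) + 1) := by positivity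
    have hn : 0 < 1 / ((n : ℝ) + 1) := by positivity
    have hmn' : 1 / ((n : ℝ) + 1) ≤ 1 / ((m : ℝ) + 1) :=
      one_div_le_one_div_of_le (by positivity) (by exact_mod_cast Nat.succ_le_succ hmn)
    have h0 := hU.2.1 x
    show (ENNReal.ofReal (U x + 1 / ((m : ℝ) + 1))) ^ (-1 / (p - 1)) ≤
      (ENNReal.ofReal (U x + 1 / ((n : ℝ) + 1))) ^ (-1 / (p - 1))
    rw [ENNReal.ofReal_rpow_of_pos (by linarith), ENNReal.ofReal_rpow_of_pos (by linarith)]
    apply ENNReal.ofReal_le_ofReal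
    exact Real.rpow_le_rpow_of_nonpos (by linarith) (by linarith)
      (div_nonpos_of_nonpos_of_nonneg (by norm_num) hp1.le)
  have hlim : ∀ x, Tendsto (fun n : ℕ => (ENNReal.ofReal (U x + 1 / ((n : ℝ) + 1))) ^ (-1 / (p - 1)))
      atTop (𝓝 ((ENNReal.ofReal (U x)) ^ (-1 / (p - 1)))) := by
    intro x
    have h1 : Tendsto (fun n : ℕ => U x + 1 / ((n : ℝ) + 1)) atTop (𝓝 (U x)) := by
      have := (tendsto_const_nhds (x := U x)).add (tendsto_one_div_add_atTop_nhds_zero_nat (𝕜 := ℝ))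
      rwa [add_zero] at this
    have h2 := (ENNReal.continuous_ofReal.tendsto (U x)).comp h1
    exact ((ENNReal.continuous_rpow_const (y := -1 / (p - 1))).tendsto _).comp h2
  have hint := lintegral_tendsto_of_tendsto_of_monotone (μ := volume.restrict (Icc a b))
    (f := fun n : ℕ => fun x => (ENNReal.ofReal (U x + 1 / ((n : ℝ) + 1))) ^ (-1 / (p - 1)))
    (F := fun x => (ENNReal.ofReal (U x)) ^ (-1 / (p - 1)))
    (fun n => ((hU.1.add_const _).ennreal_ofReal.pow_const _).aemeasurable)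
    (Filter.Eventually.of_forall hmono) (Filter.Eventually.of_forall hlim)
  have hint2 := ((ENNReal.continuous_rpow_const (y := p - 1)).tendsto _).comp hint
  have hint3 := ENNReal.Tendsto.const_mul (a := ∫⁻ x in Icc a b, ENNReal.ofReal (U x)) hint2 (Or.inr hW)
  refine le_of_tendsto' hint3 fun n => ?_
  exact j8193_step lam p hlam hp U hU C hC κ hκ0 rfl a b hab (1 / ((n : ℝ) + 1)) (by positivity)

end

end GStar954
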