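import Mathlib
import Pool.Agent.Helper954.GStar.Defs
import Pool.Agent.Helper954.GStar.N1

set_option autoImplicit false
open MeasureTheory Filter Set Topology
open scoped ENNReal NNReal

namespace GStar954

noncomputable section

theorem nec_B (lam p : ℝ) (hlam : 0 < lam) (hp : 1 < p) (U : ℝ → ℝ) (hU : IsWeight U)
    (h : TestStar lam p U) : ClassB (lam * p / 2) U := by
  obtain ⟨C, hC⟩ := h
  have hp0 : 0 < p := by linarith
  have hr : 0 < lam * p / 2 := by positivity
  set r := lam * p / 2 with hrdef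
  refine ⟨Real.toNNReal (4 ^ r * 400 ^ p) * C, ?_⟩
  intro c l hl
  set I : Set ℝ := Icc (c - l / 2) (c + l / 2) with hI
  have hIm : MeasurableSet I := measurableSet_Icc
  let f : ℝ → ℝ := I.indicator (fun _ => (1 : ℝ))
  have hfm : Measurable f := measurable_const.indicator hIm
  have hf0 : ∀ x, 0 ≤ f x := fun x => Set.indicator_nonneg (fun _ _ => zero_le_one) x
  have hf1 : ∀ x, f x ≤ 1 := fun x => Set.indicator_le' (fun _ _ => le_rfl) (fun _ _ => zero_le_one) x
  have hfs : ∀ x, x ∉ I → f x = 0 := fun x hx => Set.indicator_of_notMem hx _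
  have hvol : volume I = ENNReal.ofReal l := by
    rw [hI, Real.volume_Icc]; congr 1; ring
  have hfi : Integrable f := by
    refine (integrable_indicator_iff hIm).2 ?_
    refine integrableOn_const ?_ (by simp)
    rw [hvol]; exact ENNReal.ofReal_ne_top
  have hint : ∫ t, f t = l := by
    have : ∫ t, f t = ∫ t in I, (1 : ℝ) := integral_indicator hIm
    rw [this, setIntegral_const, smul_eq_mul, mul_one, Measure.real, hvol,
      ENNReal.toReal_ofReal hl.le]
  have hmain := hC f hfm hf0 ⟨1, hf1⟩ ⟨c, l, hl, hfs⟩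
  have hrhs : ∫⁻ x, ENNReal.ofReal (|f x| ^ p * U x) = ∫⁻ x in I, ENNReal.ofReal (U x) := by
    rw [← lintegral_indicator hIm]
    refine lintegral_congr fun x => ?_
    by_cases hx : x ∈ I
    · have : f x = 1 := Set.indicator_of_mem hx _
      rw [this, Set.indicator_of_mem hx]; simp
    · have : f x = 0 := hfs x hx
      rw [this, Set.indicator_of_notMem hx]
      simp [Real.zero_rpow hp0.ne']
  rw [hrhs] at hmain
  -- lower bound
  have hq : ∀ x, 0 < l / (|x - c| + 3 * l) := fun x => by positivity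
  have hlow : ∀ x, ENNReal.ofReal ((1 / 400) ^ p * (l / (|x - c| + 3 * l)) ^ r) ≤
      (gs lam (Gam f) x) ^ (p / 2) := by
    intro x
    have h1 := gs_lower lam hlam f hfm hf0 hfi c l hl hfs x
    rw [hint] at h1
    have h2 := ENNReal.rpow_le_rpow h1 (show 0 ≤ p / 2 by positivity)
    refine le_trans (le_of_eq ?_) h2
    have hA : 0 ≤ (l / (400 * l)) ^ 2 * (l / (|x - c| + 3 * l)) ^ lam := by
      have := hq x; positivity
    rw [ENNReal.ofReal_rpow_of_nonneg hA (by positivity)]
    congr 1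
    have e1 : l / (400 * l) = 1 / 400 := by field_simp
    rw [e1, Real.mul_rpow (by positivity) (Real.rpow_nonneg (hq x).le _)]
    congr 1
    · rw [← Real.rpow_natCast, ← Real.rpow_mul (by norm_num)]
      congr 1; push_cast; ring
    · rw [← Real.rpow_mul (hq x).le]
      congr 1; rw [hrdef]; ring
  have h3 : ∫⁻ x, ENNReal.ofReal ((1 / 400) ^ p * (l / (|x - c| + 3 * l)) ^ r) *
      ENNReal.ofReal (U x) ≤ C * ∫⁻ x in I, ENNReal.ofReal (U x) := by
    refine le_trans (lintegral_mono fun x => ?_) hmain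
    exact mul_le_mul' (hlow x) le_rfl
  -- pointwise bound
  have hpt : ∀ x, ENNReal.ofReal (l ^ (r - 1) * U x / (l ^ r + |x - c| ^ r)) ≤
      ENNReal.ofReal (1 / l * (4 ^ r * 400 ^ p)) *
        (ENNReal.ofReal ((1 / 400) ^ p * (l / (|x - c| + 3 * l)) ^ r) * ENNReal.ofReal (U x)) := by
    intro x
    have hUx := hU.2.1 x
    have hq0 := hq x
    have hqr : 0 < (l / (|x - c| + 3 * l)) ^ r := Real.rpow_pos_of_pos hq0 _
    rw [← ENNReal.ofReal_mul (by positivity), ← ENNReal.ofReal_mul (by positivity)]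
    refine ENNReal.ofReal_le_ofReal ?_
    have h400 : (400 : ℝ) ^ p * (1 / 400) ^ p = 1 := by
      rw [← Real.mul_rpow (by norm_num) (by norm_num)]; norm_num
    have e2 : 1 / l * (4 ^ r * 400 ^ p) * ((1 / 400) ^ p * (l / (|x - c| + 3 * l)) ^ r * U x) =
        1 / l * (4 ^ r * (l / (|x - c| + 3 * l)) ^ r) * U x * (400 ^ p * (1 / 400) ^ p) := by ring
    rw [e2, h400, mul_one]
    have hlr : 0 < l ^ r := Real.rpow_pos_of_pos hl _
    have hxr : 0 ≤ |x - c| ^ r := Real.rpow_nonneg (abs_nonneg _) _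
    have e3 : l ^ (r - 1) * U x / (l ^ r + |x - c| ^ r) =
        1 / l * (l ^ r / (l ^ r + |x - c| ^ r)) * U x := by
      rw [Real.rpow_sub_one hl.ne']; field_simp
    rw [e3]
    refine mul_le_mul_of_nonneg_right ?_ hUx
    refine mul_le_mul_of_nonneg_left ?_ (by positivity)
    rw [← Real.mul_rpow (by norm_num) hq0.le]
    set M := max |x - c| l with hM
    have hMpos : 0 < M := lt_of_lt_of_le hl (le_max_right _ _)
    have hMr : M ^ r ≤ l ^ r + |x - c| ^ r := by
      rcases le_total |x - c| l with hle | hle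
      · rw [hM, max_eq_right hle]; linarith
      · rw [hM, max_eq_left hle]; linarith
    have hle1 : l / M ≤ 4 * (l / (|x - c| + 3 * l)) := by
      have : |x - c| + 3 * l ≤ 4 * M := by
        have h1 := le_max_left |x - c| l
        have h2 := le_max_right |x - c| l
        rw [← hM] at h1 h2
        linarith
      rw [← mul_div_assoc, div_le_div_iff₀ hMpos (by positivity)]
      nlinarith
    calc l ^ r / (l ^ r + |x - c| ^ r) ≤ l ^ r / M ^ r := by
          exact div_le_div_of_nonneg_left hlr.le (Real.rpow_pos_of_pos hMpos _) hMr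
      _ = (l / M) ^ r := by rw [Real.div_rpow hl.le hMpos.le]
      _ ≤ _ := Real.rpow_le_rpow (by positivity) hle1 hr.le
  calc ∫⁻ x, ENNReal.ofReal (l ^ (r - 1) * U x / (l ^ r + |x - c| ^ r))
      ≤ ∫⁻ x, ENNReal.ofReal (1 / l * (4 ^ r * 400 ^ p)) *
        (ENNReal.ofReal ((1 / 400) ^ p * (l / (|x - c| + 3 * l)) ^ r) * ENNReal.ofReal (U x)) :=
        lintegral_mono hpt
    _ = ENNReal.ofReal (1 / l * (4 ^ r * 400 ^ p)) *
        ∫⁻ x, (ENNReal.ofReal ((1 / 400) ^ p * (l / (|x - c| + 3 * l)) ^ r) *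
          ENNReal.ofReal (U x)) := lintegral_const_mul' _ _ ENNReal.ofReal_ne_top
    _ ≤ ENNReal.ofReal (1 / l * (4 ^ r * 400 ^ p)) * (C * ∫⁻ x in I, ENNReal.ofReal (U x)) :=
        mul_le_mul' le_rfl h3
    _ = ENNReal.ofReal (1 / l) * (((Real.toNNReal (4 ^ r * 400 ^ p) * C : ℝ≥0) : ℝ≥0∞) *
          ∫⁻ x in I, ENNReal.ofReal (U x)) := by
        rw [ENNReal.ofReal_mul (by positivity), ENNReal.coe_mul, ← ENNReal.ofReal]
        ring

end

end GStar954
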