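import Mathlib
import Pool.Agent.Helper954.GStar.Defs
import Pool.Agent.Helper954.GStar.Imp
import Pool.Agent.Helper954.GStar.D0
import Pool.Agent.Helper954.GStar.D2
import Pool.Agent.Helper954.GStar.N3
import Pool.Agent.Helper954.GStar.N4
import Pool.Agent.Helper954.GStar.E1
import Pool.Agent.Helper954.GStar.E2

set_option autoImplicit false
open MeasureTheory Filter Set Topology
open scoped ENNReal NNReal

namespace GStar954

noncomputable section

theorem fin_test (lam p : ℝ) (hp : 1 < p) (U : ℝ → ℝ) (hU : IsWeight U) (h : Star lam p U) :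
    TestStar lam p U := by
  obtain ⟨C, hC⟩ := h
  refine ⟨C, fun f hf hf0 hfM hfs => ?_⟩
  obtain ⟨M, hM⟩ := hfM
  obtain ⟨c, l, hl, hs⟩ := hfs
  have hp0 : 0 < p := by linarith
  have hUi : IntegrableOn U (Icc (c - l / 2) (c + l / 2)) := hU.2.2.integrableOn_isCompact isCompact_Icc
  have hfin : ∫⁻ x, ENNReal.ofReal (|f x| ^ p * U x) < ∞ := by
    have h1 : ∀ x, ENNReal.ofReal (|f x| ^ p * U x) ≤
        (Icc (c - l / 2) (c + l / 2)).indicator
          (fun x => ENNReal.ofReal (|M| ^ p) * ENNReal.ofReal (U x)) x := by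
      intro x
      by_cases hx : x ∈ Icc (c - l / 2) (c + l / 2)
      · rw [indicator_of_mem hx, ← ENNReal.ofReal_mul (by positivity)]
        apply ENNReal.ofReal_le_ofReal
        apply mul_le_mul_of_nonneg_right _ (hU.2.1 x)
        apply Real.rpow_le_rpow (abs_nonneg _) _ hp0.le
        rw [abs_of_nonneg (hf0 x)]
        exact (hM x).trans (le_abs_self M)
      · rw [indicator_of_notMem hx, hs x hx, abs_zero, Real.zero_rpow hp0.ne', zero_mul,
          ENNReal.ofReal_zero]
    refine (lintegral_mono h1).trans_lt ?_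
    rw [lintegral_indicator measurableSet_Icc, lintegral_const_mul _ hU.1.ennreal_ofReal]
    apply ENNReal.mul_lt_top ENNReal.ofReal_lt_top
    exact hUi.lintegral_lt_top
  have hfi : Integrable (fun x => f x / (1 + x ^ 2)) := by
    have h1 : Integrable ((Icc (c - l / 2) (c + l / 2)).indicator (fun _ => |M|)) := by
      rw [integrable_indicator_iff measurableSet_Icc]
      exact integrableOn_const (by
        rw [Real.volume_Icc]
        exact ENNReal.ofReal_ne_top)
    apply h1.mono'
    · exact (hf.div (by fun_prop)).aestronglyMeasurable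
    · refine Eventually.of_forall fun x => ?_
      by_cases hx : x ∈ Icc (c - l / 2) (c + l / 2)
      · rw [indicator_of_mem hx, norm_div, Real.norm_of_nonneg (hf0 x),
          Real.norm_of_nonneg (by positivity)]
        have h2 : f x / (1 + x ^ 2) ≤ f x := div_le_self (hf0 x) (by nlinarith [sq_nonneg x])
        exact h2.trans ((hM x).trans (le_abs_self M))
      · rw [indicator_of_notMem hx, hs x hx, zero_div, norm_zero]
  have h2 := hC f hf.aemeasurable hfin
  simp only [gStar_rpow lam p hp0 f hf hfi] at h2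
  exact h2

theorem fin_gStar_congr (lam : ℝ) (f g : ℝ → ℝ) (h : f =ᵐ[volume] g) : gStar lam f = gStar lam g := by
  unfold gStar gradSq
  rw [poisson_congr f g h]

theorem fin_suff (lam p : ℝ) (h1 : 1 < lam) (h2 : lam ≤ 2) (h3 : 2 / lam < p) (h4 : p < 2)
    (hp : 1 < p) (hr : 1 < lam * p / 2) (U : ℝ → ℝ) (hU : IsWeight U) (hA : MuckenhouptA p U)
    (hB : ClassB (lam * p / 2) U) : Star lam p U := by
  rcases Ap_dichotomy p hp U hU hA with h0 | h0
  · refine ⟨0, fun f hf hfin => ?_⟩
    have : ∫⁻ x, (gStar lam f x) ^ p * ENNReal.ofReal (U x) = 0 := by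
      rw [← lintegral_zero (μ := volume) (α := ℝ)]
      apply lintegral_congr_ae
      filter_upwards [h0] with x hx
      rw [hx, ENNReal.ofReal_zero, mul_zero]
    rw [this]
    exact zero_le
  · obtain ⟨q, hq1, hq, hBq⟩ := classB_improves hr hU hB
    obtain ⟨C, hC⟩ := suff lam p q h1 h2 h3 h4 U hU hA hq1 hq hBq
    refine ⟨C, fun f hf hfin => ?_⟩
    have hg := hf.measurable_mk
    have hfg := hf.ae_eq_mk
    obtain ⟨g, hgd⟩ : ∃ g, g = hf.mk f := ⟨_, rfl⟩
    rw [← hgd] at hg hfg
    have hint : ∫⁻ x, ENNReal.ofReal (|f x| ^ p * U x) = ∫⁻ x, ENNReal.ofReal (|g x| ^ p * U x) := by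
      apply lintegral_congr_ae
      filter_upwards [hfg] with x hx
      rw [hx]
    rw [hint] at hfin ⊢
    rw [fin_gStar_congr lam f g hfg]
    obtain ⟨h5, h6⟩ := hC g hg hfin.ne
    simp only [gStar_rpow lam p (by linarith) g hg (h5 h0)]
    exact h6

theorem final (lam p : ℝ) (h1 : 1 < lam) (h2 : lam ≤ 2) (h3 : 2 / lam < p) (h4 : p < 2)
    (U : ℝ → ℝ) (hU : IsWt U) :
    (Star lam p U ↔ (ClassA p U ∧ ClassB (lam * p / 2) U)) ∧
    (ClassA p U → ¬ (∀ᵐ x, U x = 0) → ∀ f : ℝ → ℝ, AEMeasurable f →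
      ∫⁻ x, ENNReal.ofReal (|f x| ^ p * U x) < ∞ → ∀ z y : ℝ, 0 < y →
        Integrable (fun x => y * f (z - x) / (x ^ 2 + y ^ 2))) := by
  have hlam : 0 < lam := by linarith
  have hr : 1 < lam * p / 2 := by
    rw [div_lt_iff₀ hlam] at h3
    linarith
  have hp : 1 < p := by
    rw [div_lt_iff₀ hlam] at h3
    nlinarith
  obtain ⟨U', hU', hUU⟩ := exists_rep U hU
  refine ⟨⟨fun h => ?_, fun h => ?_⟩, ?_⟩
  · have h5 := fin_test lam p hp U' hU' (star_congr lam p U U' hUU h)
    exact ⟨classA_congr p U' U hUU.symm ((classA_iff p hp U').2 (nec_A lam p hlam hp U' hU' h5)),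
      classB_congr _ U' U hUU.symm (nec_B lam p hlam hp U' hU' h5)⟩
  · apply star_congr lam p U' U hUU.symm
    exact fin_suff lam p h1 h2 h3 h4 hp hr U' hU'
      ((classA_iff p hp U').1 (classA_congr p U U' hUU h.1)) (classB_congr _ U U' hUU h.2)
  · intro hA hne f hf hfin z y hy
    have hA' := (classA_iff p hp U').1 (classA_congr p U U' hUU hA)
    have h0 : ∀ᵐ x, U' x ≠ 0 := by
      rcases Ap_dichotomy p hp U' hU' hA' with h5 | h5
      · exfalso
        apply hne
        filter_upwards [h5, hUU] with x hx hx2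
        rw [hx2, hx]
      · exact h5
    obtain ⟨A, hAA⟩ := hA'
    have hAp : Ap p A (fun x => ENNReal.ofReal (U' x)) := by
      intro a b hab
      have := hAA a b hab
      rw [restrict_Ioo_eq_restrict_Icc]
      exact this
    obtain ⟨C, hC⟩ := area_bound p hp h4 A
    have hg := hf.measurable_mk
    have hfg := hf.ae_eq_mk
    obtain ⟨g, hgd⟩ : ∃ g, g = hf.mk f := ⟨_, rfl⟩
    rw [← hgd] at hg hfg
    have hint : ∫⁻ x, ENNReal.ofReal (|f x| ^ p * U x) =
        ∫⁻ x, ENNReal.ofReal |g x| ^ p * ENNReal.ofReal (U' x) := by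
      apply lintegral_congr_ae
      filter_upwards [hfg, hUU] with x hx hx2
      rw [hx, hx2, ENNReal.ofReal_mul (by positivity),
        ENNReal.ofReal_rpow_of_nonneg (abs_nonneg _) (by linarith)]
    rw [hint] at hfin
    obtain ⟨h5, -⟩ := hC (fun x => ENNReal.ofReal (U' x)) hU'.1.ennreal_ofReal (by
      filter_upwards [h0] with x hx
      refine ⟨?_, ENNReal.ofReal_ne_top⟩
      rw [ne_eq, ENNReal.ofReal_eq_zero, not_le]
      exact lt_of_le_of_ne (hU'.2.1 x) (Ne.symm hx)) hAp g hg hfin.ne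
    have h6 := poisson_integrand g hg h5 z y hy
    apply h6.congr
    have h7 := (Measure.measurePreserving_sub_left volume z).quasiMeasurePreserving.ae_eq_comp hfg
    filter_upwards [h7] with x hx
    have hx' : f (z - x) = g (z - x) := hx
    rw [hx']

end

end GStar954
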